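import Pool.Agent.Lib.MP_361a6f_ag.FL.A.Stat
import Pool.Agent.Lib.MP_361a6f_ag.FL.GeoDefs

/-!
# Theorem A: statements of the rows
-/

open CategoryTheory AlgebraicGeometry MonoidalCategory CartesianMonoidalCategory

universe u v w

namespace Pool.Agent.Lib.MP_361a6f_ag.FL

open Pool.Agent.Lib.MP_361a6f_ag.H3 Pool.Agent.Lib.MP_361a6f_ag.SQ
  Pool.Agent.Lib.MP_361a6f_ag.PP

noncomputable section

variable {k : Type u} [Field k] {m : ℕ}

/-- a tensor is antisymmetric -/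
def Anti {I : Type} {L : ℕ} (u : Ten I L) : Prop :=
  ∀ (σ : Equiv.Perm (Fin L)) (w : Fin L → I), u (w ∘ σ) = ((Equiv.Perm.sign σ : ℤ) : ℂ) * u w

/-- Rows EXT1 (`sq`, `zero`, `span`, `inj`) and EXT2 (`con`, `ext`): `H^*(X)` is the exterior
algebra of `H^1(X)`. -/
structure ExtFacts (W : CohomologyData.{u, 0, w} k ℂ) (X : Sch k) : Prop where
  sq : ∀ v ∈ W.gr X 1, v * v = 0
  zero : ∀ x ∈ W.gr X 0, ∃ c : ℂ, x = c • 1
  span : ∀ i, ∀ x ∈ W.gr X i, x ∈ Submodule.span ℂ {y : W.coh X | ∃ v : Fin i → W.coh X,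
    (∀ l, v l ∈ W.gr X 1) ∧ y = (List.ofFn v).prod}
  /-- an antisymmetric tensor whose product is zero is zero -/
  inj : ∀ {I : Type} [Fintype I] [DecidableEq I] (e : I → W.coh X) (S : Set I),
    (∀ i ∈ S, e i ∈ W.gr X 1) → LinearIndependent ℂ (fun i : S => e i) →
    ∀ (L : ℕ) (u : Ten I L), (∀ w, ¬ (∀ i, w i ∈ S) → u w = 0) → Anti u →
      ∑ w, u w • (List.ofFn fun i => e (w i)).prod = 0 → u = 0
  /-- contractions -/
  con : ∃ c : (W.coh X →ₗ[ℂ] ℂ) → Module.End ℂ (W.coh X),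
    (∀ φ, c φ 1 = 0) ∧
    (∀ φ v x, v ∈ W.gr X 1 → c φ (v * x) = φ v • x - v * c φ x) ∧
    (∀ φ i x, x ∈ W.gr X (i + 1) → c φ x ∈ W.gr X i) ∧
    ∀ i x, x ∈ W.gr X (i + 1) → (∀ φ, c φ x = 0) → x = 0
  /-- extension of antilinear maps -/
  ext : ∀ j : W.coh X →ₛₗ[starRingEnd ℂ] W.coh X, (∀ v ∈ W.gr X 1, j v ∈ W.gr X 1) →
    ∃ J : W.coh X →ₛₗ[starRingEnd ℂ] W.coh X, J 1 = 1 ∧ (∀ x y, J (x * y) = J x * J y) ∧
      (∀ i x, x ∈ W.gr X i → J x ∈ W.gr X i) ∧ ∀ v ∈ W.gr X 1, J v = j v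

namespace Host

variable {W : CohomologyData.{u, 0, w} k ℂ} {𝒱 : VarietyClass k} (H : Host W 𝒱 m)

/-- all letters of the word `w` are `(a, 1)` -/
def On1 (a : Fin m) {L : ℕ} (w : Fin L → H.I) : Prop := ∀ i, H.D.typ (w i) = (a, 1)

/-- the product of the basis elements of a word in the cohomology of `X_a` -/
def mon (a : Fin m) {L : ℕ} (w : Fin L → H.I) : W.coh (H.X a) :=
  (List.ofFn fun i => H.e a (w i)).prod

/-- the form `ψ` on the cohomology of `X_a` -/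
def psiL (a : Fin m) (x y : W.coh (H.X a)) : ℂ :=
  psi W (H.X a) (H.ξ a) (H.Lam a) (H.lam a).slm.internal x y

/-- the multiplication map -/
def mul (a : Fin m) {L : ℕ} (u : Ten H.I L) : W.coh (H.X a) := ∑ w, u w • H.mon a w

/-- the adjoint of the multiplication map -/
def mul' (a : Fin m) (L : ℕ) (z : W.coh (H.X a)) : Ten H.I L :=
  fun w => sg H.D (H.D.τ ∘ w) * H.psiL a (H.mon a (H.D.τ ∘ w)) z

/-- the projection of a tensor to the words with all letters `(a, 1)` -/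
def prj (a : Fin m) {L : ℕ} (u : Ten H.I L) : Ten H.I L :=
  open Classical in fun w => if H.On1 a w then u w else 0

/-- antisymmetric algebraic tensors with all letters `(a, 1)` -/
structure AntiAt (a : Fin m) {L : ℕ} (u : Ten H.I L) : Prop where
  mem : u ∈ H.At L
  on : ∀ w, ¬ H.On1 a w → u w = 0
  anti : Anti u

/-- algebraic tensors of length `2` with the letters `(a, 1)`, `(b, 1)` -/
structure PairAt (a b : Fin m) (u : Ten H.I 2) : Prop where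
  mem : u ∈ H.At 2
  on : ∀ w, ¬ (H.D.typ (w 0) = (a, 1) ∧ H.D.typ (w 1) = (b, 1)) → u w = 0

/-- Row MUL: the multiplication map and its adjoint. -/
structure MulFacts : Prop where
  mul_mem : ∀ (a : Fin m) (L : ℕ) (u : Ten H.I L), u ∈ H.At L → H.mul a u ∈ tot W (H.X a)
  mul'_mem : ∀ (a : Fin m) (L : ℕ) (z : W.coh (H.X a)), 0 < L → z ∈ tot W (H.X a) →
    H.mul' a L z ∈ H.At L
  adj : ∀ (a : Fin m) (L : ℕ) (u : Ten H.I L) (z : W.coh (H.X a)),
    psiT H.D u (H.mul' a L z) = H.psiL a (H.mul a u) z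
  prj_mem : ∀ (a : Fin m) (L : ℕ) (u : Ten H.I L), u ∈ H.At L → H.prj a u ∈ H.At L

/-- Row CMP: comparison. -/
structure CmpFacts : Prop where
  pos : ∀ (a : Fin m) (L : ℕ) (u : Ten H.I L), H.AntiAt a u → u ≠ 0 → RatPos (psiT H.D u u)
  surj : ∀ (a : Fin m) (l : ℕ) (z : W.coh (H.X a)), z ∈ W.alg (H.X a) l →
    ∃ u : Ten H.I (2 * l), H.AntiAt a u ∧ H.mul a u = z

/-- Row PRP: positivity on two factors. -/
def PrpFacts : Prop :=
  ∀ (a b : Fin m) (u : Ten H.I 2), H.PairAt a b u → u ≠ 0 → RatPos (psiT H.D u u)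

/-- Row TA: an inner real structure that fixes the tensors. -/
structure FixA (g : Matrix H.I H.I ℂ) : Prop where
  G : IsG H.D g
  anti : ∀ (a : Fin m) (L : ℕ) (u : Ten H.I L), H.AntiAt a u →
    gT g (jT H.D (gT g⁻¹ u)) = u
  pair : ∀ (a b : Fin m) (u : Ten H.I 2), H.PairAt a b u → gT g (jT H.D (gT g⁻¹ u)) = u

/-- Row JA: the real structures on all products. -/
structure JFactsA
    (J : ∀ P : Prd m, W.coh (P.obj H.X) →ₛₗ[starRingEnd ℂ] W.coh (P.obj H.X)) : Prop where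
  rs : ∀ P, IsRS W (P.obj H.X) (P.dim H.n) (P.pol W H.ξ) (H.LamP P) (J P)
  prod : ∀ (P Q : Prd m) (y : W.coh (P.obj H.X)) (x : W.coh (Q.obj H.X)),
    J (.prod P Q) (W.pull (fst (P.obj H.X) (Q.obj H.X)) y
        * W.pull (snd (P.obj H.X) (Q.obj H.X)) x)
      = W.pull (fst (P.obj H.X) (Q.obj H.X)) (J P y)
        * W.pull (snd (P.obj H.X) (Q.obj H.X)) (J Q x)
  mul : ∀ (a : Fin m) (x y : W.coh (H.X a)), J (.leaf a) (x * y) = J (.leaf a) x * J (.leaf a) y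
  fix : ∀ (a : Fin m) (l : ℕ) (z : W.coh (H.X a)), z ∈ W.alg (H.X a) l → J (.leaf a) z = z
  fix2 : ∀ (a b : Fin m) (z : W.coh (H.X a ⊗ H.X b)), z ∈ W.alg (H.X a ⊗ H.X b) 1 →
    J (.prod (.leaf a) (.leaf b)) z = z

end Host

end

/-! ### Statements of the rows -/

/-- Rows EXT1, EXT2. -/
def ExtStatement : Prop :=
  ∀ {k : Type u} [Field k] {W : CohomologyData.{u, 0, w} k ℂ} {𝒱 : VarietyClass k}
    (_ : IsWeilCohomology W 𝒱) {X : Sch k} {g : ℕ} (_ : 𝒱.mem X g) (_ : AbelianType W X g)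
    (_ : ∃ x, W.tr X x ≠ 0), ExtFacts W X

/-- Row HR: Hodge-Riemann relations for the exterior algebra. -/
def HrStatement : Prop :=
  ∀ {k : Type u} [Field k] {W : CohomologyData.{u, 0, w} k ℂ} {𝒱 : VarietyClass k}
    (_ : IsWeilCohomology W 𝒱) {X : Sch k} {g : ℕ} (_ : 𝒱.mem X g) (_ : AbelianType W X g)
    (_ : ExtFacts W X) {ξ : W.coh X} (_ : PositiveDivisor W X g ξ)
    {Lam : Module.End ℂ (W.coh X)} (D : LamData W X g ξ Lam)
    (J : W.coh X →ₛₗ[starRingEnd ℂ] W.coh X) (_ : J 1 = 1) (_ : ∀ x y, J (x * y) = J x * J y)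
    (_ : ∀ i x, x ∈ W.gr X i → J x ∈ W.gr X i)
    (_ : ∀ v ∈ W.gr X 1, ∀ w ∈ W.gr X 1, psi W X ξ Lam D.slm.internal (J v) (J w)
      = starRingEnd ℂ (psi W X ξ Lam D.slm.internal v w))
    (_ : ∀ v ∈ W.gr X 1, v ≠ 0 → ∃ r : ℝ, 0 < r ∧
      psi W X ξ Lam D.slm.internal v (J v) = (r : ℂ))
    (_ : ∀ v ∈ W.gr X 1, J (J v) = -v),
    IsRS W X g ξ Lam J

/-- Row MUL. -/
def MulStatement : Prop :=
  ∀ {k : Type u} [Field k] {W : CohomologyData.{u, 0, w} k ℂ} {𝒱 : VarietyClass k} {m : ℕ}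
    (H : Host W 𝒱 m), H.MulFacts

/-- Row CMP. -/
def CmpStatement : Prop :=
  ∀ {k : Type u} [Field k] {W : CohomologyData.{u, 0, w} k ℂ} {𝒱 : VarietyClass k} {m : ℕ}
    (H : Host W 𝒱 m), (∀ a, AbelianType W (H.X a) (H.n a)) → (∀ a, ExtFacts W (H.X a)) →
    (∀ a, PositiveDivisor W (H.X a) (H.n a) (H.ξ a)) →
    (∀ a, HodgeType W (H.X a) (H.n a) (H.ξ a)) → H.CmpFacts

/-- Row PRP. -/
def PrpStatement : Prop :=
  ∀ {k : Type u} [Field k] {W : CohomologyData.{u, 0, w} k ℂ} {𝒱 : VarietyClass k} {m : ℕ}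
    (H : Host W 𝒱 m), (∀ a, AbelianType W (H.X a) (H.n a)) → (∀ a, ExtFacts W (H.X a)) →
    (∀ a b, HodgeCodim W (H.X a ⊗ H.X b) (H.n a + H.n b)
      ((Prd.prod (.leaf a) (.leaf b)).pol W H.ξ) 1) → H.PrpFacts

/-- Row TA (from Theorem Y with projectors). -/
def TaStatement : Prop :=
  ∀ {k : Type u} [Field k] {W : CohomologyData.{u, 0, w} k ℂ} {𝒱 : VarietyClass k} {m : ℕ}
    (H : Host W 𝒱 m), H.CmpFacts → H.PrpFacts → ∃ g, H.FixA g

/-- Row JA. -/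
def JaStatement : Prop :=
  ∀ {k : Type u} [Field k] {W : CohomologyData.{u, 0, w} k ℂ} {𝒱 : VarietyClass k} {m : ℕ}
    (H : Host W 𝒱 m), (∀ a, AbelianType W (H.X a) (H.n a)) → (∀ a, ExtFacts W (H.X a)) →
    (∀ a, PositiveDivisor W (H.X a) (H.n a) (H.ξ a)) → H.CmpFacts →
    ∀ g, H.FixA g → ∃ J, H.JFactsA J

/-- Row GENA: the real structures fix everything that is generated. -/
def GenAStatement : Prop :=
  ∀ {k : Type u} [Field k] {W : CohomologyData.{u, 0, w} k ℂ} {𝒱 : VarietyClass k} {m : ℕ}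
    (H : Host W 𝒱 m) (J) (_ : H.JFactsA J), ∀ P z, GenA W H.X P z → J P z = z

/-- Row GQA: positivity on everything that is generated. -/
def GqAStatement : Prop :=
  ∀ {k : Type u} [Field k] {W : CohomologyData.{u, 0, w} k ℂ} {𝒱 : VarietyClass k} {m : ℕ}
    (H : Host W 𝒱 m) (J) (_ : H.JFactsA J),
    (∀ P z, GenA W H.X P z → J P z = z) → ∀ (P : Prd m) (η : W.coh (P.obj H.X)),
    IsPol W H.ξ P η → HodgeOn W (P.obj H.X) (P.dim H.n) η (spanA W H.X P)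

/-- Theorem A with coefficients in `ℂ`. -/
def AcStatement : Prop :=
  ∀ {k : Type u} [Field k] {W : CohomologyData.{u, 0, w} k ℂ} {𝒱 : VarietyClass k}
    (_ : IsWeilCohomology W 𝒱) {m : ℕ} {X : Fin m → Sch k} {n : Fin m → ℕ}
    (_ : ∀ a, 𝒱.mem (X a) (n a)) (_ : ∀ a, AbelianType W (X a) (n a))
    {ξ : ∀ a, W.coh (X a)} (_ : ∀ a, PositiveDivisor W (X a) (n a) (ξ a))
    (_ : ∀ a, HardLefschetz W (X a) (n a) (ξ a))
    (_ : ∀ a, AlgebraicLambda W (X a) (n a) (ξ a))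
    (_ : ∀ a, HodgeType W (X a) (n a) (ξ a))
    (_ : ∀ a b, HodgeCodim W ((X a).prod (X b)) (n a + n b)
      ((Prd.prod (.leaf a) (.leaf b)).pol W ξ) 1)
    (P : Prd m) (η : W.coh (P.obj X)) (_ : IsPol W ξ P η),
    HodgeOn W (P.obj X) (P.dim n) η (spanA W X P)

/-- Row BCA: extension of the coefficients. -/
def BcaStatement : Prop := AcStatement.{u, w} → ThmAStatement.{u, v, w}

end Pool.Agent.Lib.MP_361a6f_ag.FL
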