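import Pool.Agent.Lib.MP_361a6f_ag.FL.Clo
import Pool.Agent.Lib.MP_361a6f_ag.FL.XY

/-!
# The orbit is closed: form with projectors

`π i` is a linear map on the tensors of length `len i` that commutes with the group and fixes
`t i`. The form is nondegenerate on the image of the complex span of the diagrams under `π i`.
Then the orbit of `t` is closed.
-/

open Filter Topology MeasureTheory

set_option autoImplicit false
set_option linter.unusedSectionVars false

namespace Pool.Agent.Lib.MP_361a6f_ag.FL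

namespace CloPi

open L12 CloT Pool.Agent.Lib.MP_361a6f_ag.RR

variable {I Λ ι : Type} [Fintype I] [DecidableEq I] [DecidableEq Λ] [Fintype ι] {len : ι → ℕ}
  {D : Dat I Λ}

/-- the projector on tuples -/
def PS (π : ∀ i, Ten I (len i) →ₗ[ℂ] Ten I (len i)) : Tup I len →ₗ[ℂ] Tup I len :=
  LinearMap.pi fun i => (π i).comp (LinearMap.proj i)

theorem PS_apply (π : ∀ i, Ten I (len i) →ₗ[ℂ] Ten I (len i)) (s : Tup I len) (i : ι) :
    PS π s i = π i (s i) := rfl

/-- the projector as a continuous linear map -/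
noncomputable def PC (π : ∀ i, Ten I (len i) →ₗ[ℂ] Ten I (len i)) : Tup I len →L[ℂ] Tup I len :=
  LinearMap.toContinuousLinearMap (PS π)

theorem PC_apply (π : ∀ i, Ten I (len i) →ₗ[ℂ] Ten I (len i)) (s : Tup I len) :
    PC π s = PS π s := rfl

/-- nondegeneracy on the image of the complex span under `π` -/
def NdPi (D : Dat I Λ) (t : Tup I len) {c : ℕ} (π : Ten I c →ₗ[ℂ] Ten I c) : Prop :=
  ∀ u ∈ MT D t c, π u ≠ 0 → ∃ v ∈ MT D t c, psiT D (π u) (π v) ≠ 0

variable (a1 : Alg1) (a2 : Alg2)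

include a1 a2 in
/-- an equivariant map whose projection vanishes at the limit `s` vanishes at `t` -/
theorem DM_zero {c : ℕ} {t s : Tup I len} {π : Ten I c →ₗ[ℂ] Ten I c}
    (hπ : ∀ g u, IsG D g → π (gT g u) = gT g (π u)) (hnd : NdPi D t π) {g : ℕ → Matrix I I ℂ}
    (hg : ∀ j, IsG D (g j)) (hlim : Tendsto (fun j => gS (g j) t) atTop (𝓝 s))
    {f : Tup I len → Ten I c} (hf : f ∈ DM D len c) (h0 : π (f s) = 0) : π (f t) = 0 := by
  by_contra hne
  obtain ⟨v, hv, h1⟩ := hnd (f t) (DM_val hf t) hne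
  obtain ⟨f', hf', rfl⟩ := exists_DM hv
  have hπc : Continuous π := LinearMap.continuous_of_finiteDimensional π
  have h2 : ∀ j, psiT D (π (f (gS (g j) t))) (π (f' (gS (g j) t))) =
      psiT D (π (f t)) (π (f' t)) := by
    intro j
    rw [DM_gS a2 a1 hf _ _ (hg j), DM_gS a2 a1 hf' _ _ (hg j), hπ _ _ (hg j), hπ _ _ (hg j),
      a1.psiT_gT D _ _ _ (hg j)]
  have h3 : Tendsto (fun j => psiT D (π (f (gS (g j) t))) (π (f' (gS (g j) t)))) atTop
      (𝓝 (psiT D (π (f s)) (π (f' s)))) := by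
    have h4 : Continuous fun x : Tup I len => psiT D (π (f x)) (π (f' x)) :=
      (psiT_cont (D := D)).comp ((hπc.comp (DM_diff a2 hf).continuous).prodMk
        (hπc.comp (DM_diff a2 hf').continuous))
    exact (h4.tendsto s).comp hlim
  simp only [h2] at h3
  have h5 := tendsto_nhds_unique h3 tendsto_const_nhds
  rw [h0] at h5
  have h6 : psiT D (0 : Ten I c) (π (f' s)) = 0 := by
    unfold psiT
    simp
  rw [h6] at h5
  exact h1 h5.symm

include a1 a2 in
/-- an equivariant map whose projection vanishes at the limit: on the orbit -/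
theorem DM_zero_orb {c : ℕ} {t s : Tup I len} {π : Ten I c →ₗ[ℂ] Ten I c}
    (hπ : ∀ g u, IsG D g → π (gT g u) = gT g (π u)) (hnd : NdPi D t π) {g : ℕ → Matrix I I ℂ}
    (hg : ∀ j, IsG D (g j)) (hlim : Tendsto (fun j => gS (g j) t) atTop (𝓝 s))
    {f : Tup I len → Ten I c} (hf : f ∈ DM D len c) (h0 : π (f s) = 0) {x : Tup I len}
    {y : Matrix I I ℂ} (hy : IsG D y) (hx : gS y x = t) : π (f x) = 0 := by
  have h1 := DM_zero a1 a2 hπ hnd hg hlim hf h0
  rw [← hx, DM_gS a2 a1 hf _ _ hy, hπ _ _ hy] at h1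
  obtain ⟨-, -, h2⟩ := a1.G_inv D y hy
  have h3 := congrArg (gT y⁻¹) h1
  rw [← a1.gT_mul, h2, a1.gT_one] at h3
  rw [h3]
  have h := a1.gT_smul y⁻¹ 0 (0 : Ten I c)
  rw [zero_smul, zero_smul] at h
  exact h

include a2 in
/-- the projection of the direction is zero -/
theorem dir_zero (H : HM D) (hvol : VolStatement) (hpha : PhaStatement)
    (havg : AvgStatement) {s : Tup I len} (hmin : Minimal D s) (hs : ‖emb s‖ ≠ 0)
    {ν : Tup I len} (hν : ν ∈ sli a1 D s) (hνs : hS ν s = 0)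
    (π : ∀ i, Ten I (len i) →ₗ[ℂ] Ten I (len i)) (L : Tup I len →ₗ[ℂ] Tup I len)
    (hL : ∀ d : ℕ, L (PS π (avS H a1 s d s)) = fderiv ℂ (fun x => PS π (avS H a1 s d x)) s ν) :
    PS π ν = 0 := by
  obtain ⟨p, hp⟩ := peak H a1 hvol hpha hmin hs
  have hs0 : 0 < ‖emb s‖ ^ 2 := by positivity
  have hre : ∀ k, 1 - (ph H s s k).re = dl H s k ^ 2 / (2 * ‖emb s‖ ^ 2) := by
    intro k
    rw [one_sub_ph H a1 hs rfl, ← dl_eq, dl_inv H a1]
  have hdl : ∀ k, 0 ≤ dl H s k := fun k => by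
    rw [dl_eq]
    exact norm_nonneg _
  refine hp.eq_zero (F := fun k => PC π (gS (H.mat k) (pr a1 D s (gS (H.mat k⁻¹) ν))))
    (G := fun k => PC π (gS (H.mat k) (pr a1 D s (gS (H.mat k⁻¹) s - s)))) (χ := ph H ν s)
    ((PC π).continuous.comp (cont_F H a1 s ν)) ((PC π).continuous.comp (cont_G H a1 s))
    (ph_cont H a1 ν s) ?_ (C := 2 * ‖emb ν‖ ^ 2 / ‖emb s‖ ^ 2) ?_ ?_ L ?_
  · intro k hk
    exact congrArg (PC π) (F_val H a1 s ν hν k (ph_eq_one H a1 hs rfl hk))
  · intro k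
    have h1 : ‖ph H ν s k‖ ≤ ‖emb ν‖ * dl H s k / ‖emb s‖ ^ 2 := by
      unfold ph
      rw [norm_div, Complex.norm_real, Real.norm_eq_abs, abs_of_pos hs0]
      gcongr
      have h2 : hS (gS (H.mat k⁻¹) ν) s = hS ν (gS (H.mat k) s - s) := by
        rw [hS_sub_right, hνs, sub_zero, ← hS_gS H a1 k, gS_inv H a1]
      rw [h2, dl_eq, ← emb_sub]
      exact norm_hS_le _ _
    calc ‖ph H ν s k‖ ^ 2 ≤ (‖emb ν‖ * dl H s k / ‖emb s‖ ^ 2) ^ 2 := by gcongr
      _ = 2 * ‖emb ν‖ ^ 2 / ‖emb s‖ ^ 2 * (1 - (ph H s s k).re) := by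
          rw [hre]
          field_simp
  · intro e₀ he₀
    set e : ℝ := e₀ / (‖PC π‖ ^ 2 + 1) with hedef
    have he : 0 < e := by positivity
    set ε : ℝ := Real.sqrt (e / (2 * ‖emb s‖ ^ 2)) with hε
    have hε0 : 0 < ε := Real.sqrt_pos.2 (by positivity)
    have hε2 : ε ^ 2 = e / (2 * ‖emb s‖ ^ 2) := Real.sq_sqrt (by positivity)
    obtain ⟨η, hη, h1⟩ := (hpha H s).2 ε hε0
    refine ⟨η ^ 2 / (2 * ‖emb s‖ ^ 2), by positivity, ?_⟩
    intro k hk
    rw [hre, div_lt_div_iff_of_pos_right (by positivity)] at hk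
    have h2 : dl H s k < η := lt_of_pow_lt_pow_left₀ 2 hη.le hk
    set y : Tup I len := gS (H.mat k⁻¹) s - s with hy
    have h3 := h1 k⁻¹ (by rw [dl_inv H a1]; exact h2) (pr a1 D s y)
      ((mem_sli a1 D s).1 (pr_mem a1 D s y))
    rw [← hy, hS_pr, dl_inv H a1, hS_self, Complex.ofReal_re, Real.sqrt_sq (norm_nonneg _),
      Complex.norm_real, Real.norm_eq_abs, abs_of_nonneg (by positivity)] at h3
    have h4 : ‖emb (pr a1 D s y)‖ ≤ ε * dl H s k := by
      rcases (norm_nonneg (emb (pr a1 D s y))).eq_or_lt with h0 | h0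
      · rw [← h0]
        exact mul_nonneg hε0.le (hdl k)
      · refine le_of_mul_le_mul_right ?_ h0
        calc ‖emb (pr a1 D s y)‖ * ‖emb (pr a1 D s y)‖ = ‖emb (pr a1 D s y)‖ ^ 2 := by ring
          _ ≤ ε * ‖emb (pr a1 D s y)‖ * dl H s k := h3
          _ = ε * dl H s k * ‖emb (pr a1 D s y)‖ := by ring
    have h5 : ‖gS (H.mat k) (pr a1 D s y)‖ ≤ ε * dl H s k :=
      ((norm_le_emb _).trans_eq (norm_gS H a1 k _)).trans h4
    have h6 : ‖PC π (gS (H.mat k) (pr a1 D s y))‖ ≤ ‖PC π‖ * (ε * dl H s k) :=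
      ((PC π).le_opNorm _).trans (mul_le_mul_of_nonneg_left h5 (norm_nonneg _))
    have h7 : 0 ≤ 1 - (ph H s s k).re := by
      rw [hre]
      positivity
    have h8 : ‖PC π‖ ^ 2 * e ≤ e₀ := by
      rw [hedef]
      calc ‖PC π‖ ^ 2 * (e₀ / (‖PC π‖ ^ 2 + 1))
          ≤ (‖PC π‖ ^ 2 + 1) * (e₀ / (‖PC π‖ ^ 2 + 1)) := by
            gcongr
            linarith
        _ = e₀ := by field_simp
    calc ‖PC π (gS (H.mat k) (pr a1 D s y))‖ ^ 2 ≤ (‖PC π‖ * (ε * dl H s k)) ^ 2 := by gcongr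
      _ = ‖PC π‖ ^ 2 * e * (1 - (ph H s s k).re) := by
          rw [hre, mul_pow, mul_pow, hε2]
          field_simp
      _ ≤ e₀ * (1 - (ph H s s k).re) := mul_le_mul_of_nonneg_right h8 h7
  · intro d
    have hcG : Continuous fun k : H.K => ph H s s k ^ d •
        gS (H.mat k) (pr a1 D s (gS (H.mat k⁻¹) s - s)) :=
      ((ph_cont H a1 s s).pow d).smul (cont_G H a1 s)
    have hcF : Continuous fun k : H.K => ((d : ℂ) * ph H s s k ^ (d - 1) * ph H ν s k) •
        gS (H.mat k) (pr a1 D s (gS (H.mat k⁻¹) s - s)) +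
        ph H s s k ^ d • gS (H.mat k) (pr a1 D s (gS (H.mat k⁻¹) ν)) :=
      (((continuous_const.mul ((ph_cont H a1 s s).pow (d - 1))).mul
        (ph_cont H a1 ν s)).smul (cont_G H a1 s)).add
        (((ph_cont H a1 s s).pow d).smul (cont_F H a1 s ν))
    have e1 : (∫ k, ph H s s k ^ d • PC π (gS (H.mat k) (pr a1 D s (gS (H.mat k⁻¹) s - s))) ∂H.μ)
        = PS π (avS H a1 s d s) := by
      rw [avS_val H a1, ← PC_apply, ← ContinuousLinearMap.integral_comp_comm (PC π)
        (int_cont H (W := Tup I len) hcG)]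
      refine integral_congr_ae (Eventually.of_forall fun k => ?_)
      show _ = PC π _
      rw [map_smul]
    have e2 : (∫ k, (((d : ℂ) * ph H s s k ^ (d - 1) * ph H ν s k) •
        PC π (gS (H.mat k) (pr a1 D s (gS (H.mat k⁻¹) s - s))) +
        ph H s s k ^ d • PC π (gS (H.mat k) (pr a1 D s (gS (H.mat k⁻¹) ν)))) ∂H.μ)
        = PS π (fderiv ℂ (avS H a1 s d) s ν) := by
      rw [avS_deriv H a1 a2 havg, ← PC_apply, ← ContinuousLinearMap.integral_comp_comm (PC π)
        (int_cont H (W := Tup I len) hcF)]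
      refine integral_congr_ae (Eventually.of_forall fun k => ?_)
      show _ = PC π _
      rw [map_add, map_smul, map_smul]
    have hdiff : Differentiable ℂ (avS H a1 s d) := by
      rw [differentiable_pi]
      exact fun i => DM_diff a2 (avS_mem H a1 havg s d i)
    have e3 : fderiv ℂ (fun x => PS π (avS H a1 s d x)) s ν =
        PS π (fderiv ℂ (avS H a1 s d) s ν) := by
      have h := ((PC π).hasFDerivAt.comp s (hdiff s).hasFDerivAt).fderiv
      have h' : fderiv ℂ (fun x => PS π (avS H a1 s d x)) s =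
          (PC π).comp (fderiv ℂ (avS H a1 s d) s) := h
      rw [h']
      rfl
    rw [e1, e2, hL d, e3]

end CloPi

open CloT L12 CloPi in
/-- The orbit is closed, form with projectors. -/
theorem cloPi (a1 : Alg1) (a2 : Alg2) (hvol : VolStatement) (hpha : PhaStatement)
    (havg : AvgStatement) {I Λ ι : Type} [Fintype I] [DecidableEq I] [DecidableEq Λ] [Fintype ι]
    {len : ι → ℕ} {D : Dat I Λ} (H : HM D) (π : ∀ i, Ten I (len i) →ₗ[ℂ] Ten I (len i))
    (hπ : ∀ i g u, IsG D g → π i (gT g u) = gT g (π i u)) (t s : Tup I len)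
    (ht : ∀ i, π i (t i) = t i) (hnd : ∀ i, NdPi D t (π i)) (hs : hS s s ≠ 0)
    (hmin : Minimal D s) (g : ℕ → Matrix I I ℂ) (hg : ∀ j, IsG D (g j))
    (hlim : Tendsto (fun j => gS (g j) t) atTop (𝓝 s)) : ∃ g, IsG D g ∧ gS g s = t := by
  have hs1 : ‖emb s‖ ≠ 0 := by
    intro h0
    rw [hS_self, h0] at hs
    simp at hs
  by_contra hcon
  set Orb : Set (Tup I len) := {x | ∃ y, IsG D y ∧ gS y x = t} with hOrb
  have hsO : s ∉ Orb := hcon
  have hcl : s ∈ closure Orb := by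
    refine mem_closure_of_tendsto hlim (Eventually.of_forall fun j => ?_)
    obtain ⟨h1, -, h2⟩ := a1.G_inv D (g j) (hg j)
    refine ⟨(g j)⁻¹, h1, ?_⟩
    rw [← L12.gS_mul a1, h2, gS_one a1]
  have hexp : ∀ A ∈ lie (len := len) a1 D, ∀ x, NormedSpace.exp A x ∈ Orb → x ∈ Orb := by
    rintro _ ⟨A, hA, rfl⟩ x ⟨y, hy, h1⟩
    rw [exp_aC, ← L12.gS_mul a1] at h1
    exact ⟨y * NormedSpace.exp A, a1.G_mul D _ _ hy (a1.G_exp D A hA), h1⟩
  have hN : ∀ x : Tup I len, ∃ A ∈ lie (len := len) a1 D, ∃ n ∈ sli a1 D s, x = A s + n := by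
    intro x
    obtain ⟨A, hA, e⟩ := exists_lie a1 D s x
    exact ⟨aC a1 A, ⟨A, hA, rfl⟩, pr a1 D s x, pr_mem a1 D s x, e⟩
  obtain ⟨ν, hν, hν0, hder⟩ := CloAux.exists_direction (lie a1 D) (sli a1 D s) s hN Orb hexp hcl hsO
  -- invariants are constant on the orbit
  have hinv : ∀ f ∈ DM D len 0, ∀ x ∈ Orb, f x = f s := by
    intro f hf
    have h1 : ∀ x y, IsG D y → f (gS y x) = f x := fun x y hy => by
      rw [DM_gS a2 a1 hf _ _ hy, L12.gT_zero_len]
    have h2 : f s = f t := by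
      have h3 : Tendsto (fun j => f (gS (g j) t)) atTop (𝓝 (f s)) :=
        ((DM_diff a2 hf).continuous.tendsto s).comp hlim
      simp only [h1 _ _ (hg _)] at h3
      exact tendsto_nhds_unique h3 tendsto_const_nhds
    rintro x ⟨y, hy, hx⟩
    rw [h2, ← hx, h1 x y hy]
  have hperp : hS ν s = 0 := perp a1 H a2 hvol hpha havg hmin hs1 fun f hf =>
    hder (Ten I 0) f (DM_diff a2 hf s) (hinv f hf)
  have hdF : ∀ f ∈ FF D len, Differentiable ℂ f := by
    intro f hf
    rw [differentiable_pi]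
    exact fun i => DM_diff a2 (hf i)
  -- the points of the orbit and `s` are fixed by the projector
  have hPg : ∀ (y : Matrix I I ℂ) (x : Tup I len), IsG D y → PS π (gS y x) = gS y (PS π x) := by
    intro y x hy
    funext i
    exact hπ i y (x i) hy
  have hPt : PS π t = t := funext ht
  have hPO : ∀ x ∈ Orb, PS π x = x := by
    rintro x ⟨y, hy, hx⟩
    have h1 : x = gS y⁻¹ t := (XY.inv_gS a1 hy hx).symm
    rw [h1, hPg _ _ (a1.G_inv D y hy).1, hPt]
  have hPs : PS π s = s := by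
    have h1 : Tendsto (fun j => PC π (gS (g j) t)) atTop (𝓝 (PC π s)) :=
      ((PC π).continuous.tendsto s).comp hlim
    have h2 : (fun j => PC π (gS (g j) t)) = fun j => gS (g j) t := by
      funext j
      rw [PC_apply, hPg _ _ (hg j), hPt]
    rw [h2] at h1
    exact tendsto_nhds_unique h1 hlim
  have hPν : PS π ν = ν := by
    have h1 := hder (Tup I len) (fun x => x - PC π x)
      (differentiableAt_id.sub (PC π).differentiableAt) (fun x hx => by
        show x - PC π x = s - PC π s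
        rw [PC_apply, PC_apply, hPO x hx, hPs, sub_self, sub_self])
    have h2 : fderiv ℂ (fun x : Tup I len => x - PC π x) s =
        ContinuousLinearMap.id ℂ _ - PC π :=
      ((hasFDerivAt_id s).sub (PC π).hasFDerivAt).fderiv
    rw [h2] at h1
    have h3 : ν - PS π ν = 0 := h1
    exact (sub_eq_zero.1 h3).symm
  set FP : Submodule ℂ (Tup I len → Tup I len) :=
    { carrier := {f | ∃ f₀ ∈ FF D len, f = fun x => PS π (f₀ x)}
      zero_mem' := ⟨0, Submodule.zero_mem _, by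
        funext x
        exact (map_zero (PS π)).symm⟩
      add_mem' := by
        rintro _ _ ⟨f₀, hf₀, rfl⟩ ⟨f₁, hf₁, rfl⟩
        refine ⟨f₀ + f₁, Submodule.add_mem _ hf₀ hf₁, ?_⟩
        funext x
        exact (map_add (PS π) _ _).symm
      smul_mem' := by
        rintro c _ ⟨f₀, hf₀, rfl⟩
        refine ⟨c • f₀, Submodule.smul_mem _ c hf₀, ?_⟩
        funext x
        exact (map_smul (PS π) _ _).symm } with hFP
  have hdP : ∀ f ∈ FP, DifferentiableAt ℂ f s := by
    rintro _ ⟨f₀, hf₀, rfl⟩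
    exact (PC π).differentiableAt.comp s (hdF f₀ hf₀ s)
  obtain ⟨L, hL⟩ := CloAux.exists_linear FP (s := s) (ν := ν) hdP (by
    intro f hf h0
    obtain ⟨f₀, hf₀, rfl⟩ := id hf
    refine hder (Tup I len) _ (hdP _ hf) ?_
    rintro x ⟨y, hy, hx⟩
    refine Eq.trans ?_ (Eq.symm h0)
    funext i
    exact CloPi.DM_zero_orb a1 a2 (hπ i) (hnd i) hg hlim (hf₀ i) (congrFun h0 i) hy hx)
  have hz := CloPi.dir_zero a1 a2 H hvol hpha havg hmin hs1 hν hperp π L fun d =>
    hL _ ⟨avS H a1 s d, avS_mem H a1 havg s d, rfl⟩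
  rw [hPν] at hz
  exact hν0 hz

end Pool.Agent.Lib.MP_361a6f_ag.FL
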