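import Pool.Agent.Lib.MP_361a6f_ag.FL.A.Cmp3

/-!
# Row CMP: comparison of the forms on antisymmetric tensors and on the exterior algebra
-/

open CategoryTheory AlgebraicGeometry MonoidalCategory CartesianMonoidalCategory

universe u v w

set_option autoImplicit false
set_option linter.unusedSectionVars false

namespace Pool.Agent.Lib.MP_361a6f_ag.FL

open Pool.Agent.Lib.MP_361a6f_ag.H3 Pool.Agent.Lib.MP_361a6f_ag.SQ
  Pool.Agent.Lib.MP_361a6f_ag.PP

namespace CMP

noncomputable section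

variable {k : Type u} [Field k] {m : ℕ} {W : CohomologyData.{u, 0, w} k ℂ} {𝒱 : VarietyClass k}
  {H : Host W 𝒱 m} {a : Fin m}

variable (H a) in
/-- the form on the exterior algebra, as a real bilinear form on tensors -/
def bX (L : ℕ) : Ten H.I L →ₗ[ℝ] Ten H.I L →ₗ[ℝ] ℂ :=
  LinearMap.mk₂ ℝ (fun u v => H.psiL a (mulL H a L u) (mulL H a L v))
    (fun u u' v => by rw [map_add, psiL_add_left])
    (fun c u v => by rw [Qps.real_smul, map_smul, psiL_smul_left, Complex.real_smul])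
    (fun u v v' => by rw [map_add, psiL_add_right])
    (fun c u v => by rw [Qps.real_smul, map_smul, psiL_smul_right, Complex.real_smul])

/-- real part of a form on a subspace -/
def reB {M : Type*} [AddCommGroup M] [Module ℝ M] (b : M →ₗ[ℝ] M →ₗ[ℝ] ℂ) (S : Submodule ℝ M) :
    S →ₗ[ℝ] S →ₗ[ℝ] ℝ :=
  LinearMap.mk₂ ℝ (fun x y => (b x y).re)
    (fun x x' y => by simp) (fun c x y => by simp) (fun x y y' => by simp)
    (fun c x y => by simp)

section main

variable (a1 : Alg1) (ge : H.GeFacts) (hA : H.AtFacts) (mf : H.MulFacts)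
  (ext : ExtFacts W (H.X a))
  (pos : ∀ z ∈ tot W (H.X a), z ≠ 0 → RatPos (H.psiL a z z))
  {J : W.coh (H.X a) →ₛₗ[starRingEnd ℂ] W.coh (H.X a)} (hJ : JX H a1 a J)

include mf ext pos in
theorem posE {L : ℕ} {u : Ten H.I L} (hu : H.AntiAt a u) (h0 : u ≠ 0) :
    RatPos (H.psiL a (H.mul a u) (H.mul a u)) :=
  pos _ (mf.mul_mem a L u hu.mem) (mul_ne ext hu.on hu.anti h0)

include hA mf ext pos in
theorem posR {L : ℕ} {u : Ten H.I L} (hu : u ∈ SR H a L) (h0 : u ≠ 0) :
    ∃ r : ℝ, 0 < r ∧ H.psiL a (H.mul a u) (H.mul a u) = (r : ℂ) := by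
  let E : AddSubgroup (Ten H.I L) :=
    { carrier := {u | H.AntiAt a u}
      add_mem' := fun hu hv => AntiAt.add hu hv
      zero_mem' := AntiAt.zero
      neg_mem' := fun {u} hu => by
        have h := AntiAt.smul hA hu (-1)
        have e : ((-1 : ℚ) : ℂ) • u = -u := by push_cast; rw [neg_one_smul]
        rwa [e] at h }
  refine GPOS.pos_span (bX H a L) E ?_ ?_ hu h0
  · intro q x hx
    change H.AntiAt a ((q : ℝ) • x)
    rw [Qps.real_smul]
    exact AntiAt.smul hA hx q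
  · intro x hx hx0
    exact posE mf ext pos hx hx0

include a1 ge hA mf ext pos hJ in
/-- positivity of `ψ` on antisymmetric algebraic tensors -/
theorem pos_re {L : ℕ} (hL : 0 < L) {u : Ten H.I L} (hu : H.AntiAt a u) (h0 : u ≠ 0) :
    0 < (psiT H.D u u).re := by
  have good : ∀ x : SR H a L, Good H a (x : Ten H.I L) := fun x => good_of_mem a1 hA mf x.2
  let N : SR H a L →ₗ[ℝ] SR H a L :=
    { toFun := fun x => ⟨NL H a L x, NL_mem ext mf hL x.2⟩
      map_add' := fun x y => Subtype.ext (map_add (NL H a L) (x : Ten H.I L) y)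
      map_smul' := fun c x => Subtype.ext (by
        change NL H a L ((c • x : SR H a L) : Ten H.I L) = c • NL H a L x
        rw [Submodule.coe_smul, Qps.real_smul, map_smul, ← Qps.real_smul]) }
  have hNv : ∀ x, ((N x : SR H a L) : Ten H.I L) = NL H a L x := fun _ => rfl
  let B := reB (bX H a L) (SR H a L)
  let C := reB (GPOS.psiR H.D L) (SR H a L)
  have hBv : ∀ x y, B x y = (H.psiL a (H.mul a (x : Ten H.I L)) (H.mul a (y : Ten H.I L))).re :=
    fun _ _ => rfl
  have hCv : ∀ x y, C x y = (psiT H.D (x : Ten H.I L) (y : Ten H.I L)).re := fun _ _ => rfl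
  have hB : ∀ x y, B x y = B y x := by
    intro x y
    rw [hBv, hBv, symX a1 ge (good x) (good y)]
  have hCs : ∀ x y, C x y = C y x := by
    intro x y
    rw [hCv, hCv, symT a1 (good x) (good y)]
  have hC' : ∀ x y, C x (N y) = B x y := by
    intro x y
    rw [hCv, hBv, hNv, psiT_NL mf (good x).sup]
  have hC : ∀ x y, C (N x) y = B x y := by
    intro x y
    rw [hCs, hC', hB]
  have hN : ∀ x y, B (N x) y = B x (N y) := by
    intro x y
    rw [hB (N x) y, ← hC y (N x), ← hC x (N y), hCs]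
  have hpos : ∀ x, x ≠ 0 → 0 < B x x := by
    intro x hx
    have hx' : (x : Ten H.I L) ≠ 0 := fun h => hx (Subtype.ext h)
    obtain ⟨r, hr, hr'⟩ := posR hA mf ext pos x.2 hx'
    rw [hBv, hr', Complex.ofReal_re]
    exact hr
  have hev : ∀ (x : SR H a L) (c : ℝ), x ≠ 0 → N x = c • x → 0 < c := by
    intro x c hx hc
    have hx' : (x : Ten H.I L) ≠ 0 := fun h => hx (Subtype.ext h)
    have hg := good x
    obtain ⟨y, hy⟩ : ∃ y : Ten H.I L, y = jT H.D (x : Ten H.I L) := ⟨_, rfl⟩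
    have hys : Sup H a y := by rw [hy]; exact sup_jT H hg.sup
    have hJz : J (H.mul a (x : Ten H.I L)) = H.mul a y := by
      rw [hy]; exact J_mul H a1 hJ ge hg.sup
    have hJJ : J (H.mul a y) = H.mul a (x : Ten H.I L) := by
      rw [J_mul H a1 hJ ge hys, hy, hg.jj]
    have hz0 : H.mul a (x : Ten H.I L) ≠ 0 := mul_ne ext hg.sup hg.anti hx'
    have hy0 : H.mul a y ≠ 0 := by
      intro h
      apply hz0
      rw [← hJJ, h, map_zero]
    obtain ⟨r, hr, hr'⟩ := hJ.rs.pos (H.mul a y) hy0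
    rw [hJJ] at hr'
    have h1 : H.psiL a (H.mul a y) (H.mul a (x : Ten H.I L)) = (r : ℂ) := hr'
    rw [← psiT_NL mf hys] at h1
    have h2 : NL H a L (x : Ten H.I L) = (c : ℂ) • (x : Ten H.I L) := by
      rw [← hNv, hc, Submodule.coe_smul, Qps.real_smul]
    have h3 : psiT H.D y (x : Ten H.I L) = ((∑ w, ‖y w‖ ^ 2 : ℝ) : ℂ) := by
      have h4 : (x : Ten H.I L) = jT H.D y := by rw [hy, hg.jj]
      rw [h4, a1.psiT_jT, a1.hT_self]
    have h5 : psiT H.D y ((c : ℂ) • (x : Ten H.I L)) = (c : ℂ) * psiT H.D y (x : Ten H.I L) := by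
      rw [← Qps.psiL_apply, map_smul, Qps.psiL_apply, smul_eq_mul]
    rw [h2, h5, h3] at h1
    have h6 : c * ∑ w, ‖y w‖ ^ 2 = r := by exact_mod_cast h1
    have h7 : 0 ≤ ∑ w, ‖y w‖ ^ 2 := Finset.sum_nonneg fun w _ => by positivity
    by_contra hc0
    rw [not_lt] at hc0
    have h8 := mul_nonpos_of_nonpos_of_nonneg hc0 h7
    rw [h6] at h8
    exact absurd hr (not_lt.2 h8)
  have hmem : u ∈ SR H a L := Submodule.subset_span hu
  have key := spectral_pos B C N hB hpos hN hC hev ⟨u, hmem⟩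
    (fun h => h0 (congrArg Subtype.val h))
  exact key

theorem ratPos_of {x : ℂ} {q : ℚ} (h : x = (q : ℂ)) (h0 : 0 < x.re) : RatPos x := by
  refine ⟨q, ?_, h⟩
  rw [h] at h0
  have : ((q : ℂ)).re = (q : ℝ) := Complex.ratCast_re q
  rw [this] at h0
  exact_mod_cast h0

include a1 ge hA mf ext pos hJ in
theorem pos_all (L : ℕ) (u : Ten H.I L) (hu : H.AntiAt a u) (h0 : u ≠ 0) :
    RatPos (psiT H.D u u) := by
  obtain ⟨q, hq⟩ := Qps.psi_rat (aSys_at hA) hu.mem hu.mem
  rcases Nat.eq_zero_or_pos L with rfl | hL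
  · obtain ⟨r, hr⟩ := (hA.zero u).1 hu.mem
    have hr0 : r ≠ 0 := by
      rintro rfl
      apply h0
      rw [hr]
      funext w
      simp
    refine ⟨r * r, mul_self_pos.2 hr0, ?_⟩
    rw [hr]
    unfold psiT
    rw [Fintype.sum_unique]
    simp [sg]
  · exact ratPos_of hq (pos_re a1 ge hA mf ext pos hJ hL hu h0)

/-! ### surjectivity -/

theorem mon_gr {L : ℕ} {w : Fin L → H.I} (hw : H.On1 a w) : H.mon a w ∈ W.gr (H.X a) L := by
  have key : ∀ (L : ℕ) (v : Fin L → W.coh (H.X a)), (∀ i, v i ∈ W.gr (H.X a) 1) →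
      (List.ofFn v).prod ∈ W.gr (H.X a) L := by
    intro L
    induction L with
    | zero =>
      intro v _
      rw [List.ofFn_zero, List.prod_nil]
      exact H.hW.one_gr (H.mem a)
    | succ L ih =>
      intro v hv
      rw [List.ofFn_succ, List.prod_cons]
      have h := H.hW.mul_gr (H.mem a) (hv 0) (ih (fun i => v i.succ) fun i => hv _)
      rwa [add_comm] at h
  refine key L _ fun i => ?_
  have h := H.e_gr a (w i)
  rw [hw i] at h
  exact h

theorem mul_gr {L : ℕ} {u : Ten H.I L} (hu : Sup H a u) : H.mul a u ∈ W.gr (H.X a) L := by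
  refine Submodule.sum_mem _ fun w _ => ?_
  by_cases hw : H.On1 a w
  · exact Submodule.smul_mem _ _ (mon_gr hw)
  · rw [hu w hw, zero_smul]
    exact zero_mem _

include ge in
/-- a class of degree `1` in the basis -/
theorem expand_one {v : W.coh (H.X a)} (hv : v ∈ W.gr (H.X a) 1) :
    ∃ c : H.I → ℂ, (∀ x, H.D.typ x ≠ (a, 1) → c x = 0) ∧ v = ∑ x, c x • H.e a x := by
  refine ⟨fun x => tcA H a v fun _ => x, fun x hx => ?_, ?_⟩
  · by_cases h : (H.D.typ x).1 = a
    · refine tcA_gr H ge hv _ ?_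
      intro h2
      apply hx
      rw [Fin.sum_univ_one] at h2
      exact Prod.ext h h2
    · exact tcA_off H ge v _ h
  · have h := tcA_expand H ge v
    rw [← Equiv.sum_comp (Equiv.funUnique (Fin 1) H.I).symm] at h
    exact h

include ge in
theorem exists_tensor {L : ℕ} {v : Fin L → W.coh (H.X a)} (hv : ∀ i, v i ∈ W.gr (H.X a) 1) :
    ∃ u : Ten H.I L, Sup H a u ∧ H.mul a u = (List.ofFn v).prod := by
  choose c hc hc' using fun i => expand_one ge (hv i)
  refine ⟨fun w => ∏ i, c i (w i), fun w hw => ?_, ?_⟩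
  · unfold Host.On1 at hw
    push Not at hw
    obtain ⟨i, hi⟩ := hw
    exact Finset.prod_eq_zero (Finset.mem_univ i) (hc i _ hi)
  · have h : (List.ofFn v).prod = (List.ofFn fun i => ∑ x, c i x • H.e a x).prod := by
      congr 2
      funext i
      exact hc' i
    rw [h, prod_sum]
    rfl

include a1 ge mf ext in
/-- an element of even degree whose adjoint tensor vanishes is zero -/
theorem eq_zero_of_prj {l : ℕ} {d : W.coh (H.X a)} (hd : d ∈ W.gr (H.X a) (2 * l))
    (h : H.prj a (H.mul' a (2 * l) d) = 0) : d = 0 := by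
  have h1 : ∀ y ∈ W.gr (H.X a) (2 * l), H.psiL a y d = 0 := by
    intro y hy
    have h2 := ext.span _ y hy
    clear hy
    induction h2 using Submodule.span_induction with
    | mem y hy =>
      obtain ⟨v, hv, rfl⟩ := hy
      obtain ⟨u, hu, hu'⟩ := exists_tensor ge hv
      rw [← hu', ← mf.adj, ← psiT_prj H hu, h]
      rw [← Qps.psiL_apply, map_zero]
    | zero => exact Ge.psiP_zero_left H (.leaf a) d
    | add y z _ _ hy hz => rw [psiL_add_left, hy, hz, add_zero]
    | smul c y _ hy => rw [psiL_smul_left, hy, mul_zero]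
  have h3 := h1 _ (GJ.J_gr H a1 (a1.G_one H.D) ge staB (.leaf a) (2 * l) d hd)
  change H.psiL a (j0 H a1 a d) d = 0 at h3
  rw [← tcA_psi H ge, tcA_j0 H a1 ge] at h3
  obtain ⟨t, ht⟩ : ∃ t : Ten H.I 1, t = tcA H a d := ⟨_, rfl⟩
  have hjj : jT H.D (jT H.D t) = t := by
    funext w
    rw [GO.jT_jT_apply]
    by_cases hw : ∑ i, (H.D.typ (w i)).2 = 2 * l
    · rw [hw, pow_mul, neg_one_sq, one_pow, one_mul]
    · rw [ht, tcA_gr H ge hd w hw, mul_zero]
  rw [← ht] at h3
  have h4 : psiT H.D (jT H.D t) t = hT (jT H.D t) (jT H.D t) := by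
    conv_lhs => rw [← hjj]
    rw [a1.psiT_jT, hjj]
  rw [h4, a1.hT_self] at h3
  have h5 : ∑ w, ‖jT H.D t w‖ ^ 2 = 0 := by exact_mod_cast h3
  have h6 : jT H.D t = 0 := by
    funext w
    have h7 := (Finset.sum_eq_zero_iff_of_nonneg (fun w _ => by positivity)).1 h5 w
      (Finset.mem_univ w)
    have h8 : ‖jT H.D t w‖ = 0 := by
      exact pow_eq_zero_iff (two_ne_zero) |>.1 h7
    exact norm_eq_zero.1 h8
  have h9 : t = 0 := by
    rw [← hjj, h6]
    funext w
    simp [jT]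
  refine tcA_inj H ge ?_
  rw [← ht, h9, map_zero]

include a1 ge hA mf ext pos in
theorem surj_all (hp1 : RatPos (H.psiL a 1 1)) (l : ℕ) (z : W.coh (H.X a))
    (hz : z ∈ W.alg (H.X a) l) : ∃ u : Ten H.I (2 * l), H.AntiAt a u ∧ H.mul a u = z := by
  have hzt : z ∈ tot W (H.X a) := alg_le_tot H.hW _ l hz
  have hzg : z ∈ W.gr (H.X a) (2 * l) := H.hW.alg_gr (H.mem a) hz
  rcases Nat.eq_zero_or_pos l with rfl | hl
  · obtain ⟨c, hc⟩ := ext.zero z hzg
    obtain ⟨q, hq⟩ := Qps.psi_rat (aSys_at hA) (tcA_mem H hzt)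
      (tcA_mem H (a := a) (one_tot H.hW (H.mem a)))
    rw [tcA_psi H ge, hc, psiL_smul_left] at hq
    obtain ⟨q0, hq0, hq0'⟩ := hp1
    rw [hq0'] at hq
    have hne : (q0 : ℂ) ≠ 0 := by exact_mod_cast hq0.ne'
    have hc' : c = ((q / q0 : ℚ) : ℂ) := by
      push_cast
      rw [← hq]
      field_simp
    refine ⟨fun _ => c, ⟨?_, fun w hw => ?_, fun σ w => ?_⟩, ?_⟩
    · exact (hA.zero _).2 ⟨q / q0, by rw [hc']⟩
    · exact absurd (fun i : Fin (2 * 0) => i.elim0) hw
    · have h1 : σ = 1 := Subsingleton.elim (α := Equiv.Perm (Fin 0)) σ 1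
      rw [h1]
      simp
    · have h1 : H.mul a (L := 2 * 0) (fun _ => c) = ∑ _ : Fin 0 → H.I, c • (1 : W.coh (H.X a)) :=
        rfl
      rw [h1, Fintype.sum_unique, hc]
  · have hL : 0 < 2 * l := by omega
    let N : EQ H a hA (2 * l) →ₗ[ℚ] EQ H a hA (2 * l) :=
      { toFun := fun x => ⟨NL H a (2 * l) x, antiAt_NL ext mf hL x.2⟩
        map_add' := fun x y => Subtype.ext (map_add (NL H a (2 * l)) (x : Ten H.I (2 * l)) y)
        map_smul' := fun c x => Subtype.ext (by
          change NL H a (2 * l) ((c • x : EQ H a hA (2 * l)) : Ten H.I (2 * l))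
            = c • NL H a (2 * l) x
          rw [Submodule.coe_smul, rat_smul, map_smul, ← rat_smul]) }
    have hNv : ∀ x, ((N x : EQ H a hA (2 * l)) : Ten H.I (2 * l)) = NL H a (2 * l) x :=
      fun _ => rfl
    have hbv : ∀ x y : Ten H.I (2 * l), Sup H a x →
        bX H a (2 * l) x y = psiT H.D x (NL H a (2 * l) y) := by
      intro x y hx
      rw [psiT_NL mf hx]
      rfl
    have hrat : ∀ x ∈ EQ H a hA (2 * l), ∀ y ∈ EQ H a hA (2 * l),
        ∃ q : ℚ, bX H a (2 * l) x y = (q : ℂ) := by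
      intro x hx y hy
      have hx' : H.AntiAt a x := hx
      have hy' : H.AntiAt a y := hy
      rw [hbv x y hx'.on]
      exact Qps.psi_rat (aSys_at hA) hx'.mem (antiAt_NL ext mf hL hy').mem
    have hne : ∀ x ∈ EQ H a hA (2 * l), x ≠ 0 → bX H a (2 * l) x x ≠ 0 := by
      intro x hx hx0
      have hx' : H.AntiAt a x := hx
      obtain ⟨q, hq, hq'⟩ := posE mf ext pos hx' hx0
      have h1 : bX H a (2 * l) x x = (q : ℂ) := hq'
      rw [h1]
      exact_mod_cast hq.ne'
    have hN0 : ∀ x, N x = 0 → x = 0 := by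
      intro x hx
      by_contra hx0
      have hx0' : (x : Ten H.I (2 * l)) ≠ 0 := fun h => hx0 (Subtype.ext h)
      have hx' : H.AntiAt a (x : Ten H.I (2 * l)) := x.2
      apply hne x x.2 hx0'
      rw [hbv _ _ hx'.on, ← hNv, hx]
      rw [← Qps.psiL_apply]
      exact map_zero _
    obtain ⟨x, hx⟩ := surj_rat (EQ H a hA (2 * l)) (bX H a (2 * l)) hrat hne N hN0
      ⟨H.prj a (H.mul' a (2 * l) z), antiAt_prj ext mf hL hzt⟩
    have hx' : H.AntiAt a (x : Ten H.I (2 * l)) := x.2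
    refine ⟨x, hx', ?_⟩
    have h1 : NL H a (2 * l) x = H.prj a (H.mul' a (2 * l) z) := by
      rw [← hNv, hx]
    rw [← sub_eq_zero]
    refine eq_zero_of_prj a1 ge mf ext (l := l) (sub_mem (mul_gr hx'.on) hzg) ?_
    have h2 : H.prj a (H.mul' a (2 * l) (H.mul a (x : Ten H.I (2 * l)) - z))
        = H.prj a (H.mul' a (2 * l) (H.mul a (x : Ten H.I (2 * l))))
          - H.prj a (H.mul' a (2 * l) z) :=
      map_sub (prjL H a (2 * l) ∘ₗ mulL' H a (2 * l)) _ _
    rw [h2, ← h1, NL_apply, sub_self]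

end main

end

end CMP

/-- Row CMP. -/
theorem cmp (hr : HrStatement.{u, w}) (hm : MulStatement.{u, w}) (hpsi : PsiStatement.{u, w})
    (hAt : AtStatement.{u, w}) (a1 : Alg1) : CmpStatement.{u, w} := by
  intro k _ W 𝒱 m H hab ext hpd hodge
  have mf := hm H
  have hA := hAt H
  have geH := ge H
  have pos : ∀ a, ∀ z ∈ tot W (H.X a), z ≠ 0 → RatPos (H.psiL a z z) := fun a z hz hz0 =>
    hpsi H.hW (H.mem a) (H.ξ_alg a) (H.lam a) (hodge a) z hz hz0
  refine ⟨fun a L u hu h0 => ?_, fun a l z hz => ?_⟩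
  · obtain ⟨J, hJ⟩ := CMP.exists_JX H a1 hr geH (hab a) (ext a) (hpd a)
    exact CMP.pos_all a1 geH hA mf (ext a) (pos a) hJ L u hu h0
  · exact CMP.surj_all a1 geH hA mf (ext a) (pos a) (GPOS.psi_one H a (hpd a)) l z hz

end Pool.Agent.Lib.MP_361a6f_ag.FL
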