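import Mathlib

/-!
# Row CMP: two lemmas of linear algebra
-/

set_option autoImplicit false

namespace Pool.Agent.Lib.MP_361a6f_ag.FL.CMP

section spectral

/-- Two real bilinear forms `B(x, y) = C(N x, y)` with `B` positive definite and all eigenvalues of
`N` positive: `C` is positive. -/
theorem spectral_pos {V : Type*} [AddCommGroup V] [Module ℝ V] [FiniteDimensional ℝ V]
    (B C : V →ₗ[ℝ] V →ₗ[ℝ] ℝ) (N : V →ₗ[ℝ] V)
    (hB : ∀ x y, B x y = B y x) (hpos : ∀ x, x ≠ 0 → 0 < B x x)
    (hN : ∀ x y, B (N x) y = B x (N y)) (hC : ∀ x y, C (N x) y = B x y)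
    (hev : ∀ (x : V) (c : ℝ), x ≠ 0 → N x = c • x → 0 < c) (x : V) (hx : x ≠ 0) :
    0 < C x x := by
  let core : InnerProductSpace.Core ℝ V :=
    { inner := fun x y => B x y
      conj_inner_symm := fun x y => by
        change (starRingEnd ℝ) (B y x) = B x y
        rw [starRingEnd_apply, star_trivial]
        exact hB y x
      re_inner_nonneg := fun x => by
        change 0 ≤ B x x
        by_cases h : x = 0
        · rw [h]; simp
        · exact (hpos x h).le
      add_left := fun x y z => by
        change B (x + y) z = B x z + B y z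
        rw [map_add, LinearMap.add_apply]
      smul_left := fun x y r => by
        change B (r • x) y = (starRingEnd ℝ) r * B x y
        rw [map_smul, LinearMap.smul_apply, starRingEnd_apply, star_trivial, smul_eq_mul]
      definite := fun x h => by
        by_contra h0
        have h1 := hpos x h0
        change B x x = 0 at h
        rw [h] at h1
        exact lt_irrefl _ h1 }
  let _ : NormedAddCommGroup V := core.toNormedAddCommGroup
  let _ : InnerProductSpace ℝ V := InnerProductSpace.ofCore core.toCore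
  have hin : ∀ x y : V, inner ℝ x y = B x y := fun x y => rfl
  have hT : N.IsSymmetric := fun x y => by
    rw [hin, hin]
    exact hN x y
  obtain ⟨n, hn⟩ : ∃ n, Module.finrank ℝ V = n := ⟨_, rfl⟩
  let b := hT.eigenvectorBasis hn
  let μ := hT.eigenvalues hn
  have hb : ∀ i, N (b i) = μ i • b i := fun i => hT.apply_eigenvectorBasis hn i
  have hb0 : ∀ i, b i ≠ 0 := fun i => b.orthonormal.ne_zero i
  have hμ : ∀ i, 0 < μ i := fun i => hev (b i) (μ i) (hb0 i) (hb i)
  have hCb : ∀ i y, C (b i) y = (μ i)⁻¹ * B (b i) y := by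
    intro i y
    have h1 := hC (b i) y
    rw [hb, map_smul, LinearMap.smul_apply, smul_eq_mul] at h1
    rw [← h1, ← mul_assoc, inv_mul_cancel₀ (hμ i).ne', one_mul]
  have hsum : x = ∑ i, B (b i) x • b i := by
    have h1 := b.sum_repr x
    conv_lhs => rw [← h1]
    refine Finset.sum_congr rfl fun i _ => ?_
    rw [b.repr_apply_apply, hin]
  have hval : C x x = ∑ i, (B (b i) x) ^ 2 * (μ i)⁻¹ := by
    have h1 : C x x = C (∑ i, B (b i) x • b i) x := by rw [← hsum]
    rw [h1, map_sum, LinearMap.sum_apply]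
    refine Finset.sum_congr rfl fun i _ => ?_
    rw [map_smul, LinearMap.smul_apply, hCb, smul_eq_mul]
    ring
  have hnn : ∀ i ∈ (Finset.univ : Finset (Fin n)), 0 ≤ (B (b i) x) ^ 2 * (μ i)⁻¹ := fun i _ =>
    mul_nonneg (sq_nonneg _) (inv_nonneg.2 (hμ i).le)
  rw [hval]
  refine lt_of_le_of_ne (Finset.sum_nonneg hnn) ?_
  intro h0
  apply hx
  rw [hsum]
  refine Finset.sum_eq_zero fun i hi => ?_
  have h1 := (Finset.sum_eq_zero_iff_of_nonneg hnn).1 h0.symm i hi
  have h2 : B (b i) x = 0 := by
    rcases mul_eq_zero.1 h1 with h2 | h2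
    · exact pow_eq_zero_iff (two_ne_zero) |>.1 h2
    · exact absurd h2 (inv_ne_zero (hμ i).ne')
  rw [h2, zero_smul]

end spectral

section rational

variable {V : Type*} [AddCommGroup V] [Module ℝ V] [Module ℚ V] [IsScalarTower ℚ ℝ V]
  [FiniteDimensional ℝ V]

/-- A rational subspace on which a form is rational and anisotropic has finite dimension over
`ℚ`. -/
theorem finite_rat (E : Submodule ℚ V) (B : V →ₗ[ℝ] V →ₗ[ℝ] ℂ)
    (hrat : ∀ x ∈ E, ∀ y ∈ E, ∃ q : ℚ, B x y = (q : ℂ)) (hne : ∀ x ∈ E, x ≠ 0 → B x x ≠ 0) :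
    Module.Finite ℚ E := by
  obtain ⟨b, hbE, hspan, hli⟩ := exists_linearIndependent ℝ (E : Set V)
  have hfin : b.Finite := LinearIndependent.setFinite hli
  have : Fintype b := hfin.fintype
  let f : E →ₗ[ℚ] (b → ℂ) :=
    { toFun := fun x i => B x i
      map_add' := fun x y => by
        funext i
        simp
      map_smul' := fun q x => by
        funext i
        have h1 : ((q • x : E) : V) = (q : ℝ) • (x : V) := by
          rw [Submodule.coe_smul]
          have : (q : ℝ) • (x : V) = (q • (1 : ℝ)) • (x : V) := by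
            congr 1
            rw [Rat.smul_def, mul_one]
          rw [this, smul_assoc, one_smul]
        simp only [h1, map_smul, LinearMap.smul_apply, RingHom.id_apply, Pi.smul_apply]
        rw [Complex.real_smul, Rat.smul_def]
        push_cast
        rfl }
  let g : (b → ℚ) →ₗ[ℚ] (b → ℂ) :=
    LinearMap.pi fun i => (Algebra.linearMap ℚ ℂ) ∘ₗ (LinearMap.proj i)
  have hfg : ∀ x, f x ∈ LinearMap.range g := by
    intro x
    choose q hq using fun i : b => hrat x x.2 i (hbE i.2)
    refine ⟨q, ?_⟩
    funext i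
    change algebraMap ℚ ℂ (q i) = B x i
    rw [hq i]
    rfl
  have hinj : Function.Injective (LinearMap.codRestrict (LinearMap.range g) f hfg) := by
    rw [← LinearMap.ker_eq_bot, LinearMap.ker_codRestrict, LinearMap.ker_eq_bot']
    intro x hx
    by_contra h0
    have h1 : (x : V) ≠ 0 := fun h => h0 (Subtype.ext h)
    apply hne x x.2 h1
    have h2 : ∀ y ∈ Submodule.span ℝ b, B x y = 0 := by
      intro y hy
      induction hy using Submodule.span_induction with
      | mem y hy => exact congrFun hx ⟨y, hy⟩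
      | zero => simp
      | add y z _ _ h3 h4 => rw [map_add, h3, h4, add_zero]
      | smul c y _ h3 => rw [map_smul, h3, smul_zero]
    refine h2 x ?_
    rw [hspan]
    exact Submodule.subset_span x.2
  exact Module.Finite.of_injective _ hinj

/-- Injective rational endomorphisms are surjective. -/
theorem surj_rat (E : Submodule ℚ V) (B : V →ₗ[ℝ] V →ₗ[ℝ] ℂ)
    (hrat : ∀ x ∈ E, ∀ y ∈ E, ∃ q : ℚ, B x y = (q : ℂ)) (hne : ∀ x ∈ E, x ≠ 0 → B x x ≠ 0)
    (N : E →ₗ[ℚ] E) (hN : ∀ x, N x = 0 → x = 0) (y : E) : ∃ x, N x = y := by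
  have h1 := finite_rat E B hrat hne
  have h2 : Function.Injective N := by
    rw [← LinearMap.ker_eq_bot, LinearMap.ker_eq_bot']
    exact hN
  exact LinearMap.injective_iff_surjective.1 h2 y

end rational

end Pool.Agent.Lib.MP_361a6f_ag.FL.CMP
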