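import Pool.Agent.Lib.MP_361a6f_ag.FL.A.Defs
import Pool.Agent.Lib.MP_361a6f_ag.FL.A.CmpAbs
import Pool.Agent.Lib.MP_361a6f_ag.FL.GJ
import Pool.Agent.Lib.MP_361a6f_ag.FL.GT
import Pool.Agent.Lib.MP_361a6f_ag.FL.GO
import Pool.Agent.Lib.MP_361a6f_ag.FL.GPos
import Pool.Agent.Lib.MP_361a6f_ag.FL.Ge

/-!
# Row CMP, first part: the multiplication map and the real structure
-/

open CategoryTheory AlgebraicGeometry MonoidalCategory CartesianMonoidalCategory

universe u v w

set_option autoImplicit false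
set_option linter.unusedSectionVars false

namespace Pool.Agent.Lib.MP_361a6f_ag.FL

open Pool.Agent.Lib.MP_361a6f_ag.H3 Pool.Agent.Lib.MP_361a6f_ag.SQ
  Pool.Agent.Lib.MP_361a6f_ag.PP

namespace CMP

/-! ### Products in rings -/

section ring

variable {A : Type*} [Ring A] [Algebra ℂ A]

/-- products of square-zero elements are antisymmetric -/
theorem prod_perm (S : Submodule ℂ A) (sq : ∀ v ∈ S, v * v = 0) {L : ℕ} (v : Fin L → A)
    (hv : ∀ i, v i ∈ S) (σ : Equiv.Perm (Fin L)) :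
    (List.ofFn (v ∘ σ)).prod = ((Equiv.Perm.sign σ : ℤ) : ℂ) • (List.ofFn v).prod := by
  obtain ⟨φ, hφ⟩ : ∃ φ : ExteriorAlgebra ℂ S →ₐ[ℂ] A,
      ∀ x : S, φ (ExteriorAlgebra.ι ℂ x) = x := by
    refine ⟨ExteriorAlgebra.lift ℂ ⟨S.subtype, fun x => sq x x.2⟩, fun x => ?_⟩
    rw [ExteriorAlgebra.lift_ι_apply]
    rfl
  have h : ∀ v' : Fin L → S, φ (ExteriorAlgebra.ιMulti ℂ L v')
      = (List.ofFn fun i => (v' i : A)).prod := by
    intro v'
    rw [ExteriorAlgebra.ιMulti_apply, map_list_prod, List.map_ofFn]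
    congr 2
    funext i
    exact hφ (v' i)
  have h1 := h fun i => ⟨v i, hv i⟩
  have h2 := h ((fun i => (⟨v i, hv i⟩ : S)) ∘ σ)
  have h3 := (ExteriorAlgebra.ιMulti ℂ L).map_perm (fun i => (⟨v i, hv i⟩ : S)) σ
  rw [h3] at h2
  have h4 : (List.ofFn (v ∘ σ)).prod
      = φ (Equiv.Perm.sign σ • (ExteriorAlgebra.ιMulti ℂ L) fun i => (⟨v i, hv i⟩ : S)) := by
    rw [h2]
    rfl
  rw [h4, ← h1]
  rcases Int.units_eq_one_or (Equiv.Perm.sign σ) with e | e
  · rw [e]; simp
  · rw [e]; simp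

/-- products of linear combinations -/
theorem prod_sum {I : Type} [Fintype I] (e : I → A) {L : ℕ} (c : Fin L → I → ℂ) :
    (List.ofFn fun i => ∑ x, c i x • e x).prod
      = ∑ w : Fin L → I, (∏ i, c i (w i)) • (List.ofFn fun i => e (w i)).prod := by
  classical
  have h := (MultilinearMap.mkPiAlgebraFin ℂ L A).map_sum (fun i x => c i x • e x)
  simp only [MultilinearMap.mkPiAlgebraFin_apply] at h
  rw [h]
  refine Finset.sum_congr rfl fun w _ => ?_
  have h2 := (MultilinearMap.mkPiAlgebraFin ℂ L A).map_smul_univ (fun i => c i (w i))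
    (fun i => e (w i))
  simp only [MultilinearMap.mkPiAlgebraFin_apply] at h2
  exact h2

theorem prod_smul {L : ℕ} (c : Fin L → ℂ) (e : Fin L → A) :
    (List.ofFn fun i => c i • e i).prod = (∏ i, c i) • (List.ofFn e).prod := by
  have h2 := (MultilinearMap.mkPiAlgebraFin ℂ L A).map_smul_univ c e
  simp only [MultilinearMap.mkPiAlgebraFin_apply] at h2
  exact h2

theorem map_prod (J : A →ₛₗ[starRingEnd ℂ] A) (h1 : J 1 = 1)
    (hJ : ∀ x y, J (x * y) = J x * J y) : ∀ {L : ℕ} (e : Fin L → A),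
    J (List.ofFn e).prod = (List.ofFn fun i => J (e i)).prod := by
  intro L
  induction L with
  | zero => intro e; simpa using h1
  | succ L ih =>
    intro e
    rw [List.ofFn_succ, List.prod_cons, hJ, ih, List.ofFn_succ, List.prod_cons]

end ring

noncomputable section

variable {k : Type u} [Field k] {m : ℕ} {W : CohomologyData.{u, 0, w} k ℂ} {𝒱 : VarietyClass k}
  (H : Host W 𝒱 m) (a : Fin m)

/-! ### linearity -/

theorem psiL_add_left (x x' y : W.coh (H.X a)) :
    H.psiL a (x + x') y = H.psiL a x y + H.psiL a x' y := Ge.psiP_add_left H (.leaf a) x x' y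

theorem psiL_add_right (x y y' : W.coh (H.X a)) :
    H.psiL a x (y + y') = H.psiL a x y + H.psiL a x y' := Ge.psiP_add_right H (.leaf a) x y y'

theorem psiL_smul_left (c : ℂ) (x y : W.coh (H.X a)) :
    H.psiL a (c • x) y = c * H.psiL a x y := Ge.psiP_smul_left H (.leaf a) c x y

theorem psiL_smul_right (c : ℂ) (x y : W.coh (H.X a)) :
    H.psiL a x (c • y) = c * H.psiL a x y := Ge.psiP_smul_right H (.leaf a) c x y

/-- the multiplication map as a linear map -/
def mulL (L : ℕ) : Ten H.I L →ₗ[ℂ] W.coh (H.X a) where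
  toFun u := H.mul a u
  map_add' u v := by
    simp only [Host.mul, Pi.add_apply, add_smul, Finset.sum_add_distrib]
  map_smul' c u := by
    simp only [Host.mul, Pi.smul_apply, smul_assoc, ← Finset.smul_sum, RingHom.id_apply]

/-- its adjoint as a linear map -/
def mulL' (L : ℕ) : W.coh (H.X a) →ₗ[ℂ] Ten H.I L where
  toFun z := H.mul' a L z
  map_add' x y := by
    funext w
    simp only [Host.mul', Pi.add_apply, psiL_add_right, mul_add]
  map_smul' c x := by
    funext w
    simp only [Host.mul', Pi.smul_apply, psiL_smul_right, RingHom.id_apply, smul_eq_mul]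
    ring

/-- the projection as a linear map -/
def prjL (L : ℕ) : Ten H.I L →ₗ[ℂ] Ten H.I L where
  toFun u := H.prj a u
  map_add' u v := by
    funext w
    simp only [Host.prj, Pi.add_apply]
    split_ifs <;> simp
  map_smul' c u := by
    funext w
    simp only [Host.prj, Pi.smul_apply, RingHom.id_apply]
    split_ifs <;> simp

theorem mulL_apply {L : ℕ} (u : Ten H.I L) : mulL H a L u = H.mul a u := rfl

theorem mulL'_apply {L : ℕ} (z : W.coh (H.X a)) : mulL' H a L z = H.mul' a L z := rfl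

theorem prjL_apply {L : ℕ} (u : Ten H.I L) : prjL H a L u = H.prj a u := rfl

/-- the composition -/
def NL (L : ℕ) : Ten H.I L →ₗ[ℂ] Ten H.I L := prjL H a L ∘ₗ mulL' H a L ∘ₗ mulL H a L

theorem NL_apply {L : ℕ} (u : Ten H.I L) : NL H a L u = H.prj a (H.mul' a L (H.mul a u)) := rfl

/-! ### supports -/

/-- the tensor is supported on the words with all letters `(a, 1)` -/
def Sup {L : ℕ} (u : Ten H.I L) : Prop := ∀ w, ¬ H.On1 a w → u w = 0

variable {a}

theorem on1_tau {L : ℕ} (w : Fin L → H.I) : H.On1 a (H.D.τ ∘ w) ↔ H.On1 a w := by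
  unfold Host.On1
  exact forall_congr' fun i => by rw [Function.comp_apply, H.D.typ_τ]

theorem on1_perm {L : ℕ} {w : Fin L → H.I} (σ : Equiv.Perm (Fin L)) (hw : H.On1 a w) :
    H.On1 a (w ∘ σ) := fun i => hw (σ i)

theorem prj_on {L : ℕ} (u : Ten H.I L) {w : Fin L → H.I} (hw : H.On1 a w) :
    H.prj a u w = u w := if_pos hw

theorem prj_off {L : ℕ} (u : Ten H.I L) {w : Fin L → H.I} (hw : ¬ H.On1 a w) :
    H.prj a u w = 0 := if_neg hw

theorem psiT_prj {L : ℕ} {u : Ten H.I L} (hu : Sup H a u) (v : Ten H.I L) :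
    psiT H.D u (H.prj a v) = psiT H.D u v := by
  unfold psiT
  refine Finset.sum_congr rfl fun w _ => ?_
  by_cases hw : H.On1 a w
  · rw [prj_on H v ((on1_tau H w).2 hw)]
  · rw [hu w hw, zero_mul, zero_mul]

theorem sup_jT {L : ℕ} {u : Ten H.I L} (hu : Sup H a u) : Sup H a (jT H.D u) := by
  intro w hw
  unfold jT
  rw [hu _ (fun h => hw ((on1_tau H w).1 h)), map_zero, mul_zero]

/-! ### antisymmetry -/

theorem mon_perm (ext : ExtFacts W (H.X a)) {L : ℕ} {w : Fin L → H.I} (hw : H.On1 a w)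
    (σ : Equiv.Perm (Fin L)) :
    H.mon a (w ∘ σ) = ((Equiv.Perm.sign σ : ℤ) : ℂ) • H.mon a w := by
  refine prod_perm (W.gr (H.X a) 1) ext.sq (fun i => H.e a (w i)) (fun i => ?_) σ
  have h := H.e_gr a (w i)
  rw [hw i] at h
  exact h

theorem sg_perm {L : ℕ} (w : Fin L → H.I) (σ : Equiv.Perm (Fin L)) :
    sg H.D (w ∘ σ) = sg H.D w := by
  unfold sg
  exact Equiv.prod_comp σ fun i => H.D.s (w i)

theorem anti_prj (ext : ExtFacts W (H.X a)) (L : ℕ) (z : W.coh (H.X a)) :
    Anti (H.prj a (H.mul' a L z)) := by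
  intro σ w
  by_cases hw : H.On1 a w
  · rw [prj_on H _ hw, prj_on H _ (on1_perm H σ hw), Host.mul', Host.mul']
    have e : H.D.τ ∘ (w ∘ σ) = (H.D.τ ∘ w) ∘ σ := rfl
    rw [e, mon_perm H ext ((on1_tau H w).2 hw), sg_perm, psiL_smul_left]
    ring
  · rw [prj_off H _ hw, mul_zero]
    refine prj_off H _ fun h => hw ?_
    intro i
    have := h (σ⁻¹ i)
    simpa using this

end

end CMP

end Pool.Agent.Lib.MP_361a6f_ag.FL
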