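import Pool.Agent.Lib.MP_361a6f_ag.FL.A.Cmp1

/-!
# Row CMP, second part: the real structure on `H^*(X_a)` and on tensors
-/

open CategoryTheory AlgebraicGeometry MonoidalCategory CartesianMonoidalCategory

universe u v w

set_option autoImplicit false
set_option linter.unusedSectionVars false

namespace Pool.Agent.Lib.MP_361a6f_ag.FL

open Pool.Agent.Lib.MP_361a6f_ag.H3 Pool.Agent.Lib.MP_361a6f_ag.SQ
  Pool.Agent.Lib.MP_361a6f_ag.PP

namespace CMP

noncomputable section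

variable {k : Type u} [Field k] {m : ℕ} {W : CohomologyData.{u, 0, w} k ℂ} {𝒱 : VarietyClass k}
  (H : Host W 𝒱 m) {a : Fin m} (a1 : Alg1)

include a1 in
theorem JT_one {L : ℕ} (u : Ten H.I L) : GJ.JT H.D 1 u = jT H.D u := by
  rw [GJ.JT, inv_one, a1.gT_one, a1.gT_one]

/-- coordinates of the classes on `X_a` -/
def tcA (a : Fin m) : W.coh (H.X a) →ₗ[ℂ] Ten H.I 1 := H.tc (.leaf a)

theorem tcA_inj (ge : H.GeFacts) : Function.Injective (tcA H a) := ge.inj (.leaf a)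

theorem tcA_psi (ge : H.GeFacts) (x y : W.coh (H.X a)) :
    psiT H.D (tcA H a x) (tcA H a y) = H.psiL a x y := ge.psi_tc (.leaf a) x y

theorem tcA_mem {z : W.coh (H.X a)} (hz : z ∈ tot W (H.X a)) : tcA H a z ∈ H.At 1 :=
  AddSubgroup.subset_closure (Or.inr ⟨.leaf a, rfl, z, hz, rfl⟩)

theorem tcA_gr (ge : H.GeFacts) {i : ℕ} {x : W.coh (H.X a)} (hx : x ∈ W.gr (H.X a) i)
    (w : Fin 1 → H.I) (hw : ∑ l, (H.D.typ (w l)).2 ≠ i) : tcA H a x w = 0 :=
  GJ.tc_gr H ge staB (.leaf a) hx w hw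

theorem tcA_off (ge : H.GeFacts) (x : W.coh (H.X a)) (w : Fin 1 → H.I)
    (hw : (H.D.typ (w 0)).1 ≠ a) : tcA H a x w = 0 :=
  ge.tc_off (.leaf a) x w ⟨(0 : Fin 1), hw⟩

theorem tcA_e (x : H.I) (hx : (H.D.typ x).1 = a) :
    tcA H a (H.e a x) = fun w => if w = (fun _ => x) then 1 else 0 := by
  funext w
  refine Ge.tc_E H (.leaf a) (fun _ => x) w ?_
  rintro ⟨i, hi⟩
  exact hi hx

theorem tcA_expand (ge : H.GeFacts) (z : W.coh (H.X a)) :
    z = ∑ w : Fin 1 → H.I, tcA H a z w • H.e a (w 0) := ge.expand (.leaf a) z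

/-- the real structure `J₀` on `H^*(X_a)` -/
def j0 (a : Fin m) : W.coh (H.X a) →ₛₗ[starRingEnd ℂ] W.coh (H.X a) :=
  GJ.J H a1 1 (.leaf a)

theorem tcA_j0 (ge : H.GeFacts) (z : W.coh (H.X a)) :
    tcA H a (j0 H a1 a z) = jT H.D (tcA H a z) :=
  (GJ.tc_J H a1 (a1.G_one H.D) ge (.leaf a) z).trans (JT_one H a1 _)

/-- `J₀` on the basis -/
theorem j0_e (ge : H.GeFacts) (x : H.I) (hx : (H.D.typ x).1 = a) :
    j0 H a1 a (H.e a x) = H.D.s x • H.e a (H.D.τ x) := by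
  classical
  refine tcA_inj H ge ?_
  rw [tcA_j0 H a1 ge, map_smul, tcA_e H x hx,
    tcA_e H (H.D.τ x) (by rw [H.D.typ_τ]; exact hx)]
  funext w
  simp only [jT, Pi.smul_apply, smul_eq_mul]
  by_cases hw : w = fun _ => H.D.τ x
  · rw [if_pos hw, hw]
    have e3 : H.D.τ ∘ (fun _ : Fin 1 => H.D.τ x) = fun _ => x := by
      funext i
      simp only [Function.comp_apply, H.D.τ_τ]
    rw [e3, if_pos rfl, map_one, mul_one, mul_one]
    simp [sg]
  · rw [if_neg hw, if_neg, map_zero, mul_zero, mul_zero]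
    intro h
    apply hw
    funext i
    have := congrFun h i
    simp only [Function.comp_apply] at this
    rw [← this, H.D.τ_τ]

/-- the data of a multiplicative real structure on `H^*(X_a)` that extends `J₀` on `H^1(X_a)` -/
structure JX (H : Host W 𝒱 m) (a1 : Alg1) (a : Fin m)
    (J : W.coh (H.X a) →ₛₗ[starRingEnd ℂ] W.coh (H.X a)) : Prop where
  one : J 1 = 1
  mul : ∀ x y, J (x * y) = J x * J y
  gr1 : ∀ v ∈ W.gr (H.X a) 1, J v = j0 H a1 a v
  rs : IsRS W (H.X a) (H.n a) (H.ξ a) (H.Lam a) J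

/-- existence -/
theorem exists_JX (hr : HrStatement.{u, w}) (ge : H.GeFacts)
    (hab : AbelianType W (H.X a) (H.n a)) (ext : ExtFacts W (H.X a))
    (hpd : PositiveDivisor W (H.X a) (H.n a) (H.ξ a)) : ∃ J, JX H a1 a J := by
  have hG := a1.G_one H.D
  have hgr : ∀ v ∈ W.gr (H.X a) 1, j0 H a1 a v ∈ W.gr (H.X a) 1 := fun v hv =>
    GJ.J_gr H a1 hG ge staB (.leaf a) 1 v hv
  obtain ⟨J, h1, hm, hJg, hj⟩ := ext.ext (j0 H a1 a) hgr
  refine ⟨J, h1, hm, hj, ?_⟩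
  refine hr H.hW (H.mem a) hab ext hpd (H.lam a) J h1 hm hJg ?_ ?_ ?_
  · intro v hv w hw
    rw [hj v hv, hj w hw]
    exact GJ.J_conj H a1 hG ge (.leaf a) v w
  · intro v hv hv0
    rw [hj v hv]
    exact GJ.J_pos H a1 hG ge (.leaf a) v hv0
  · intro v hv
    rw [hj v hv, hj _ (hgr v hv)]
    refine tcA_inj H ge ?_
    rw [tcA_j0 H a1 ge, tcA_j0 H a1 ge, map_neg]
    funext w
    rw [GO.jT_jT_apply, Pi.neg_apply]
    by_cases hw : ∑ l, (H.D.typ (w l)).2 = 1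
    · rw [hw, pow_one, neg_one_mul]
    · rw [tcA_gr H ge hv w hw, mul_zero, neg_zero]

variable {J : W.coh (H.X a) →ₛₗ[starRingEnd ℂ] W.coh (H.X a)} (hJ : JX H a1 a J)

include hJ

theorem J_mon (ge : H.GeFacts) {L : ℕ} (w : Fin L → H.I) (hw : H.On1 a w) :
    J (H.mon a w) = sg H.D w • H.mon a (H.D.τ ∘ w) := by
  have h1 : ∀ i, J (H.e a (w i)) = H.D.s (w i) • H.e a (H.D.τ (w i)) := by
    intro i
    have hg : H.e a (w i) ∈ W.gr (H.X a) 1 := by
      have h := H.e_gr a (w i)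
      rw [hw i] at h
      exact h
    rw [hJ.gr1 _ hg]
    exact j0_e H a1 ge (w i) (by rw [hw i])
  rw [Host.mon, map_prod J hJ.one hJ.mul]
  simp only [h1]
  exact prod_smul (fun i => H.D.s (w i)) (fun i => H.e a (H.D.τ (w i)))

/-- `J` and the multiplication map -/
theorem J_mul (ge : H.GeFacts) {L : ℕ} {u : Ten H.I L} (hu : Sup H a u) :
    J (H.mul a u) = H.mul a (jT H.D u) := by
  have hinv : Function.Involutive (fun w : Fin L → H.I => H.D.τ ∘ w) := by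
    intro w
    funext i
    exact H.D.τ_τ _
  unfold Host.mul
  rw [map_sum, ← Equiv.sum_comp hinv.toPerm]
  refine Finset.sum_congr rfl fun w _ => ?_
  change J (u (H.D.τ ∘ w) • H.mon a (H.D.τ ∘ w)) = jT H.D u w • H.mon a w
  by_cases hw : H.On1 a w
  · rw [LinearMap.map_smulₛₗ, J_mon H a1 hJ ge _ ((on1_tau H w).2 hw)]
    have e : H.D.τ ∘ (H.D.τ ∘ w) = w := hinv w
    rw [e, smul_smul, jT, mul_comm]
  · rw [hu _ (fun h => hw ((on1_tau H w).1 h)), zero_smul, map_zero,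
      sup_jT H hu w hw, zero_smul]

end

end CMP

end Pool.Agent.Lib.MP_361a6f_ag.FL
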