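import Pool.Agent.Lib.MP_361a6f_ag.FL.A.Cmp2
import Pool.Agent.Lib.MP_361a6f_ag.FL.GPosA

/-!
# Row CMP, third part: antisymmetric algebraic tensors
-/

open CategoryTheory AlgebraicGeometry MonoidalCategory CartesianMonoidalCategory

universe u v w

set_option autoImplicit false
set_option linter.unusedSectionVars false

namespace Pool.Agent.Lib.MP_361a6f_ag.FL

open Pool.Agent.Lib.MP_361a6f_ag.H3 Pool.Agent.Lib.MP_361a6f_ag.SQ
  Pool.Agent.Lib.MP_361a6f_ag.PP

namespace CMP

noncomputable section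

variable {k : Type u} [Field k] {m : ℕ} {W : CohomologyData.{u, 0, w} k ℂ} {𝒱 : VarietyClass k}
  {H : Host W 𝒱 m} {a : Fin m}

theorem rat_smul {I : Type} {L : ℕ} (q : ℚ) (u : Ten I L) : q • u = (q : ℂ) • u := by
  funext w
  rw [Pi.smul_apply, Pi.smul_apply, Rat.smul_def, smul_eq_mul]

theorem AntiAt.add {L : ℕ} {u v : Ten H.I L} (hu : H.AntiAt a u) (hv : H.AntiAt a v) :
    H.AntiAt a (u + v) where
  mem := add_mem hu.mem hv.mem
  on w hw := by rw [Pi.add_apply, hu.on w hw, hv.on w hw, add_zero]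
  anti σ w := by rw [Pi.add_apply, Pi.add_apply, hu.anti, hv.anti, mul_add]

theorem AntiAt.zero {L : ℕ} : H.AntiAt a (0 : Ten H.I L) where
  mem := zero_mem _
  on _ _ := rfl
  anti σ w := by simp

theorem AntiAt.smul (hA : H.AtFacts) {L : ℕ} {u : Ten H.I L} (hu : H.AntiAt a u) (q : ℚ) :
    H.AntiAt a ((q : ℂ) • u) where
  mem := hA.rat L q u hu.mem
  on w hw := by rw [Pi.smul_apply, hu.on w hw, smul_zero]
  anti σ w := by
    rw [Pi.smul_apply, Pi.smul_apply, hu.anti, smul_eq_mul, smul_eq_mul]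
    ring

variable (H a) in
/-- the rational space of the antisymmetric algebraic tensors -/
def EQ (hA : H.AtFacts) (L : ℕ) : Submodule ℚ (Ten H.I L) where
  carrier := {u | H.AntiAt a u}
  add_mem' hu hv := AntiAt.add hu hv
  zero_mem' := AntiAt.zero
  smul_mem' q u hu := by
    change H.AntiAt a (q • u)
    rw [rat_smul]
    exact AntiAt.smul hA hu q

variable (H a) in
/-- its real span -/
def SR (L : ℕ) : Submodule ℝ (Ten H.I L) := Submodule.span ℝ {u | H.AntiAt a u}

variable (H a) in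
/-- the properties of the tensors in the real span -/
structure Good {L : ℕ} (u : Ten H.I L) : Prop where
  sup : Sup H a u
  anti : Anti u
  jj : jT H.D (jT H.D u) = u
  jjx : jT H.D (jT H.D (tcA H a (H.mul a u))) = tcA H a (H.mul a u)

theorem jj_add (a1 : Alg1) {L : ℕ} {u v : Ten H.I L} (hu : jT H.D (jT H.D u) = u)
    (hv : jT H.D (jT H.D v) = v) : jT H.D (jT H.D (u + v)) = u + v := by
  rw [a1.jT_add, a1.jT_add, hu, hv]

theorem jj_smul (a1 : Alg1) {L : ℕ} (c : ℂ) {u : Ten H.I L} (hu : jT H.D (jT H.D u) = u) :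
    jT H.D (jT H.D (c • u)) = c • u := by
  rw [a1.jT_smul, a1.jT_smul, hu, Complex.conj_conj]

theorem good_of_mem (a1 : Alg1) (hA : H.AtFacts) (mf : H.MulFacts) {L : ℕ} {u : Ten H.I L}
    (hu : u ∈ SR H a L) : Good H a u := by
  unfold SR at hu
  induction hu using Submodule.span_induction with
  | mem u hu =>
    exact ⟨hu.on, hu.anti, hA.par L u hu.mem, hA.par 1 _ (tcA_mem H (mf.mul_mem a L u hu.mem))⟩
  | zero =>
    refine ⟨fun _ _ => rfl, fun σ w => by simp, ?_, ?_⟩
    · exact hA.par L 0 (zero_mem _)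
    · have h : H.mul a (0 : Ten H.I L) = 0 := map_zero (mulL H a L)
      rw [h, map_zero]
      exact hA.par 1 0 (zero_mem _)
  | add u v _ _ hu hv =>
    refine ⟨fun w hw => ?_, fun σ w => ?_, jj_add a1 hu.jj hv.jj, ?_⟩
    · rw [Pi.add_apply, hu.sup w hw, hv.sup w hw, add_zero]
    · rw [Pi.add_apply, Pi.add_apply, hu.anti, hv.anti, mul_add]
    · have h : H.mul a (u + v) = H.mul a u + H.mul a v := map_add (mulL H a L) u v
      rw [h, map_add]
      exact jj_add a1 hu.jjx hv.jjx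
  | smul r u _ hu =>
    rw [Qps.real_smul]
    refine ⟨fun w hw => ?_, fun σ w => ?_, jj_smul a1 _ hu.jj, ?_⟩
    · rw [Pi.smul_apply, hu.sup w hw, smul_zero]
    · rw [Pi.smul_apply, Pi.smul_apply, hu.anti, smul_eq_mul, smul_eq_mul]
      ring
    · have h : H.mul a ((r : ℂ) • u) = (r : ℂ) • H.mul a u := map_smul (mulL H a L) _ u
      rw [h, map_smul]
      exact jj_smul a1 _ hu.jjx

/-! ### the operator `N` -/

theorem antiAt_prj (ext : ExtFacts W (H.X a)) (mf : H.MulFacts) {L : ℕ} (hL : 0 < L)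
    {z : W.coh (H.X a)} (hz : z ∈ tot W (H.X a)) : H.AntiAt a (H.prj a (H.mul' a L z)) where
  mem := mf.prj_mem a L _ (mf.mul'_mem a L z hL hz)
  on _ hw := prj_off H _ hw
  anti := anti_prj H ext L z

theorem antiAt_NL (ext : ExtFacts W (H.X a)) (mf : H.MulFacts) {L : ℕ} (hL : 0 < L)
    {u : Ten H.I L} (hu : H.AntiAt a u) : H.AntiAt a (NL H a L u) :=
  antiAt_prj ext mf hL (mf.mul_mem a L u hu.mem)

theorem NL_mem (ext : ExtFacts W (H.X a)) (mf : H.MulFacts) {L : ℕ} (hL : 0 < L)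
    {u : Ten H.I L} (hu : u ∈ SR H a L) : NL H a L u ∈ SR H a L := by
  unfold SR at hu
  induction hu using Submodule.span_induction with
  | mem u hu => exact Submodule.subset_span (antiAt_NL ext mf hL hu)
  | zero => rw [map_zero]; exact zero_mem _
  | add u v _ _ hu hv => rw [map_add]; exact add_mem hu hv
  | smul r u _ hu =>
    rw [Qps.real_smul, map_smul, ← Qps.real_smul]
    exact Submodule.smul_mem _ r hu

theorem psiT_NL (mf : H.MulFacts) {L : ℕ} {u : Ten H.I L} (hu : Sup H a u) (v : Ten H.I L) :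
    psiT H.D u (NL H a L v) = H.psiL a (H.mul a u) (H.mul a v) := by
  rw [NL_apply, psiT_prj H hu, mf.adj]

theorem symT (a1 : Alg1) {L : ℕ} {u v : Ten H.I L} (hu : Good H a u) (hv : Good H a v) :
    psiT H.D u v = psiT H.D v u := Qps.psi_symm a1 hu.jj hv.jj

theorem symX (a1 : Alg1) (ge : H.GeFacts) {L : ℕ} {u v : Ten H.I L} (hu : Good H a u)
    (hv : Good H a v) :
    H.psiL a (H.mul a u) (H.mul a v) = H.psiL a (H.mul a v) (H.mul a u) := by
  rw [← tcA_psi H ge, ← tcA_psi H ge]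
  exact Qps.psi_symm a1 hu.jjx hv.jjx

/-! ### injectivity of the multiplication map -/

theorem lin_indep :
    LinearIndependent ℂ (fun i : {x : H.I | H.D.typ x = (a, 1)} => H.e a i) := by
  classical
  rw [Fintype.linearIndependent_iff]
  intro g hg i
  have h1 : tcA H a (∑ i, g i • H.e a i) (fun _ => (i : H.I)) = 0 := by
    rw [hg, map_zero]; rfl
  rw [map_sum, Finset.sum_apply, Finset.sum_eq_single i] at h1
  · rw [map_smul, tcA_e H _ (by rw [i.2]), Pi.smul_apply, if_pos rfl, smul_eq_mul, mul_one] at h1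
    exact h1
  · intro j _ hj
    rw [map_smul, tcA_e H _ (by rw [j.2]), Pi.smul_apply, if_neg, smul_zero]
    intro h
    apply hj
    exact Subtype.ext (congrFun h 0).symm
  · intro h
    exact absurd (Finset.mem_univ i) h

theorem mul_ne (ext : ExtFacts W (H.X a)) {L : ℕ} {u : Ten H.I L}
    (hu : Sup H a u) (hu' : Anti u) (h0 : u ≠ 0) : H.mul a u ≠ 0 := by
  intro h
  apply h0
  refine ext.inj (H.e a) {x : H.I | H.D.typ x = (a, 1)} (fun i hi => ?_) lin_indep L u
    hu hu' h
  have h1 := H.e_gr a i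
  have h2 : H.D.typ i = (a, 1) := hi
  rw [h2] at h1
  exact h1

end

end CMP

end Pool.Agent.Lib.MP_361a6f_ag.FL
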