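import Pool.Agent.Lib.MP_361a6f_ag.AV48.Ext

/-!
# Theorem A, row EXT2 (helper11): contractions and extension of antilinear maps
-/

universe w

set_option autoImplicit false

namespace Pool.Agent.Lib.MP_361a6f_ag.FL.Ext2

open Pool.Agent.Lib.MP_361a6f_ag.PP Pool.Agent.Lib.MP_361a6f_ag.AV48 Module

noncomputable section

/-- the algebra `A` with the conjugate action of `ℂ` -/
def Cj (A : Type w) : Type w := A

instance (A : Type w) [Ring A] : Ring (Cj A) := inferInstanceAs (Ring A)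

instance (A : Type w) [Ring A] [Algebra ℂ A] : Algebra ℂ (Cj A) :=
  RingHom.toAlgebra' ((algebraMap ℂ A).comp (starRingEnd ℂ))
    (fun c x => Algebra.commutes (R := ℂ) (A := A) (starRingEnd ℂ c) x)

theorem cj_smul {A : Type w} [Ring A] [Algebra ℂ A] (c : ℂ) (x : A) :
    (show A from (c • (show Cj A from x) : Cj A)) = starRingEnd ℂ c • x :=
  (Algebra.smul_def (R := ℂ) (A := A) (starRingEnd ℂ c) x).symm

variable {A : Type w} [Ring A] [Algebra ℂ A] {gr : ℕ → Submodule ℂ A} {n : ℕ}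

/-- the antilinear map as a linear map to the conjugate algebra -/
def jl (gr : ℕ → Submodule ℂ A) (j : A →ₛₗ[starRingEnd ℂ] A) : gr 1 →ₗ[ℂ] Cj A where
  toFun v := j v
  map_add' v w := map_add j (v : A) w
  map_smul' c v := (map_smulₛₗ j c (v : A)).trans (cj_smul c (j v)).symm

theorem jl_sq (h : ExtAlg gr n) (j : A →ₛₗ[starRingEnd ℂ] A) (hj : ∀ v ∈ gr 1, j v ∈ gr 1)
    (v : gr 1) : (jl gr j v * jl gr j v : Cj A) = 0 := h.sq (hj v v.2)

/-- the extension as an algebra homomorphism to the conjugate algebra -/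
def Jh (h : ExtAlg gr n) (j : A →ₛₗ[starRingEnd ℂ] A) (hj : ∀ v ∈ gr 1, j v ∈ gr 1) :
    ExteriorAlgebra ℂ (gr 1) →ₐ[ℂ] Cj A :=
  ExteriorAlgebra.lift ℂ ⟨jl gr j, jl_sq h j hj⟩

theorem Jh_ι (h : ExtAlg gr n) (j : A →ₛₗ[starRingEnd ℂ] A) (hj : ∀ v ∈ gr 1, j v ∈ gr 1)
    (v : gr 1) : Jh h j hj (ExteriorAlgebra.ι ℂ v) = j v := by
  rw [Jh, ExteriorAlgebra.lift_ι_apply]
  rfl

/-- the extension -/
def Je (h : ExtAlg gr n) (j : A →ₛₗ[starRingEnd ℂ] A) (hj : ∀ v ∈ gr 1, j v ∈ gr 1) :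
    A →ₛₗ[starRingEnd ℂ] A where
  toFun x := Jh h j hj (h.equiv.symm x)
  map_add' x y := by
    rw [map_add, map_add]
    rfl
  map_smul' c x := by
    rw [map_smul, map_smul]
    exact cj_smul c _

theorem Je_one (h : ExtAlg gr n) (j : A →ₛₗ[starRingEnd ℂ] A) (hj : ∀ v ∈ gr 1, j v ∈ gr 1) :
    Je h j hj 1 = 1 := by
  change Jh h j hj (h.equiv.symm 1) = _
  rw [map_one, map_one]
  rfl

theorem Je_mul (h : ExtAlg gr n) (j : A →ₛₗ[starRingEnd ℂ] A) (hj : ∀ v ∈ gr 1, j v ∈ gr 1)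
    (x y : A) : Je h j hj (x * y) = Je h j hj x * Je h j hj y := by
  change Jh h j hj (h.equiv.symm (x * y)) = _
  rw [map_mul, map_mul]
  rfl

theorem Je_v (h : ExtAlg gr n) (j : A →ₛₗ[starRingEnd ℂ] A) (hj : ∀ v ∈ gr 1, j v ∈ gr 1)
    (v : A) (hv : v ∈ gr 1) : Je h j hj v = j v := by
  change Jh h j hj (h.equiv.symm v) = _
  have := h.equiv_symm ⟨v, hv⟩
  rw [this, Jh_ι]

theorem Je_gr (h : ExtAlg gr n) (j : A →ₛₗ[starRingEnd ℂ] A) (hj : ∀ v ∈ gr 1, j v ∈ gr 1) :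
    ∀ (i : ℕ) (x : A), x ∈ gr i → Je h j hj x ∈ gr i := by
  refine h.deg_ind (P := fun i x => Je h j hj x ∈ gr i) ?_ ?_ ?_ ?_
  · intro i
    rw [map_zero]
    exact zero_mem _
  · intro i x y _ _ hx hy
    rw [map_add]
    exact add_mem hx hy
  · intro c
    rw [map_smulₛₗ, Je_one]
    exact Submodule.smul_mem _ _ h.one
  · intro i v hv x _ hx
    rw [Je_mul, Je_v h j hj v hv, add_comm]
    exact h.mul (hj v hv) hx

/-- ROW EXT2, `ext`. -/
theorem ext_ext (h : ExtAlg gr n) (j : A →ₛₗ[starRingEnd ℂ] A) (hj : ∀ v ∈ gr 1, j v ∈ gr 1) :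
    ∃ J : A →ₛₗ[starRingEnd ℂ] A, J 1 = 1 ∧ (∀ x y, J (x * y) = J x * J y) ∧
      (∀ i x, x ∈ gr i → J x ∈ gr i) ∧ ∀ v ∈ gr 1, J v = j v :=
  ⟨Je h j hj, Je_one h j hj, Je_mul h j hj, Je_gr h j hj, Je_v h j hj⟩

/-- degree of the contractions -/
theorem D_deg (h : ExtAlg gr n) (d : Module.Dual ℂ (gr 1)) :
    ∀ (i : ℕ) (x : A), x ∈ gr i → (i = 0 → h.D d x = 0) ∧ ∀ l, i = l + 1 → h.D d x ∈ gr l := by
  refine h.deg_ind
    (P := fun i x => (i = 0 → h.D d x = 0) ∧ ∀ l, i = l + 1 → h.D d x ∈ gr l) ?_ ?_ ?_ ?_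
  · intro i
    refine ⟨fun _ => map_zero _, fun l _ => ?_⟩
    rw [map_zero]
    exact zero_mem _
  · intro i x y _ _ hx hy
    refine ⟨fun hi => ?_, fun l hl => ?_⟩
    · rw [map_add, hx.1 hi, hy.1 hi, add_zero]
    · rw [map_add]
      exact add_mem (hx.2 l hl) (hy.2 l hl)
  · intro c
    refine ⟨fun _ => ?_, fun l hl => by omega⟩
    rw [map_smul, h.D_one, smul_zero]
  · intro i v hv x hx hP
    refine ⟨fun hi => by omega, fun l hl => ?_⟩
    have hl' : i = l := by omega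
    subst hl'
    rw [h.D_mul d ⟨v, hv⟩ x]
    refine sub_mem (Submodule.smul_mem _ _ hx) ?_
    rcases i with _ | i
    · rw [hP.1 rfl, mul_zero]
      exact zero_mem _
    · rw [add_comm]
      exact h.mul hv (hP.2 i rfl)

/-- ROW EXT2, `con`. -/
theorem ext_con (h : ExtAlg gr n) : ∃ c : (A →ₗ[ℂ] ℂ) → Module.End ℂ A,
    (∀ φ, c φ 1 = 0) ∧
    (∀ φ v x, v ∈ gr 1 → c φ (v * x) = φ v • x - v * c φ x) ∧
    (∀ φ i x, x ∈ gr (i + 1) → c φ x ∈ gr i) ∧
    ∀ i x, x ∈ gr (i + 1) → (∀ φ, c φ x = 0) → x = 0 := by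
  refine ⟨fun φ => h.D (φ ∘ₗ (gr 1).subtype), fun φ => h.D_one _, fun φ v x hv => ?_,
    fun φ i x hx => (D_deg h _ (i + 1) x hx).2 i rfl, fun i x hx h0 => ?_⟩
  · exact h.D_mul (φ ∘ₗ (gr 1).subtype) ⟨v, hv⟩ x
  · have hf := h.fin
    obtain ⟨y, hy, rfl⟩ := h.exists_deg hx
    have hb : Module.Basis (Fin n) ℂ (gr 1) := Module.finBasisOfFinrankEq ℂ (gr 1) h.dim
    have h1 := num_deg hb (i + 1) y hy
    have h2 : num hb y = 0 := by
      rw [num_apply]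
      refine Finset.sum_eq_zero fun k _ => ?_
      obtain ⟨φ, hφ⟩ := LinearMap.exists_extend (hb.coord k)
      have h3 := h0 φ
      simp only at h3
      rw [hφ, h.D_apply] at h3
      have h4 : h.equiv.symm (h.hom y) = y := h.equiv.symm_apply_apply y
      rw [h4] at h3
      have h5 : con (hb.coord k) y = 0 := by
        have := (map_eq_zero_iff h.equiv h.equiv.injective).1 h3
        exact this
      rw [h5, mul_zero]
    rw [h2] at h1
    have h6 : ((i + 1 : ℕ) : ℂ) ≠ 0 := by exact_mod_cast Nat.succ_ne_zero i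
    have h7 : y = 0 := (smul_eq_zero.1 h1.symm).resolve_left h6
    rw [h7, map_zero]

end

end Pool.Agent.Lib.MP_361a6f_ag.FL.Ext2
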