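import Pool.Agent.Lib.MP_361a6f_ag.FL.A.Defs
import Pool.Agent.Lib.MP_361a6f_ag.FL.A.Ext2

/-!
# Theorem A, row EXT1 (helper29): the cohomology of a variety of abelian type is an exterior algebra
-/

open CategoryTheory AlgebraicGeometry MonoidalCategory CartesianMonoidalCategory

universe u v w

namespace Pool.Agent.Lib.MP_361a6f_ag.FL.Ext1

open Pool.Agent.Lib.MP_361a6f_ag.H3 Pool.Agent.Lib.MP_361a6f_ag.SQ
  Pool.Agent.Lib.MP_361a6f_ag.PP Pool.Agent.Lib.MP_361a6f_ag.AV48

noncomputable section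

/-! ### The geometric instance -/

section geo

variable {k : Type u} [Field k] {W : CohomologyData.{u, 0, w} k ℂ} {𝒱 : VarietyClass k}

/-- The cohomology of a variety of abelian type satisfies the axioms `ExtAlg`. -/
theorem extAlg (hW : IsWeilCohomology W 𝒱) {X : Sch k} {g : ℕ} (hX : 𝒱.mem X g)
    (hA : AbelianType W X g) (htr : ∃ x, W.tr X x ≠ 0) : ExtAlg (W.gr X) (2 * g) where
  internal := hW.graded.internal hX
  one := hW.graded.one hX
  mul := fun hx hy => hW.graded.mul hX hx hy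
  comm := fun hx hy => hW.graded.comm hX hx hy
  gen := by
    rw [eq_top_iff]
    intro x _
    exact hA.gen x
  fin := by
    have := hW.graded.finite hX
    infer_instance
  dim := hA.rank
  top := by
    intro h0
    obtain ⟨x, hx⟩ := htr
    apply hx
    refine hom_ind (hW.graded.internal hX) (P := fun x => W.tr X x = 0) x ?_ (map_zero _) ?_
    · intro i y hy
      by_cases hi : i = 2 * g
      · subst hi
        rw [h0] at hy
        rw [(Submodule.mem_bot ℂ).1 hy, map_zero]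
      · exact hW.poincare.deg hX hy hi
    · intro a b ha hb
      rw [map_add, ha, hb, add_zero]

end geo

/-! ### The fields -/

section abs

variable {A : Type w} [Ring A] [Algebra ℂ A] {gr : ℕ → Submodule ℂ A} {n : ℕ}

theorem zero' (h : ExtAlg gr n) : ∀ x ∈ gr 0, ∃ c : ℂ, x = c • 1 := by
  intro x hx
  refine (h.deg_ind (P := fun i x => i = 0 → ∃ c : ℂ, x = c • 1) ?_ ?_ ?_ ?_ 0 x hx) rfl
  · intro i _
    exact ⟨0, (zero_smul ℂ _).symm⟩
  · rintro i x y _ _ hx hy hi
    obtain ⟨c, rfl⟩ := hx hi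
    obtain ⟨d, rfl⟩ := hy hi
    exact ⟨c + d, (add_smul c d _).symm⟩
  · intro c _
    exact ⟨c, rfl⟩
  · intro i v _ x _ _ hi
    omega

theorem span' (h : ExtAlg gr n) : ∀ (i : ℕ) (x : A), x ∈ gr i →
    x ∈ Submodule.span ℂ {y : A | ∃ v : Fin i → A, (∀ l, v l ∈ gr 1) ∧ y = (List.ofFn v).prod} := by
  refine h.deg_ind ?_ ?_ ?_ ?_
  · intro i
    exact zero_mem _
  · intro i x y _ _ hx hy
    exact add_mem hx hy
  · intro c
    refine Submodule.smul_mem _ _ (Submodule.subset_span ⟨Fin.elim0, fun l => l.elim0, ?_⟩)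
    simp
  · intro i v hv x _ hx
    have key : Submodule.span ℂ {y : A | ∃ v : Fin i → A, (∀ l, v l ∈ gr 1)
        ∧ y = (List.ofFn v).prod} ≤ (Submodule.span ℂ {y : A | ∃ v : Fin (i + 1) → A,
          (∀ l, v l ∈ gr 1) ∧ y = (List.ofFn v).prod}).comap (LinearMap.mulLeft ℂ v) := by
      rw [Submodule.span_le]
      rintro _ ⟨w, hw, rfl⟩
      refine Submodule.subset_span ⟨Fin.cons v w, fun l => ?_, ?_⟩
      · refine Fin.cases ?_ (fun l => ?_) l
        · exact hv
        · exact hw l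
      · rw [List.ofFn_succ, List.prod_cons]
        rfl
    exact key hx

theorem inj' (h : ExtAlg gr n) {I : Type} [Fintype I] [DecidableEq I] (e : I → A) (S : Set I)
    (hS : ∀ i ∈ S, e i ∈ gr 1) (hli : LinearIndependent ℂ (fun i : S => e i)) (L : ℕ)
    (u : Ten I L) (hu : ∀ w, ¬ (∀ i, w i ∈ S) → u w = 0) (ha : Anti u)
    (h0 : ∑ w, u w • (List.ofFn fun i => e (w i)).prod = 0) : u = 0 := by
  classical
  obtain ⟨q, hq⟩ := LinearMap.exists_leftInverse_of_injective
    (Finsupp.linearCombination ℂ (fun i : S => e i)) (LinearMap.ker_eq_bot.2 hli)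
  let d : S → Module.Dual ℂ (gr 1) := fun i => (Finsupp.lapply i ∘ₗ q) ∘ₗ (gr 1).subtype
  let v : I → gr 1 := fun i => if hi : i ∈ S then ⟨e i, hS i hi⟩ else 0
  have hv : ∀ j (_ : j ∈ S), (v j : A) = e j := by
    intro j hj
    simp only [v, dif_pos hj]
  have hd : ∀ i j (hi : i ∈ S) (_ : j ∈ S), d ⟨i, hi⟩ (v j) = if j = i then 1 else 0 := by
    intro i j hi hj
    have h1 : q (e j) = Finsupp.single (⟨j, hj⟩ : S) 1 := by
      have := LinearMap.congr_fun hq (Finsupp.single (⟨j, hj⟩ : S) (1 : ℂ))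
      rw [LinearMap.comp_apply, Finsupp.linearCombination_single, one_smul] at this
      exact this
    change (q (v j : A)) ⟨i, hi⟩ = _
    rw [hv j hj, h1, Finsupp.single_apply]
    simp only [Subtype.mk.injEq]
  have hsum : ∑ w, u w • ExteriorAlgebra.ιMulti ℂ L (fun i => v (w i)) = 0 := by
    apply h.hom_inj
    rw [map_zero, map_sum, ← h0]
    refine Finset.sum_congr rfl fun w _ => ?_
    rw [map_smul]
    by_cases hw : ∀ i, w i ∈ S
    · rw [ExteriorAlgebra.ιMulti_apply, map_list_prod, List.map_ofFn]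
      congr 3
      funext i
      exact (h.hom_ι _).trans (hv _ (hw i))
    · rw [hu w hw, zero_smul, zero_smul]
  funext w₀
  by_cases hw₀ : ∀ i, w₀ i ∈ S
  swap
  · exact hu w₀ hw₀
  let δ : ∀ i : ℕ, Fin i → Module.Dual ℂ (gr 1) := fun i l =>
    if hl : l.1 < L then d ⟨w₀ ⟨l, hl⟩, hw₀ _⟩ else 0
  let f : ∀ i : ℕ, (gr 1) [⋀^Fin i]→ₗ[ℂ] ℂ := fun i =>
    (Matrix.detRowAlternating (R := ℂ) (n := Fin i)).compLinearMap (LinearMap.pi (δ i))
  have h1 := congrArg (ExteriorAlgebra.liftAlternating f) hsum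
  rw [map_zero, map_sum] at h1
  have h2 : ∀ w : Fin L → I, ExteriorAlgebra.liftAlternating f
      (u w • ExteriorAlgebra.ιMulti ℂ L (fun i => v (w i)))
      = ∑ σ : Equiv.Perm (Fin L), ((Equiv.Perm.sign σ : ℤ) : ℂ) *
        (if w ∘ σ = w₀ then u w else 0) := by
    intro w
    rw [map_smul, ExteriorAlgebra.liftAlternating_apply_ιMulti]
    by_cases hw : ∀ i, w i ∈ S
    · have h3 : f L (fun i => v (w i)) = Matrix.det (fun l' l => if w l' = w₀ l then (1 : ℂ) else 0) := by
        change Matrix.det (fun l' l => δ L l (v (w l'))) = _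
        congr 1
        funext l' l
        have : δ L l = d ⟨w₀ l, hw₀ l⟩ := dif_pos l.2
        rw [this, hd _ _ _ (hw l')]
      rw [h3, Matrix.det_apply, Finset.smul_sum]
      refine Finset.sum_congr rfl fun σ _ => ?_
      have h4 : (∏ i, if w (σ i) = w₀ i then (1 : ℂ) else 0) = if w ∘ σ = w₀ then 1 else 0 := by
        rw [Finset.prod_boole]
        congr 1
        simp [funext_iff]
      rw [h4, Units.smul_def, zsmul_eq_mul, smul_eq_mul]
      split_ifs <;> ring
    · rw [hu w hw, zero_smul]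
      simp
  simp only [h2] at h1
  rw [Finset.sum_comm] at h1
  have h5 : ∀ σ : Equiv.Perm (Fin L), ∑ w : Fin L → I, ((Equiv.Perm.sign σ : ℤ) : ℂ) *
      (if w ∘ σ = w₀ then u w else 0) = u w₀ := by
    intro σ
    rw [← Finset.mul_sum]
    have h6 : ∀ w : Fin L → I, (w ∘ σ = w₀) ↔ (w = w₀ ∘ σ.symm) := by
      intro w
      constructor
      · rintro rfl
        funext i
        simp
      · rintro rfl
        funext i
        simp
    simp only [h6]
    rw [Finset.sum_ite_eq' Finset.univ, if_pos (Finset.mem_univ _), ha σ.symm w₀, ← mul_assoc,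
      ← Int.cast_mul, Equiv.Perm.sign_symm, Int.units_coe_mul_self, Int.cast_one, one_mul]
  simp only [h5] at h1
  rw [Finset.sum_const, Finset.card_univ, nsmul_eq_mul] at h1
  exact (mul_eq_zero.1 h1).resolve_left (Nat.cast_ne_zero.2 Fintype.card_ne_zero)

end abs

/-! ### The fields `sq`, `zero`, `span`, `inj` of `ExtFacts` -/

section fields

variable {k : Type u} [Field k] {W : CohomologyData.{u, 0, w} k ℂ} {𝒱 : VarietyClass k}
  (hW : IsWeilCohomology W 𝒱) {X : Sch k} {g : ℕ} (hX : 𝒱.mem X g)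
  (hA : AbelianType W X g) (htr : ∃ x, W.tr X x ≠ 0)

include hW hX hA htr

theorem sq : ∀ v ∈ W.gr X 1, v * v = 0 := fun _ hv => (extAlg hW hX hA htr).sq hv

theorem zero : ∀ x ∈ W.gr X 0, ∃ c : ℂ, x = c • 1 := zero' (extAlg hW hX hA htr)

theorem span : ∀ i, ∀ x ∈ W.gr X i, x ∈ Submodule.span ℂ {y : W.coh X | ∃ v : Fin i → W.coh X,
    (∀ l, v l ∈ W.gr X 1) ∧ y = (List.ofFn v).prod} := span' (extAlg hW hX hA htr)

theorem inj : ∀ {I : Type} [Fintype I] [DecidableEq I] (e : I → W.coh X) (S : Set I),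
    (∀ i ∈ S, e i ∈ W.gr X 1) → LinearIndependent ℂ (fun i : S => e i) →
    ∀ (L : ℕ) (u : Ten I L), (∀ w, ¬ (∀ i, w i ∈ S) → u w = 0) → Anti u →
      ∑ w, u w • (List.ofFn fun i => e (w i)).prod = 0 → u = 0 :=
  fun e S hS hli L u hu ha h0 => inj' (extAlg hW hX hA htr) e S hS hli L u hu ha h0

end fields

/-- ROWS EXT1 and EXT2. -/
theorem extFacts : ExtStatement.{u, w} := by
  intro k _ W 𝒱 hW X g hX hA htr
  exact ⟨sq hW hX hA htr, zero hW hX hA htr, span hW hX hA htr, inj hW hX hA htr,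
    Ext2.ext_con (extAlg hW hX hA htr), Ext2.ext_ext (extAlg hW hX hA htr)⟩

end

end Pool.Agent.Lib.MP_361a6f_ag.FL.Ext1
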