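import Pool.Agent.Lib.MP_361a6f_ag.FL.GM
import Pool.Agent.Lib.MP_361a6f_ag.FL.A.Defs

/-!
# Row GENA: the real structures fix everything that is generated
-/

open CategoryTheory AlgebraicGeometry MonoidalCategory CartesianMonoidalCategory

universe u v w

set_option autoImplicit false

namespace Pool.Agent.Lib.MP_361a6f_ag.FL

open Pool.Agent.Lib.MP_361a6f_ag.H3 Pool.Agent.Lib.MP_361a6f_ag.SQ
  Pool.Agent.Lib.MP_361a6f_ag.PP

/-- the real structures form a compatible system -/
theorem Host.JFactsA.jsys {k : Type u} [Field k] {m : ℕ} {W : CohomologyData.{u, 0, w} k ℂ}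
    {𝒱 : VarietyClass k} {H : Host W 𝒱 m}
    {J : ∀ P : Prd m, W.coh (P.obj H.X) →ₛₗ[starRingEnd ℂ] W.coh (P.obj H.X)}
    (F : H.JFactsA J) : GM.JSys W H.X J where
  gr P := (F.rs P).gr
  one P := (F.rs P).one
  tr P := (F.rs P).tr
  surj P := by
    have _ := H.hW.finite (H.memP P)
    refine PCA.surj_of_inj (J P) ?_
    rw [injective_iff_map_eq_zero]
    intro x hx
    by_contra hne
    obtain ⟨r, hr, h⟩ := (F.rs P).pos x hne
    rw [hx] at h
    have h0 : psi W (P.obj H.X) (P.pol W H.ξ) (H.LamP P) (F.rs P).slm.internal x 0 = 0 := by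
      rw [psi, map_zero, mul_zero, map_zero]
    rw [h0] at h
    exact hr.ne' (by exact_mod_cast h.symm)
  prod := F.prod

/-- multiplicativity on all products -/
theorem Host.JFactsA.mul_all {k : Type u} [Field k] {m : ℕ} {W : CohomologyData.{u, 0, w} k ℂ}
    {𝒱 : VarietyClass k} {H : Host W 𝒱 m}
    {J : ∀ P : Prd m, W.coh (P.obj H.X) →ₛₗ[starRingEnd ℂ] W.coh (P.obj H.X)}
    (F : H.JFactsA J) (P : Prd m) : ∀ x y : W.coh (P.obj H.X), J P (x * y) = J P x * J P y := by
  induction P with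
  | leaf a => exact F.mul a
  | prod P Q hP hQ =>
    exact GMpre.mul_prod H.hW (H.memP P) (H.memP Q) (J P) (J Q) (J (.prod P Q))
      (F.prod P Q) (F.rs P).gr (F.rs Q).gr hP hQ

/-- Row GENA. -/
theorem genA : GenAStatement.{u, w} := by
  intro k _ W 𝒱 m H J F
  have hpb := fun (P Q : Prd m) (f : Sch.Mor (P.obj H.X) (Q.obj H.X))
      (hf : CoordMor H.X 3 P Q f) =>
    GM.pull_coord H.hW H.mem F.jsys (fun _ => F.mul_all) P Q f hf
  have hpf := fun (P Q : Prd m) (f : Sch.Mor (P.obj H.X) (Q.obj H.X))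
      (hf : CoordMor H.X 3 P Q f) =>
    GMpre.push_comm H.hW (H.memP P) (H.memP Q) (J P) (J Q) (F.jsys.tr P) (F.jsys.tr Q)
      (F.jsys.surj Q) f (hpb P Q f hf)
  intro P z hz
  induction hz with
  | leaf a l z hz => exact F.fix a l z hz
  | pair a b z hz => exact F.fix2 a b z hz
  | ext P Q z z' _ _ h h' =>
    exact (F.prod P Q z z').trans (by rw [h, h'])
  | cup P z z' _ _ h h' =>
    exact (F.mul_all P z z').trans (by rw [h, h'])
  | pb P Q f z hf _ h =>
    exact (hpb P Q f hf z).trans (congrArg _ h)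
  | pf P Q f z hf _ h =>
    exact (hpf P Q f hf z).trans (congrArg _ h)

end Pool.Agent.Lib.MP_361a6f_ag.FL
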