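import Pool.Agent.Lib.MP_361a6f_ag.FL.A.JaT

/-!
# Row JA: the real structures on all products
-/

open CategoryTheory AlgebraicGeometry MonoidalCategory CartesianMonoidalCategory

universe u v w

set_option autoImplicit false
set_option linter.unusedSectionVars false

namespace Pool.Agent.Lib.MP_361a6f_ag.FL

open Pool.Agent.Lib.MP_361a6f_ag.H3 Pool.Agent.Lib.MP_361a6f_ag.SQ
  Pool.Agent.Lib.MP_361a6f_ag.IP2 Pool.Agent.Lib.MP_361a6f_ag.PP

namespace JaT

open GJ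

variable {k : Type u} [Field k] {W : CohomologyData.{u, 0, w} k ℂ} {𝒱 : VarietyClass k} {m : ℕ}
  (H : Host W 𝒱 m) (a1 : Alg1) (a2 : Alg2) {g : Matrix H.I H.I ℂ} (hg : IsG H.D g)
  (ge : H.GeFacts)

/-! ### The leaves -/

theorem jj_neg {I Λ : Type} (D : Dat I Λ) (u : Ten I 1)
    (h : ∀ w, u w ≠ 0 → D.odd (D.typ (w 0))) : jT D (jT D u) = -u := by
  funext w
  rw [XY.jT_jT, Pi.neg_apply, Fin.prod_univ_one]
  by_cases h0 : u w = 0
  · rw [h0, mul_zero, neg_zero]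
  · rw [(XY.s_mul D (w 0)).2 (h w h0), neg_one_mul]

include hg ge in
theorem leaf_rs (hsta : StaStatement.{w}) (hr : HrStatement.{u, w}) (a : Fin m)
    (hAb : AbelianType W (H.X a) (H.n a)) (hext : ExtFacts W (H.X a))
    (hpd : PositiveDivisor W (H.X a) (H.n a) (H.ξ a))
    {J : W.coh (H.X a) →ₛₗ[starRingEnd ℂ] W.coh (H.X a)} (hJ : LeafJ H a1 g a J) :
    IsRS W (H.X a) (H.n a) (H.ξ a) (H.Lam a) J := by
  refine hr H.hW (H.mem a) hAb hext hpd (H.lam a) J hJ.one hJ.mul hJ.gr ?_ ?_ ?_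
  · intro v hv w hw
    rw [hJ.on1 v hv, hJ.on1 w hw]
    exact J_conj H a1 hg ge (.leaf a) v w
  · intro v hv hv0
    rw [hJ.on1 v hv]
    exact J_pos H a1 hg ge (.leaf a) v hv0
  · intro v hv
    rw [hJ.on1 v hv, hJ.on1 _ (J_gr H a1 hg ge hsta (.leaf a) 1 v hv)]
    refine ge.inj (.leaf a) ?_
    have h1 : H.tc (.leaf a) (GJ.J H a1 g (.leaf a) (GJ.J H a1 g (.leaf a) v))
        = jT H.D (jT H.D (H.tc (.leaf a) v)) := by
      rw [tc_J H a1 hg ge, tc_J H a1 hg ge, JT_JT H.D g a1 hg]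
    refine h1.trans ?_
    refine Eq.trans ?_ (map_neg (H.tc (.leaf a)) v).symm
    refine jj_neg H.D (H.tc (.leaf a) v : Ten H.I 1) fun w hw => ?_
    rw [H.odd_iff]
    have h2 : ∑ l : Fin 1, (H.D.typ (w l)).2 = 1 := by
      by_contra hne
      exact hw (tc_gr H ge hsta (.leaf a) hv w hne)
    rw [Fin.sum_univ_one] at h2
    rw [h2]
    exact odd_one

/-! ### The products -/

section prod

variable (Jl : ∀ a, W.coh (H.X a) →ₛₗ[starRingEnd ℂ] W.coh (H.X a))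
  (hl : ∀ a, IsRS W (H.X a) (H.n a) (H.ξ a) (H.Lam a) (Jl a)) (hRsp : RspStatement.{u, w})

include hRsp in
theorem rsp_prod (P Q : Prd m) {jP : W.coh (P.obj H.X) →ₛₗ[starRingEnd ℂ] W.coh (P.obj H.X)}
    {jQ : W.coh (Q.obj H.X) →ₛₗ[starRingEnd ℂ] W.coh (Q.obj H.X)}
    (hP : IsRS W (P.obj H.X) (P.dim H.n) (P.pol W H.ξ) (H.LamP P) jP)
    (hQ : IsRS W (Q.obj H.X) (Q.dim H.n) (Q.pol W H.ξ) (H.LamP Q) jQ) :
    ∃ j : W.coh ((Prd.prod P Q).obj H.X) →ₛₗ[starRingEnd ℂ] W.coh ((Prd.prod P Q).obj H.X),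
      IsRS W ((Prd.prod P Q).obj H.X) ((Prd.prod P Q).dim H.n) ((Prd.prod P Q).pol W H.ξ)
        (H.LamP (.prod P Q)) j ∧
      ∀ y x, j (W.pull (fst (P.obj H.X) (Q.obj H.X)) y * W.pull (snd (P.obj H.X) (Q.obj H.X)) x)
        = W.pull (fst (P.obj H.X) (Q.obj H.X)) (jP y)
          * W.pull (snd (P.obj H.X) (Q.obj H.X)) (jQ x) :=
  hRsp H.hW (H.memP P) (H.memP Q) (H.hW.alg_gr (H.memP P) (j := 1) (H.lamP P).2)
    (H.hW.alg_gr (H.memP Q) (j := 1) (H.lamP Q).2) hP hQ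

/-- the real structures, with their properties -/
noncomputable def JR : (P : Prd m) →
    {J : W.coh (P.obj H.X) →ₛₗ[starRingEnd ℂ] W.coh (P.obj H.X) //
      IsRS W (P.obj H.X) (P.dim H.n) (P.pol W H.ξ) (H.LamP P) J}
  | .leaf a => ⟨Jl a, hl a⟩
  | .prod P Q => ⟨Classical.choose (rsp_prod H hRsp P Q (JR P).2 (JR Q).2),
      (Classical.choose_spec (rsp_prod H hRsp P Q (JR P).2 (JR Q).2)).1⟩

theorem JR_prod (P Q : Prd m) (y : W.coh (P.obj H.X)) (x : W.coh (Q.obj H.X)) :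
    (JR H Jl hl hRsp (.prod P Q)).1 (W.pull (fst (P.obj H.X) (Q.obj H.X)) y
        * W.pull (snd (P.obj H.X) (Q.obj H.X)) x)
      = W.pull (fst (P.obj H.X) (Q.obj H.X)) ((JR H Jl hl hRsp P).1 y)
        * W.pull (snd (P.obj H.X) (Q.obj H.X)) ((JR H Jl hl hRsp Q).1 x) :=
  (Classical.choose_spec (rsp_prod H hRsp P Q (JR H Jl hl hRsp P).2 (JR H Jl hl hRsp Q).2)).2 y x

end prod

/-! ### Two factors -/

section two

variable (a b : Fin m)

/-- the basis of the cohomology of the product of two factors -/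
noncomputable def E2 (w : Fin 2 → H.I) : W.coh (H.X a ⊗ H.X b) :=
  W.pull (fst (H.X a) (H.X b)) (H.e a (w 0)) * W.pull (snd (H.X a) (H.X b)) (H.e b (w 1))

/-- the coordinates -/
noncomputable def tc2 : W.coh (H.X a ⊗ H.X b) →ₗ[ℂ] Ten H.I 2 := H.tc (.prod (.leaf a) (.leaf b))

include ge in
theorem expand2 (z : W.coh (H.X a ⊗ H.X b)) : z = ∑ w : Fin 2 → H.I, tc2 H a b z w • E2 H a b w :=
  ge.expand (.prod (.leaf a) (.leaf b)) z

include ge in
theorem tc_off2 (z : W.coh (H.X a ⊗ H.X b)) (w : Fin 2 → H.I) (h : tc2 H a b z w ≠ 0) :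
    (H.D.typ (w 0)).1 = a ∧ (H.D.typ (w 1)).1 = b := by
  constructor
  · by_contra hne
    exact h (ge.tc_off (.prod (.leaf a) (.leaf b)) z w ⟨(0 : Fin 2), hne⟩)
  · by_contra hne
    exact h (ge.tc_off (.prod (.leaf a) (.leaf b)) z w ⟨(1 : Fin 2), hne⟩)

include ge in
theorem tc_gr2 (hsta : StaStatement.{w}) (z : W.coh (H.X a ⊗ H.X b))
    (hz : z ∈ W.gr (H.X a ⊗ H.X b) 2) (w : Fin 2 → H.I) (h : tc2 H a b z w ≠ 0) :
    (H.D.typ (w 0)).2 + (H.D.typ (w 1)).2 = 2 := by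
  have h2 : ∑ l : Fin 2, (H.D.typ (w l)).2 = 2 := by
    by_contra hne
    exact h (tc_gr H ge hsta (.prod (.leaf a) (.leaf b)) hz w hne)
  rwa [Fin.sum_univ_two] at h2

include ge in
theorem tc_sum2 (u : Ten H.I 2) (hu : ∀ w : Fin 2 → H.I, u w ≠ 0 →
    (H.D.typ (w 0)).1 = a ∧ (H.D.typ (w 1)).1 = b) :
    tc2 H a b (∑ w : Fin 2 → H.I, u w • E2 H a b w) = u := by
  refine ge.tc_sum (.prod (.leaf a) (.leaf b)) u fun w hw => ?_
  by_contra hne
  obtain ⟨h0, h1⟩ := hu w hne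
  obtain ⟨i, hi⟩ := hw
  have : ∀ i : Fin 2, (H.D.typ ((w : Fin 2 → H.I) i)).1
      = (Prd.prod (.leaf a) (.leaf b) : Prd m).lw i := by
    intro i
    fin_cases i
    · exact h0
    · exact h1
  exact hi (this i)

open Classical in
/-- the part with the letters `(a, 1), (b, 1)` -/
noncomputable def u11 (u : Ten H.I 2) : Ten H.I 2 :=
  fun w => if H.D.typ (w 0) = (a, 1) ∧ H.D.typ (w 1) = (b, 1) then u w else 0

theorem u11_of (u : Ten H.I 2) (w : Fin 2 → H.I) (h : H.D.typ (w 0) = (a, 1) ∧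
    H.D.typ (w 1) = (b, 1)) : u11 H a b u w = u w := if_pos h

theorem u11_not (u : Ten H.I 2) (w : Fin 2 → H.I) (h : ¬ (H.D.typ (w 0) = (a, 1) ∧
    H.D.typ (w 1) = (b, 1))) : u11 H a b u w = 0 := if_neg h

/-- the corresponding part of a class -/
noncomputable def Z11 (z : W.coh (H.X a ⊗ H.X b)) : W.coh (H.X a ⊗ H.X b) :=
  ∑ w : Fin 2 → H.I, u11 H a b (tc2 H a b z) w • E2 H a b w

include ge in
theorem tc_Z11 (z : W.coh (H.X a ⊗ H.X b)) :
    tc2 H a b (Z11 H a b z) = u11 H a b (tc2 H a b z) := by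
  refine tc_sum2 H ge a b _ fun w hw => ?_
  by_cases h : H.D.typ (w 0) = (a, 1) ∧ H.D.typ (w 1) = (b, 1)
  · rw [h.1, h.2]
    exact ⟨rfl, rfl⟩
  · exact absurd (u11_not H a b _ w h) hw

include ge in
/-- the rest -/
theorem rest (hsta : StaStatement.{w}) (hext : ∀ a, ExtFacts W (H.X a))
    (z : W.coh (H.X a ⊗ H.X b)) (hz : z ∈ W.gr (H.X a ⊗ H.X b) 2) :
    ∃ y ∈ W.gr (H.X b) 2, ∃ x ∈ W.gr (H.X a) 2,
      z = W.pull (snd (H.X a) (H.X b)) y + W.pull (fst (H.X a) (H.X b)) x + Z11 H a b z := by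
  obtain ⟨u, hu⟩ : ∃ u, u = tc2 H a b z := ⟨_, rfl⟩
  have hexp : z = ∑ w : Fin 2 → H.I, u w • E2 H a b w := by
    rw [hu]
    exact expand2 H ge a b z
  have hZ : Z11 H a b z = ∑ w : Fin 2 → H.I, u11 H a b u w • E2 H a b w := by
    rw [hu]
    rfl
  have key : z - Z11 H a b z ∈ (W.gr (H.X b) 2).map (W.pull (snd (H.X a) (H.X b))).toLinearMap ⊔
      (W.gr (H.X a) 2).map (W.pull (fst (H.X a) (H.X b))).toLinearMap := by
    have h1 : z - Z11 H a b z = ∑ w : Fin 2 → H.I, (u w - u11 H a b u w) • E2 H a b w := by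
      rw [hZ]
      conv_lhs => rw [hexp]
      rw [← Finset.sum_sub_distrib]
      exact Finset.sum_congr rfl fun w _ => (sub_smul _ _ _).symm
    rw [h1]
    refine Submodule.sum_mem _ fun w _ => ?_
    by_cases hS : H.D.typ (w 0) = (a, 1) ∧ H.D.typ (w 1) = (b, 1)
    · rw [u11_of H a b u w hS, sub_self, zero_smul]
      exact zero_mem _
    rw [u11_not H a b u w hS, sub_zero]
    by_cases h0 : u w = 0
    · rw [h0, zero_smul]
      exact zero_mem _
    refine Submodule.smul_mem _ _ ?_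
    rw [hu] at h0
    obtain ⟨ha, hb⟩ := tc_off2 H ge a b z w h0
    have hdeg := tc_gr2 H ge a b hsta z hz w h0
    have e0 := H.e_gr a (w 0)
    have e1 := H.e_gr b (w 1)
    unfold E2
    rcases Nat.lt_trichotomy (H.D.typ (w 0)).2 1 with h | h | h
    · have hd0 : (H.D.typ (w 0)).2 = 0 := by omega
      have hd1 : (H.D.typ (w 1)).2 = 2 := by omega
      rw [hd0] at e0
      rw [hd1] at e1
      obtain ⟨c, hc⟩ := (hext a).zero _ e0
      refine Submodule.mem_sup_left ⟨c • H.e b (w 1), Submodule.smul_mem _ _ e1, ?_⟩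
      rw [hc, AlgHom.toLinearMap_apply, map_smul, map_smul, map_one, smul_one_mul]
    · refine absurd ⟨Prod.ext ha h, Prod.ext hb ?_⟩ hS
      show (H.D.typ (w 1)).2 = 1
      omega
    · have hd0 : (H.D.typ (w 0)).2 = 2 := by omega
      have hd1 : (H.D.typ (w 1)).2 = 0 := by omega
      rw [hd0] at e0
      rw [hd1] at e1
      obtain ⟨c, hc⟩ := (hext b).zero _ e1
      refine Submodule.mem_sup_right ⟨c • H.e a (w 0), Submodule.smul_mem _ _ e0, ?_⟩
      rw [hc, AlgHom.toLinearMap_apply, map_smul, map_smul, map_one, mul_smul_comm, mul_one]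
  obtain ⟨_, ⟨y, hy, rfl⟩, _, ⟨x, hx, rfl⟩, e⟩ := Submodule.mem_sup.1 key
  refine ⟨y, hy, x, hx, ?_⟩
  rw [AlgHom.toLinearMap_apply, AlgHom.toLinearMap_apply] at e
  rw [e, sub_add_cancel]

/-- `Z11` is killed by the top classes of the first factor -/
theorem Z11_left (z : W.coh (H.X a ⊗ H.X b)) {t : W.coh (H.X a)}
    (ht : t ∈ W.gr (H.X a) (2 * H.n a)) :
    W.pull (fst (H.X a) (H.X b)) t * Z11 H a b z = 0 := by
  unfold Z11
  rw [Finset.mul_sum]
  refine Finset.sum_eq_zero fun w _ => ?_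
  by_cases hS : H.D.typ (w 0) = (a, 1) ∧ H.D.typ (w 1) = (b, 1)
  · have e0 := H.e_gr a (w 0)
    rw [hS.1] at e0
    have h1 : t * H.e a (w 0) = 0 :=
      H.hW.top_gr (H.mem a) (H.hW.mul_gr (H.mem a) ht e0) (by show 2 * H.n a < 2 * H.n a + 1; omega)
    unfold E2
    rw [mul_smul_comm, ← mul_assoc, ← map_mul, h1, map_zero, zero_mul, smul_zero]
  · rw [u11_not H a b _ w hS, zero_smul, mul_zero]

/-- `Z11` is killed by the top classes of the second factor -/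
theorem Z11_right (z : W.coh (H.X a ⊗ H.X b)) {t : W.coh (H.X b)}
    (ht : t ∈ W.gr (H.X b) (2 * H.n b)) :
    Z11 H a b z * W.pull (snd (H.X a) (H.X b)) t = 0 := by
  unfold Z11
  rw [Finset.sum_mul]
  refine Finset.sum_eq_zero fun w _ => ?_
  by_cases hS : H.D.typ (w 0) = (a, 1) ∧ H.D.typ (w 1) = (b, 1)
  · have e1 := H.e_gr b (w 1)
    rw [hS.2] at e1
    have h1 : H.e b (w 1) * t = 0 :=
      H.hW.top_gr (H.mem b) (H.hW.mul_gr (H.mem b) e1 ht) (by show 2 * H.n b < 1 + 2 * H.n b; omega)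
    unfold E2
    rw [smul_mul_assoc, mul_assoc, ← map_mul, h1, map_zero, mul_zero, smul_zero]
  · rw [u11_not H a b _ w hS, zero_smul, zero_mul]

theorem alg_of_smul {X : Sch k} {j : ℕ} {t : ℂ} (ht : RatPos t) {y : W.coh X}
    (h : t • y ∈ W.alg X j) : y ∈ W.alg X j := by
  obtain ⟨q, hq, rfl⟩ := ht
  have h1 := CohomologyData.alg_smul (W := W) q⁻¹ h
  rw [smul_smul] at h1
  have h2 : ((q⁻¹ : ℚ) : ℂ) * (q : ℂ) = 1 := by
    have : ((q⁻¹ * q : ℚ) : ℂ) = 1 := by rw [inv_mul_cancel₀ hq.ne', Rat.cast_one]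
    rwa [Rat.cast_mul] at this
  rwa [h2, one_smul] at h1

/-- the antilinear operator in coordinates on the product of two factors -/
noncomputable def G2 (g : Matrix H.I H.I ℂ) :
    W.coh (H.X a ⊗ H.X b) →ₛₗ[starRingEnd ℂ] W.coh (H.X a ⊗ H.X b) :=
  GJ.J H a1 g (.prod (.leaf a) (.leaf b))

include hg ge in
theorem tc_G2 (z : W.coh (H.X a ⊗ H.X b)) :
    tc2 H a b (G2 H a1 a b g z) = JT H.D g (tc2 H a b z) :=
  tc_J H a1 hg ge (.prod (.leaf a) (.leaf b)) z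

include hg ge a2 in
theorem G2_prod (x : W.coh (H.X a)) (y : W.coh (H.X b)) :
    G2 H a1 a b g (W.pull (fst (H.X a) (H.X b)) x * W.pull (snd (H.X a) (H.X b)) y)
      = W.pull (fst (H.X a) (H.X b)) (GJ.J H a1 g (.leaf a) x)
        * W.pull (snd (H.X a) (H.X b)) (GJ.J H a1 g (.leaf b) y) :=
  J_prod H a1 a2 hg ge (.leaf a) (.leaf b) x y

include hg ge a2 in
/-- the classes of codimension `1` on two factors are fixed -/
theorem fix2 (hsta : StaStatement.{w}) (hext : ∀ a, ExtFacts W (H.X a))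
    (hpd : ∀ a, PositiveDivisor W (H.X a) (H.n a) (H.ξ a)) (hF : H.FixA g)
    (Jl : ∀ c : Fin m, W.coh (H.X c) →ₛₗ[starRingEnd ℂ] W.coh (H.X c))
    (J2 : W.coh (H.X a ⊗ H.X b) →ₛₗ[starRingEnd ℂ] W.coh (H.X a ⊗ H.X b))
    (hone : ∀ c : Fin m, Jl c 1 = 1)
    (hprod : ∀ (x : W.coh (H.X a)) (y : W.coh (H.X b)),
      J2 (W.pull (fst (H.X a) (H.X b)) x * W.pull (snd (H.X a) (H.X b)) y)
      = W.pull (fst (H.X a) (H.X b)) (Jl a x) * W.pull (snd (H.X a) (H.X b)) (Jl b y))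
    (hon1 : ∀ (c : Fin m), ∀ v ∈ W.gr (H.X c) 1, Jl c v = GJ.J H a1 g (.leaf c) v)
    (hfix : ∀ (c : Fin m) (l : ℕ) (z : W.coh (H.X c)), z ∈ W.alg (H.X c) l → Jl c z = z)
    (z : W.coh (H.X a ⊗ H.X b)) (hz : z ∈ W.alg (H.X a ⊗ H.X b) 1) : J2 z = z := by
  have ha := H.mem a
  have hb := H.mem b
  have hab := 𝒱.prod ha hb
  obtain ⟨y, hy, x, hx, e⟩ := rest H ge a b hsta hext z (H.hW.alg_gr hab hz)
  have hta : H.ξ a ^ H.n a ∈ W.gr (H.X a) (2 * H.n a) :=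
    H.hW.alg_gr ha (H.hW.pow_alg ha (hpd a).1 _)
  have htb : H.ξ b ^ H.n b ∈ W.gr (H.X b) (2 * H.n b) :=
    H.hW.alg_gr hb (H.hW.pow_alg hb (hpd b).1 _)
  -- the component on the second factor is algebraic
  have hy' : y ∈ W.alg (H.X b) 1 := by
    refine alg_of_smul (W := W) (hpd a).2 ?_
    have h1 : W.push (snd (H.X a) (H.X b)) (W.pull (fst (H.X a) (H.X b)) (H.ξ a ^ H.n a) * z)
        = W.tr (H.X a) (H.ξ a ^ H.n a) • y := by
      conv_lhs => rw [e]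
      have h2 : H.ξ a ^ H.n a * x = 0 :=
        H.hW.top_gr ha (H.hW.mul_gr ha hta hx) (by omega)
      rw [mul_add, Z11_left H a b z hta, add_zero, mul_add, ← map_mul, h2, map_zero, add_zero,
        push_snd_ext H.hW ha hb]
    have h3 := H.hW.push_alg hab hb (snd (H.X a) (H.X b)) (j := 1)
      (H.hW.mul_alg hab (H.hW.pull_alg hab ha (fst (H.X a) (H.X b))
        (H.hW.pow_alg ha (hpd a).1 (H.n a))) hz) (by omega)
    rw [h1] at h3
    exact h3
  have hx' : x ∈ W.alg (H.X a) 1 := by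
    refine alg_of_smul (W := W) (hpd b).2 ?_
    have h1 : W.push (fst (H.X a) (H.X b)) (z * W.pull (snd (H.X a) (H.X b)) (H.ξ b ^ H.n b))
        = W.tr (H.X b) (H.ξ b ^ H.n b) • x := by
      conv_lhs => rw [e]
      have h2 : y * H.ξ b ^ H.n b = 0 :=
        H.hW.top_gr hb (H.hW.mul_gr hb hy htb) (by omega)
      rw [add_mul, Z11_right H a b z htb, add_zero, add_mul, ← map_mul, h2, map_zero, zero_add,
        H.hW.push_fst ha hb]
    have h3 := H.hW.push_alg hab ha (fst (H.X a) (H.X b)) (j := 1)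
      (H.hW.mul_alg hab hz (H.hW.pull_alg hab hb (snd (H.X a) (H.X b))
        (H.hW.pow_alg hb (hpd b).1 (H.n b)))) (by omega)
    rw [h1] at h3
    exact h3
  have hZ : Z11 H a b z ∈ W.alg (H.X a ⊗ H.X b) 1 := by
    have h1 : Z11 H a b z = z - W.pull (snd (H.X a) (H.X b)) y
        - W.pull (fst (H.X a) (H.X b)) x := by
      rw [eq_sub_iff_add_eq, eq_sub_iff_add_eq]
      conv_rhs => rw [e]
      abel
    rw [h1]
    exact sub_mem (sub_mem hz (H.hW.pull_alg hab hb _ hy')) (H.hW.pull_alg hab ha _ hx')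
  -- the operator on the three parts
  have j1 : J2 (W.pull (snd (H.X a) (H.X b)) y) = W.pull (snd (H.X a) (H.X b)) y := by
    have h1 := hprod 1 y
    rwa [hone a, hfix b 1 y hy', map_one, one_mul] at h1
  have j2 : J2 (W.pull (fst (H.X a) (H.X b)) x) = W.pull (fst (H.X a) (H.X b)) x := by
    have h1 := hprod x 1
    rwa [hone b, hfix a 1 x hx', map_one, mul_one] at h1
  have j3 : J2 (Z11 H a b z) = Z11 H a b z := by
    have hJJ : J2 (Z11 H a b z) = G2 H a1 a b g (Z11 H a b z) := by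
      unfold Z11
      rw [map_sum, map_sum]
      refine Finset.sum_congr rfl fun w _ => ?_
      rw [LinearMap.map_smulₛₗ, LinearMap.map_smulₛₗ]
      by_cases hS : H.D.typ (w 0) = (a, 1) ∧ H.D.typ (w 1) = (b, 1)
      · have e0 := H.e_gr a (w 0)
        rw [hS.1] at e0
        have e1 := H.e_gr b (w 1)
        rw [hS.2] at e1
        unfold E2
        rw [hprod, G2_prod H a1 a2 hg ge a b, hon1 a _ e0, hon1 b _ e1]
      · rw [u11_not H a b _ w hS, map_zero, zero_smul, zero_smul]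
    rw [hJJ]
    refine ge.inj (.prod (.leaf a) (.leaf b)) ?_
    show tc2 H a b (G2 H a1 a b g (Z11 H a b z)) = tc2 H a b (Z11 H a b z)
    rw [tc_G2 H a1 hg ge a b, tc_Z11 H ge a b z]
    refine hF.pair a b (u11 H a b (tc2 H a b z)) ⟨?_, ?_⟩
    · refine AddSubgroup.subset_closure (Or.inr ⟨.prod (.leaf a) (.leaf b), rfl, Z11 H a b z,
        alg_le_tot H.hW _ 1 hZ, ?_⟩)
      rw [← tc_Z11 H ge a b z]
      rfl
    · exact fun w hw => u11_not H a b _ w hw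
  conv_lhs => rw [e]
  conv_rhs => rw [e]
  rw [map_add, map_add, j1, j2, j3]

end two

end JaT

open JaT in
/-- Row JA. -/
theorem ja (hsta : StaStatement.{w}) (hRsp : RspStatement.{u, w}) (a1 : Alg1) (a2 : Alg2)
    (hge : GeStatement.{u, w}) (hr : HrStatement.{u, w}) : JaStatement.{u, w} := by
  intro k _ W 𝒱 m H hAb hext hpd hcmp g hF
  have ge := hge H
  have hg := hF.G
  choose Jl hJl using fun a => exists_leaf H a1 hg ge hsta a (hext a)
  have hl : ∀ a, IsRS W (H.X a) (H.n a) (H.ξ a) (H.Lam a) (Jl a) := fun a =>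
    leaf_rs H a1 hg ge hsta hr a (hAb a) (hext a) (hpd a) (hJl a)
  have hfix : ∀ (a : Fin m) (l : ℕ) (z : W.coh (H.X a)), z ∈ W.alg (H.X a) l → Jl a z = z := by
    intro a l z hz
    obtain ⟨u, hu, rfl⟩ := hcmp.surj a l z hz
    rw [J_mul H a1 ge (hJl a) u hu.on]
    have h1 : GJ.JT H.D g u = u := hF.anti a _ u hu
    rw [h1]
  refine ⟨fun P => (JR H Jl hl hRsp P).1, ?_, ?_, ?_, ?_, ?_⟩
  · exact fun P => (JR H Jl hl hRsp P).2
  · exact JR_prod H Jl hl hRsp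
  · exact fun a => (hJl a).mul
  · exact hfix
  · intro a b z hz
    exact fix2 H a1 a2 hg ge a b hsta hext hpd hF Jl (JR H Jl hl hRsp (.prod (.leaf a) (.leaf b))).1
      (fun c => (hJl c).one) (JR_prod H Jl hl hRsp (.leaf a) (.leaf b)) (fun c => (hJl c).on1)
      hfix z hz

end Pool.Agent.Lib.MP_361a6f_ag.FL
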