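import Pool.Agent.Lib.MP_361a6f_ag.FL.A.Defs
import Pool.Agent.Lib.MP_361a6f_ag.FL.GJ
import Pool.Agent.Lib.MP_361a6f_ag.FL.XY

/-!
# Row JA, first part: the multiplicative real structure on the cohomology of a factor
-/

open CategoryTheory AlgebraicGeometry MonoidalCategory CartesianMonoidalCategory

universe u v w

set_option autoImplicit false
set_option linter.unusedSectionVars false

namespace Pool.Agent.Lib.MP_361a6f_ag.FL

open Pool.Agent.Lib.MP_361a6f_ag.H3 Pool.Agent.Lib.MP_361a6f_ag.SQ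
  Pool.Agent.Lib.MP_361a6f_ag.IP2 Pool.Agent.Lib.MP_361a6f_ag.PP

namespace JaT

open GJ

/-! ### The matrix of the antilinear operator -/

section ten

variable {I Λ : Type} [Fintype I] [DecidableEq I] [DecidableEq Λ] (D : Dat I Λ)
  (g : Matrix I I ℂ)

/-- the matrix of the antilinear operator -/
noncomputable def A (x y : I) : ℂ :=
  ∑ z, g x z * (D.s (D.τ z) * (starRingEnd ℂ) (g⁻¹ (D.τ z) y))

theorem JT_apply {L : ℕ} (u : Ten I L) (w : Fin L → I) :
    JT D g u w = ∑ w', (starRingEnd ℂ) (u w') * ∏ i, A D g (w i) (w' i) := by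
  have h1 : ∀ v : Fin L → I, (∏ i, g (w i) (v i)) * (sg D (D.τ ∘ v) * (starRingEnd ℂ)
      (∑ w', (∏ i, g⁻¹ ((D.τ ∘ v) i) (w' i)) * u w'))
      = ∑ w', (starRingEnd ℂ) (u w') * ∏ i, (g (w i) (v i) * (D.s (D.τ (v i)) *
        (starRingEnd ℂ) (g⁻¹ (D.τ (v i)) (w' i)))) := by
    intro v
    rw [map_sum, Finset.mul_sum, Finset.mul_sum]
    refine Finset.sum_congr rfl fun w' _ => ?_
    rw [map_mul, map_prod, Finset.prod_mul_distrib, Finset.prod_mul_distrib, sg]
    simp only [Function.comp_apply]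
    ring
  calc JT D g u w = ∑ v : Fin L → I, (∏ i, g (w i) (v i)) * (sg D (D.τ ∘ v) * (starRingEnd ℂ)
      (∑ w', (∏ i, g⁻¹ ((D.τ ∘ v) i) (w' i)) * u w')) := rfl
    _ = ∑ v : Fin L → I, ∑ w', (starRingEnd ℂ) (u w') * ∏ i, (g (w i) (v i) *
        (D.s (D.τ (v i)) * (starRingEnd ℂ) (g⁻¹ (D.τ (v i)) (w' i)))) :=
          Finset.sum_congr rfl fun v _ => h1 v
    _ = _ := by
      rw [Finset.sum_comm]
      refine Finset.sum_congr rfl fun w' _ => ?_
      rw [← Finset.mul_sum]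
      congr 1
      unfold A
      rw [Finset.prod_univ_sum, Fintype.piFinset_univ]

theorem JT_JT (a1 : Alg1) (hg : IsG D g) {L : ℕ} (u : Ten I L) :
    JT D g (JT D g u) = jT D (jT D u) := by
  have h1 := a1.G_inv D g hg
  rw [JT, JT, ← a1.gT_mul g⁻¹ g, h1.2.2, a1.gT_one, XY.jT_jT_gT D _ h1.1, ← a1.gT_mul, h1.2.1,
    a1.gT_one]

end ten

/-! ### The leaves -/

variable {k : Type u} [Field k] {W : CohomologyData.{u, 0, w} k ℂ} {𝒱 : VarietyClass k} {m : ℕ}
  (H : Host W 𝒱 m) (a1 : Alg1) (a2 : Alg2) {g : Matrix H.I H.I ℂ} (hg : IsG H.D g)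
  (ge : H.GeFacts)

/-- a multiplicative extension of the antilinear operator on `H^1(X_a)` -/
structure LeafJ (g : Matrix H.I H.I ℂ) (a : Fin m)
    (J : W.coh (H.X a) →ₛₗ[starRingEnd ℂ] W.coh (H.X a)) : Prop where
  one : J 1 = 1
  mul : ∀ x y, J (x * y) = J x * J y
  gr : ∀ i x, x ∈ W.gr (H.X a) i → J x ∈ W.gr (H.X a) i
  on1 : ∀ v ∈ W.gr (H.X a) 1, J v = GJ.J H a1 g (.leaf a) v

include hg ge in
theorem exists_leaf (hsta : StaStatement.{w}) (a : Fin m) (hext : ExtFacts W (H.X a)) :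
    ∃ J, LeafJ H a1 g a J := by
  obtain ⟨J, h1, h2, h3, h4⟩ := hext.ext (GJ.J H a1 g (.leaf a))
    (fun v hv => J_gr H a1 hg ge hsta (.leaf a) 1 v hv)
  exact ⟨J, h1, h2, h3, h4⟩

include ge in
theorem tc_e (a : Fin m) (x : H.I) (hx : (H.D.typ x).1 = a) :
    H.tc (.leaf a) (H.e a x) = Pi.single (fun _ => x) 1 := by
  have h1 := ge.tc_sum (.leaf a) (Pi.single (fun _ => x) 1) (by
    rintro w ⟨i, hi⟩
    refine Pi.single_eq_of_ne ?_ _
    rintro rfl
    exact hi hx)
  rw [Finset.sum_eq_single (fun _ => x)] at h1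
  · rw [Pi.single_eq_same, one_smul] at h1
    exact h1
  · intro w _ hw
    rw [Pi.single_eq_of_ne hw, zero_smul]
  · intro h
    exact absurd (Finset.mem_univ _) h

include ge in
theorem J_e (a : Fin m) (x : H.I) (hx : (H.D.typ x).1 = a) :
    GJ.J H a1 g (.leaf a) (H.e a x) = ∑ y, A H.D g y x • H.e a y := by
  rw [J_apply, tc_e H ge a x hx]
  have h1 : ∀ w : Fin 1 → H.I, JT H.D g (Pi.single (fun _ => x) 1 : Ten H.I 1) w
      = A H.D g (w 0) x := by
    intro w
    rw [JT_apply, Finset.sum_eq_single (fun _ => x)]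
    · rw [Pi.single_eq_same, map_one, one_mul]
      exact Fin.prod_univ_one _
    · intro w' _ hw
      rw [Pi.single_eq_of_ne hw, map_zero, zero_mul]
    · intro h
      exact absurd (Finset.mem_univ _) h
  have h2 : (∑ w : Fin 1 → H.I, JT H.D g (Pi.single (fun _ => x) 1 : Ten H.I 1) w •
      H.e a (w 0)) = ∑ y, A H.D g y x • H.e a y := by
    refine Fintype.sum_equiv (Equiv.funUnique (Fin 1) H.I) _ _ fun w => ?_
    rw [h1]
    rfl
  exact h2

variable {a : Fin m} {J : W.coh (H.X a) →ₛₗ[starRingEnd ℂ] W.coh (H.X a)}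
  (hJ : LeafJ H a1 g a J)

include hJ in
theorem J_list (l : List (W.coh (H.X a))) : J l.prod = (l.map J).prod := by
  induction l with
  | nil => exact hJ.one
  | cons x l ih => rw [List.prod_cons, hJ.mul, ih, List.map_cons, List.prod_cons]

include hJ ge in
theorem J_mon {L : ℕ} (w : Fin L → H.I) (hw : H.On1 a w) :
    J (H.mon a w) = ∑ w' : Fin L → H.I, (∏ i, A H.D g (w' i) (w i)) • H.mon a w' := by
  unfold Host.mon
  rw [J_list H a1 hJ, List.map_ofFn]
  have h1 : (J ∘ fun i => H.e a (w i)) = fun i => ∑ y, A H.D g y (w i) • H.e a y := by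
    funext i
    have h2 : H.e a (w i) ∈ W.gr (H.X a) 1 := by
      have := H.e_gr a (w i)
      rwa [hw i] at this
    rw [Function.comp_apply, hJ.on1 _ h2, J_e H a1 ge a (w i) (by rw [hw i])]
  rw [h1]
  have h3 := MultilinearMap.map_sum (MultilinearMap.mkPiAlgebraFin ℂ L (W.coh (H.X a)))
    (g := fun i y => A H.D g y (w i) • H.e a y)
  rw [MultilinearMap.mkPiAlgebraFin_apply] at h3
  refine h3.trans (Finset.sum_congr rfl fun w' _ => ?_)
  rw [MultilinearMap.map_smul_univ, MultilinearMap.mkPiAlgebraFin_apply]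

include hJ ge in
/-- the multiplication map commutes with the real structures -/
theorem J_mul {L : ℕ} (u : Ten H.I L) (hu : ∀ w, ¬ H.On1 a w → u w = 0) :
    J (H.mul a u) = H.mul a (JT H.D g u) := by
  unfold Host.mul
  rw [map_sum]
  have h1 : ∀ w : Fin L → H.I, J (u w • H.mon a w)
      = ∑ w' : Fin L → H.I, ((starRingEnd ℂ) (u w) * ∏ i, A H.D g (w' i) (w i)) • H.mon a w' := by
    intro w
    rw [LinearMap.map_smulₛₗ]
    by_cases h : H.On1 a w
    · rw [J_mon H a1 ge hJ w h, Finset.smul_sum]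
      exact Finset.sum_congr rfl fun w' _ => smul_smul _ _ _
    · rw [hu w h, map_zero, zero_smul]
      symm
      refine Finset.sum_eq_zero fun w' _ => ?_
      rw [zero_mul, zero_smul]
  rw [Finset.sum_congr rfl fun w _ => h1 w, Finset.sum_comm]
  refine Finset.sum_congr rfl fun w' _ => ?_
  rw [← Finset.sum_smul, ← JT_apply]

end JaT

end Pool.Agent.Lib.MP_361a6f_ag.FL
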