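import Pool.Agent.Lib.MP_361a6f_ag.FL.GeoPerm
import Pool.Agent.Lib.MP_361a6f_ag.FL.Gr
import Pool.Agent.Lib.MP_361a6f_ag.FL.Ge
import Pool.Agent.Lib.MP_361a6f_ag.FL.A.Defs

/-!
# Theorem A, row LET: the letter projections and the antisymmetrization preserve the algebraic tensors
-/

open CategoryTheory AlgebraicGeometry MonoidalCategory CartesianMonoidalCategory

universe u v w

namespace Pool.Agent.Lib.MP_361a6f_ag.FL

open Pool.Agent.Lib.MP_361a6f_ag.H3 Pool.Agent.Lib.MP_361a6f_ag.SQ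
  Pool.Agent.Lib.MP_361a6f_ag.PP

namespace LET

noncomputable section

variable {k : Type u} [Field k] {m : ℕ} {W : CohomologyData.{u, 0, w} k ℂ} {𝒱 : VarietyClass k}
  (H : Host W 𝒱 m)

/-- one slot: the words whose `i`-th letter has the type `β` -/
theorem slot_typ (β : Fin m × ℕ) {L : ℕ} (i : Fin L) {u : Ten H.I L} (hu : u ∈ H.At L) :
    (fun w => (if H.D.typ (w i) = β then (1 : ℂ) else 0) * u w) ∈ H.At L := by
  refine GP.slot H (ge H) (fun x => if H.D.typ x = β then (1 : ℂ) else 0) (fun a => ?_) i hu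
  by_cases ha : a = β.1
  · have h1 := algOp_gop H.hW (H.mem a) (H.ξ_alg a) (H.lam a) (fun j => if j = β.2 then 1 else 0)
    refine ⟨_, h1, fun x => ?_⟩
    by_cases hx : (H.D.typ x).1 = a
    · rw [gop_apply _ _ (H.e_gr a x)]
      congr 1
      by_cases h2 : (H.D.typ x).2 = β.2
      · rw [if_pos h2, if_pos (Prod.ext (hx.trans ha) h2)]
        norm_num
      · rw [if_neg h2, if_neg (fun h => h2 (by rw [h]))]
        norm_num
    · rw [H.e_ne a x hx, map_zero, smul_zero]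
  · refine ⟨0, AlgOp.zero H.hW (H.mem a), fun x => ?_⟩
    rw [LinearMap.zero_apply]
    by_cases hx : (H.D.typ x).1 = a
    · rw [if_neg (fun h => ha (by rw [← hx, h])), zero_smul]
    · rw [H.e_ne a x hx, smul_zero]

/-- the words with the types `β` in the slots of a set `S` -/
theorem slots_typ {L : ℕ} (β : Fin L → Fin m × ℕ) {u : Ten H.I L} (hu : u ∈ H.At L)
    (S : Finset (Fin L)) :
    (fun w => (∏ i ∈ S, if H.D.typ (w i) = β i then (1 : ℂ) else 0) * u w) ∈ H.At L := by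
  classical
  induction S using Finset.induction_on with
  | empty => simpa using hu
  | insert i S hi ih =>
    have h := slot_typ H (β i) i ih
    have e : (fun w : Fin L → H.I => (if H.D.typ (w i) = β i then (1 : ℂ) else 0) *
        ((∏ i ∈ S, if H.D.typ (w i) = β i then (1 : ℂ) else 0) * u w)) =
        fun w => (∏ i ∈ insert i S, if H.D.typ (w i) = β i then (1 : ℂ) else 0) * u w := by
      funext w
      rw [Finset.prod_insert hi]
      ring
    rwa [e] at h

/-- Row LET (b): the letter projections. -/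
theorem at_letters {L : ℕ} (β : Fin L → Fin m × ℕ) {u : Ten H.I L} (hu : u ∈ H.At L) :
    (fun w => if ∀ i, H.D.typ (w i) = β i then u w else 0) ∈ H.At L := by
  classical
  have h := slots_typ H β hu Finset.univ
  have e : (fun w : Fin L → H.I => (∏ i, if H.D.typ (w i) = β i then (1 : ℂ) else 0) * u w) =
      fun w => if ∀ i, H.D.typ (w i) = β i then u w else 0 := by
    funext w
    by_cases hw : ∀ i, H.D.typ (w i) = β i
    · rw [if_pos hw, Finset.prod_eq_one (fun i _ => if_pos (hw i)), one_mul]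
    · rw [if_neg hw]
      push Not at hw
      obtain ⟨i, hi⟩ := hw
      rw [Finset.prod_eq_zero (Finset.mem_univ i) (if_neg hi), zero_mul]
  rwa [e] at h

/-- the same for a tensor given by its values -/
theorem at_letters_of {L : ℕ} (β : Fin L → Fin m × ℕ) {u v : Ten H.I L} (hu : u ∈ H.At L)
    (h1 : ∀ w, (∀ i, H.D.typ (w i) = β i) → v w = u w)
    (h2 : ∀ w, (¬ ∀ i, H.D.typ (w i) = β i) → v w = 0) : v ∈ H.At L := by
  have h := at_letters H β hu
  have e : (fun w => if ∀ i, H.D.typ (w i) = β i then u w else 0) = v := by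
    funext w
    by_cases hw : ∀ i, H.D.typ (w i) = β i
    · rw [if_pos hw, h1 w hw]
    · rw [if_neg hw, h2 w hw]
  rwa [e] at h

/-- Row LET (a): signed sums over permutations. -/
theorem at_signed {L : ℕ} {u : Ten H.I L} (hu : u ∈ H.At L) :
    (∑ σ : Equiv.Perm (Fin L), (((Equiv.Perm.sign σ : ℤˣ) : ℤ) : ℂ) • permT σ u) ∈ H.At L := by
  refine sum_mem fun σ _ => ?_
  have h1 := gp ge (gr ge) H L σ u hu
  have h2 := GP.at_rat H L (((Equiv.Perm.sign σ : ℤˣ) : ℤ) : ℚ) h1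
  have e : (((((Equiv.Perm.sign σ : ℤˣ) : ℤ) : ℚ) : ℚ) : ℂ) =
      (((Equiv.Perm.sign σ : ℤˣ) : ℤ) : ℂ) := by push_cast; rfl
  rwa [e] at h2

/-- Row LET (a): antisymmetrization. -/
theorem at_alt {L : ℕ} {u : Ten H.I L} (hu : u ∈ H.At L) :
    ((L.factorial : ℂ)⁻¹ • ∑ σ : Equiv.Perm (Fin L),
      (((Equiv.Perm.sign σ : ℤˣ) : ℤ) : ℂ) • permT σ u) ∈ H.At L := by
  have h := GP.at_rat H L ((L.factorial : ℚ)⁻¹) (at_signed H hu)
  have e : ((((L.factorial : ℚ)⁻¹ : ℚ)) : ℂ) = (L.factorial : ℂ)⁻¹ := by push_cast; rfl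
  rwa [e] at h

/-- Row LET (a): symmetrization. -/
theorem at_sym {L : ℕ} {u : Ten H.I L} (hu : u ∈ H.At L) :
    ((L.factorial : ℂ)⁻¹ • ∑ σ : Equiv.Perm (Fin L), permT σ u) ∈ H.At L := by
  have h := GP.at_rat H L ((L.factorial : ℚ)⁻¹)
    (sum_mem (t := Finset.univ) fun σ _ => gp ge (gr ge) H L σ u hu)
  have e : ((((L.factorial : ℚ)⁻¹ : ℚ)) : ℂ) = (L.factorial : ℂ)⁻¹ := by push_cast; rfl
  rwa [e] at h

/-- the antisymmetrization is antisymmetric -/
theorem anti_alt {I : Type} {L : ℕ} (u : Ten I L) :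
    Anti ((L.factorial : ℂ)⁻¹ • ∑ σ : Equiv.Perm (Fin L),
      (((Equiv.Perm.sign σ : ℤˣ) : ℤ) : ℂ) • permT σ u) := by
  intro ρ w
  simp only [Pi.smul_apply, Finset.sum_apply, smul_eq_mul, permT]
  rw [mul_left_comm]
  congr 1
  rw [Finset.mul_sum, ← Equiv.sum_comp (Equiv.mulLeft ρ⁻¹)]
  refine Finset.sum_congr rfl fun σ _ => ?_
  have e1 : (w ∘ ρ) ∘ (Equiv.mulLeft ρ⁻¹ σ : Equiv.Perm (Fin L)) = w ∘ σ := by
    funext i
    simp [Function.comp]
  have e2 : ((Equiv.Perm.sign (Equiv.mulLeft ρ⁻¹ σ : Equiv.Perm (Fin L)) : ℤˣ) : ℤ) =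
      ((Equiv.Perm.sign ρ : ℤˣ) : ℤ) * ((Equiv.Perm.sign σ : ℤˣ) : ℤ) := by
    simp [Equiv.Perm.sign_mul, Equiv.Perm.sign_inv]
  rw [e1, e2]
  push_cast
  ring

/-- antisymmetric tensors with all letters `(a, 1)`, from arbitrary algebraic tensors -/
theorem antiAt (a : Fin m) {L : ℕ} {u : Ten H.I L} (hu : u ∈ H.At L) :
    H.AntiAt a ((L.factorial : ℂ)⁻¹ • ∑ σ : Equiv.Perm (Fin L),
      (((Equiv.Perm.sign σ : ℤˣ) : ℤ) : ℂ) • permT σ (H.prj a u)) := by
  refine ⟨at_alt H (at_letters_of H (fun _ => (a, 1)) hu (fun w hw => if_pos hw)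
    (fun w hw => if_neg hw)), fun w hw => ?_, anti_alt _⟩
  simp only [Pi.smul_apply, Finset.sum_apply, smul_eq_mul, permT]
  rw [Finset.sum_eq_zero fun σ _ => ?_, mul_zero]
  have h : ¬ H.On1 a (w ∘ σ) := by
    intro h
    apply hw
    intro i
    have := h (σ⁻¹ i)
    simpa using this
  rw [Host.prj, if_neg h, mul_zero]

/-- tensors of length `2` with the letters `(a, 1)`, `(b, 1)` -/
theorem pairAt (a b : Fin m) {u : Ten H.I 2} (hu : u ∈ H.At 2) :
    H.PairAt a b (fun w => if ∀ i, H.D.typ (w i) = ![(a, 1), (b, 1)] i then u w else 0) := by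
  refine ⟨at_letters H _ hu, fun w hw => if_neg fun h => hw ⟨h 0, h 1⟩⟩

end

end LET

noncomputable section

variable {k : Type u} [Field k] {m : ℕ} {W : CohomologyData.{u, 0, w} k ℂ} {𝒱 : VarietyClass k}

/-- Row LET: the restriction of an algebraic tensor to a word of letters. -/
theorem let_mem (H : Host W 𝒱 m) (_ : H.AtFacts) (L : ℕ) (al : Fin L → Fin m × ℕ)
    (u : Ten H.I L) (hu : u ∈ H.At L) :
    (fun w => if ∀ i, H.D.typ (w i) = al i then u w else 0) ∈ H.At L :=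
  LET.at_letters H al hu

/-- Row LET: the field `prj_mem` of `MulFacts`. -/
theorem prj_at (H : Host W 𝒱 m) (a : Fin m) (L : ℕ) (u : Ten H.I L) (hu : u ∈ H.At L) :
    H.prj a u ∈ H.At L :=
  LET.at_letters_of H (fun _ => (a, 1)) hu (fun _ hw => if_pos hw) (fun _ hw => if_neg hw)

end

end Pool.Agent.Lib.MP_361a6f_ag.FL
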