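import Pool.Agent.Lib.MP_361a6f_ag.FL.A.Defs
import Pool.Agent.Lib.MP_361a6f_ag.FL.A.Let
import Pool.Agent.Lib.MP_361a6f_ag.PP.StaB
import Pool.Agent.Lib.MP_361a6f_ag.PP.Blk1

/-!
# Theorem A, row MUL: the multiplication map and its adjoint
-/

open CategoryTheory AlgebraicGeometry MonoidalCategory CartesianMonoidalCategory

universe u v w

set_option linter.unusedSectionVars false

namespace Pool.Agent.Lib.MP_361a6f_ag.FL

open Pool.Agent.Lib.MP_361a6f_ag.H3 Pool.Agent.Lib.MP_361a6f_ag.SQ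
  Pool.Agent.Lib.MP_361a6f_ag.PP

namespace MUL

open GP

noncomputable section

variable {k : Type u} [Field k] {m : ℕ} {W : CohomologyData.{u, 0, w} k ℂ} {𝒱 : VarietyClass k}
  (H : Host W 𝒱 m)

/-- additive maps on the system `At` -/
theorem at_map' {M : Type*} [AddCommGroup M] {L : ℕ} (T : Ten H.I L →+ M) (S : AddSubgroup M)
    (h0 : L = 0 → ∀ q : ℚ, T (fun _ => (q : ℂ)) ∈ S)
    (h1 : ∀ (P : Prd m) (h : P.size = L) (z : W.coh (P.obj H.X)), z ∈ tot W (P.obj H.X) →
      T (fun w => H.tc P z (w ∘ Fin.cast h)) ∈ S) {u : Ten H.I L} (hu : u ∈ H.At L) :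
    T u ∈ S := by
  have : H.At L ≤ S.comap T := by
    refine (AddSubgroup.closure_le _).2 ?_
    rintro x (⟨h, q, rfl⟩ | ⟨P, h, z, hz, rfl⟩)
    · exact h0 h q
    · exact h1 P h z hz
  exact this hu

theorem mon_zero (a : Fin m) (w : Fin 0 → H.I) : H.mon a w = 1 := by
  rw [Host.mon, List.ofFn_zero, List.prod_nil]

theorem mon_succ (a : Fin m) {n : ℕ} (w : Fin (n + 1) → H.I) :
    H.mon a w = H.mon a (fun j : Fin n => w j.castSucc) * H.e a (w (Fin.last n)) := by
  rw [Host.mon, List.ofFn_succ', List.concat_eq_append, List.prod_append, List.prod_singleton]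
  rfl

theorem mon_off (a : Fin m) {L : ℕ} (w : Fin L → H.I) (i : Fin L) (h : (H.D.typ (w i)).1 ≠ a) :
    H.mon a w = 0 := by
  refine List.prod_eq_zero ?_
  rw [← H.e_ne a (w i) h]
  exact List.mem_ofFn.2 ⟨i, rfl⟩

/-- the iterated diagonal -/
theorem diagN (a : Fin m) : ∀ n : ℕ, ∃ Δ : H.X a ⟶ (N n (fun _ => a)).obj H.X,
    ∀ w : Fin (n + 1) → H.I, W.pull Δ (E' H n (fun _ => a) w) = H.mon a w
  | 0 => by
    refine ⟨𝟙 (H.X a), fun w => ?_⟩
    rw [mon_succ, mon_zero, one_mul]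
    change W.pull (𝟙 (H.X a)) (H.e a (w 0)) = _
    rw [W.pull_id]
    rfl
  | n + 1 => by
    obtain ⟨Δ, hΔ⟩ := diagN a n
    refine ⟨lift Δ (𝟙 (H.X a)), fun w => ?_⟩
    rw [mon_succ, ← hΔ]
    have key : ∀ (Z : Sch k) (Δ : H.X a ⟶ Z) (z : W.coh Z) (y : W.coh (H.X a)),
        W.pull (lift Δ (𝟙 (H.X a))) (W.pull (fst Z (H.X a)) z * W.pull (snd Z (H.X a)) y)
          = W.pull Δ z * y := by
      intro Z Δ z y
      rw [map_mul, ← W.pull_comp, ← W.pull_comp, lift_fst, lift_snd, W.pull_id]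
    exact key _ Δ _ _

/-- the multiplication map as an additive map -/
def mulHom (a : Fin m) (L : ℕ) : Ten H.I L →+ W.coh (H.X a) where
  toFun := H.mul a
  map_zero' := by
    rw [Host.mul]
    exact Finset.sum_eq_zero fun w _ => zero_smul _ _
  map_add' := fun u v => by
    rw [Host.mul, Host.mul, Host.mul, ← Finset.sum_add_distrib]
    exact Finset.sum_congr rfl fun w _ => add_smul _ _ _

theorem mul_mem (a : Fin m) (L : ℕ) (u : Ten H.I L) (hu : u ∈ H.At L) :
    H.mul a u ∈ tot W (H.X a) := by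
  refine at_map' H (mulHom H a L) (tot W (H.X a)) ?_ ?_ hu
  · intro h q
    subst h
    change H.mul a (L := 0) (fun _ => (q : ℂ)) ∈ tot W (H.X a)
    rw [Host.mul, Fintype.sum_unique, mon_zero]
    exact tot_smul H.hW (H.mem a) q (one_tot H.hW (H.mem a))
  · intro P h z hz
    change H.mul a (fun w => H.tc P z (w ∘ Fin.cast h)) ∈ tot W (H.X a)
    cases L with
    | zero =>
      exact absurd h (by have := Prd.size_pos P; omega)
    | succ n =>
      obtain ⟨b, z', hz', e⟩ := toN H (ge H) (gr ge H) P n h z hz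
      rw [← e]
      by_cases hb : b = fun _ => a
      · subst hb
        obtain ⟨Δ, hΔ⟩ := diagN H a n
        have h1 : H.mul a (tcN H n (fun _ => a) z') = W.pull Δ z' := by
          conv_rhs => rw [expandN H (ge H) n (fun _ => a) z']
          rw [map_sum, Host.mul]
          refine Finset.sum_congr rfl fun w _ => ?_
          rw [map_smul, hΔ]
        rw [h1]
        exact tot_pull H.hW (H.mem a) (H.memP _) Δ hz'
      · obtain ⟨i, hi⟩ : ∃ i, b i ≠ a := by
          by_contra hcon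
          push Not at hcon
          exact hb (funext hcon)
        have h1 : H.mul a (tcN H n b z') = 0 := by
          rw [Host.mul]
          refine Finset.sum_eq_zero fun w _ => ?_
          by_cases hw : (H.D.typ (w i)).1 = b i
          · rw [mon_off H a w i (by rw [hw]; exact hi), smul_zero]
          · rw [tcN_off H (ge H) n b z' w i hw, zero_smul]
        rw [h1]
        exact zero_mem _

theorem psiL_add (a : Fin m) (x y z : W.coh (H.X a)) :
    H.psiL a (x + y) z = H.psiL a x z + H.psiL a y z := by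
  rw [Host.psiL, Host.psiL, Host.psiL, psi, psi, psi, add_mul, map_add]

theorem psiL_smul (a : Fin m) (c : ℂ) (x z : W.coh (H.X a)) :
    H.psiL a (c • x) z = c * H.psiL a x z := by
  rw [Host.psiL, Host.psiL, psi, psi, smul_mul_assoc, map_smul, smul_eq_mul]

theorem psiL_sum (a : Fin m) {ι : Type*} (s : Finset ι) (f : ι → W.coh (H.X a))
    (z : W.coh (H.X a)) : H.psiL a (∑ i ∈ s, f i) z = ∑ i ∈ s, H.psiL a (f i) z := by
  classical
  induction s using Finset.induction_on with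
  | empty => rw [Finset.sum_empty, Finset.sum_empty, Host.psiL, psi, zero_mul, map_zero]
  | insert i s hi ih => rw [Finset.sum_insert hi, Finset.sum_insert hi, psiL_add, ih]

theorem sg_sq {L : ℕ} (w : Fin L → H.I) : sg H.D w * sg H.D w = 1 := by
  rw [sg, ← Finset.prod_mul_distrib]
  refine Finset.prod_eq_one fun i _ => ?_
  rcases H.D.s_val (w i) with h | h <;> rw [h] <;> norm_num

theorem tau_tau {L : ℕ} (w : Fin L → H.I) : H.D.τ ∘ (H.D.τ ∘ w) = w := by
  funext i; exact H.D.τ_τ _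

theorem adj (a : Fin m) (L : ℕ) (u : Ten H.I L) (z : W.coh (H.X a)) :
    psiT H.D u (H.mul' a L z) = H.psiL a (H.mul a u) z := by
  rw [psiT, Host.mul, psiL_sum]
  refine Finset.sum_congr rfl fun w _ => ?_
  rw [psiL_smul, Host.mul', tau_tau]
  linear_combination (u w * H.psiL a (H.mon a w) z) * sg_sq H w

theorem sg_tau {L : ℕ} (w : Fin L → H.I) :
    sg H.D (H.D.τ ∘ w) = (-1 : ℂ) ^ (∑ i, (H.D.typ (w i)).2) * sg H.D w := by
  rw [sg, sg, ← Finset.prod_pow_eq_pow_sum, ← Finset.prod_mul_distrib]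
  refine Finset.prod_congr rfl fun i _ => ?_
  rw [Function.comp_apply]
  by_cases ho : H.D.odd (H.D.typ (w i))
  · rw [(H.D.odd_τ _ ho).2, ((H.odd_iff _).1 ho).neg_one_pow, neg_one_mul]
  · have h1 := (H.D.even_τ _ ho)
    have h2 : Even (H.D.typ (w i)).2 := by
      rw [H.odd_iff] at ho
      exact Nat.not_odd_iff_even.1 ho
    rw [h1.1, h2.neg_one_pow, one_mul]

/-- the class `star Δ_* star z` -/
theorem push_star (a : Fin m) (P : Prd m) (Δ : H.X a ⟶ P.obj H.X) (z : W.coh (H.X a))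
    (hz : z ∈ tot W (H.X a)) : ∃ z'' ∈ tot W (P.obj H.X), ∀ x : W.coh (P.obj H.X),
      H.psiP P x z'' = H.psiL a (W.pull Δ x) z := by
  obtain ⟨DP, hPalg⟩ := H.lamP P
  have hsz : star (H.lam a).slm.internal (Lop W (H.X a) (H.ξ a)) (H.Lam a) z ∈ tot W (H.X a) :=
    AlgOp.apply H.hW (H.mem a) (algOp_star H.hW (H.mem a) (H.ξ_alg a) (H.lam a)) hz
  have hyt : W.push Δ (star (H.lam a).slm.internal (Lop W (H.X a) (H.ξ a)) (H.Lam a) z) ∈
      tot W (P.obj H.X) := tot_push H.hW (H.mem a) (H.memP P) Δ hsz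
  refine ⟨H.starP P (W.push Δ (star (H.lam a).slm.internal (Lop W (H.X a) (H.ξ a)) (H.Lam a) z)),
    AlgOp.apply H.hW (H.memP P) (algOp_star H.hW (H.memP P) hPalg DP) hyt, fun x => ?_⟩
  change W.tr (P.obj H.X) (x * H.starP P (H.starP P (W.push Δ
    (star (H.lam a).slm.internal (Lop W (H.X a) (H.ξ a)) (H.Lam a) z)))) =
    W.tr (H.X a) (W.pull Δ x * star (H.lam a).slm.internal (Lop W (H.X a) (H.ξ a)) (H.Lam a) z)
  have h1 : ∀ y, H.starP P (H.starP P y) = y :=
    fun y => BLK.star_star H.hW staB (H.memP P) hPalg DP y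
  rw [h1, ← tot_comm H.hW (H.memP P) hyt, H.hW.push_adj (H.mem a) (H.memP P),
    tot_comm H.hW (H.mem a) hsz]

theorem psiP_symm (P : Prd m) {d : ℕ} {x : W.coh (P.obj H.X)} (hx : x ∈ W.gr (P.obj H.X) d)
    (y : W.coh (P.obj H.X)) : H.psiP P y x = (-1 : ℂ) ^ d * H.psiP P x y := by
  rw [Host.psiP, BLK.psi_symm H.hW staB (H.memP P) (H.lamP P).2 (H.lamP P).1, epsOp,
    gop_apply _ _ hx, psi, smul_mul_assoc, map_smul, smul_eq_mul]
  rfl

theorem sg_cast {L L' : ℕ} (h : L = L') (w : Fin L' → H.I) :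
    sg H.D (w ∘ Fin.cast h) = sg H.D w := by
  subst h; rfl

theorem sum_cast {L L' : ℕ} (h : L = L') (w : Fin L' → H.I) :
    ∑ i, (H.D.typ ((w ∘ Fin.cast h) i)).2 = ∑ i, (H.D.typ (w i)).2 := by
  subst h; rfl

theorem mul'_eq (a : Fin m) (n : ℕ) (z : W.coh (H.X a)) (hz : z ∈ tot W (H.X a)) :
    ∃ z'' ∈ tot W ((N n (fun _ => a)).obj H.X), H.mul' a (n + 1) z = tcN H n (fun _ => a) z'' := by
  obtain ⟨Δ, hΔ⟩ := diagN H a n
  obtain ⟨z'', hz'', key⟩ := push_star H a (N n (fun _ => a)) Δ z hz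
  refine ⟨z'', hz'', ?_⟩
  funext w
  have e1 : tcN H n (fun _ => a) z'' w
      = sg H.D w * H.psiP (N n fun _ => a) z'' (E' H n (fun _ => a) (H.D.τ ∘ w)) := by
    rw [tcN, Host.tc_apply, E_eq, sg_cast]
    rfl
  have hgr : E' H n (fun _ => a) (H.D.τ ∘ w) ∈
      W.gr ((N n fun _ => a).obj H.X) (∑ i, (H.D.typ (w i)).2) := by
    have h2 := (ge H).E_gr (N n fun _ => a) ((H.D.τ ∘ w) ∘ Fin.cast (size_N n (fun _ => a)))
    rw [E_eq, sum_cast] at h2
    have h3 : ∑ i, (H.D.typ ((H.D.τ ∘ w) i)).2 = ∑ i, (H.D.typ (w i)).2 := by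
      refine Finset.sum_congr rfl fun i _ => ?_
      rw [Function.comp_apply, H.D.typ_τ]
    rw [h3] at h2
    exact h2
  rw [e1, psiP_symm H _ hgr, key, hΔ, Host.mul', sg_tau]
  ring

end

end MUL

/-- Row MUL. -/
theorem mulF : MulStatement.{u, w} := by
  intro k _ W 𝒱 m H
  refine ⟨MUL.mul_mem H, ?_, MUL.adj H, ?_⟩
  · intro a L z hL hz
    cases L with
    | zero => exact absurd hL (lt_irrefl 0)
    | succ n =>
      obtain ⟨z'', hz'', e⟩ := MUL.mul'_eq H a n z hz
      rw [e]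
      exact GP.at_tc' H _ (GP.size_N n _) hz''
  · intro a L u hu
    have h := LET.at_letters H (fun _ : Fin L => (a, 1)) hu
    have e : H.prj a u = fun w => if ∀ i, H.D.typ (w i) = (a, 1) then u w else 0 := by
      funext w
      unfold Host.prj Host.On1
      by_cases hw : ∀ i, H.D.typ (w i) = (a, 1)
      · rw [if_pos hw, if_pos hw]
      · rw [if_neg hw, if_neg hw]
    rw [e]
    exact h

end Pool.Agent.Lib.MP_361a6f_ag.FL
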