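import Pool.Agent.Lib.MP_361a6f_ag.FL.Al2

/-!
# Row PRJ: the antisymmetrizer and the projection on a word of letters
-/

namespace Pool.Agent.Lib.MP_361a6f_ag.FL

set_option linter.unusedSectionVars false

noncomputable section

variable {I Λ : Type}

/-- the sign of a permutation, as a complex number -/
def sgn {L : ℕ} (σ : Equiv.Perm (Fin L)) : ℂ := ((Equiv.Perm.sign σ : ℤ) : ℂ)

theorem sgn_mul {L : ℕ} (σ τ : Equiv.Perm (Fin L)) : sgn (σ * τ) = sgn σ * sgn τ := by
  simp [sgn]

theorem sgn_mul_self {L : ℕ} (σ : Equiv.Perm (Fin L)) : sgn σ * sgn σ = 1 := by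
  rcases Int.units_eq_one_or (Equiv.Perm.sign σ) with h | h <;> simp [sgn, h]

theorem sgn_inv {L : ℕ} (σ : Equiv.Perm (Fin L)) : sgn σ⁻¹ = sgn σ := by
  simp [sgn]

theorem conj_sgn {L : ℕ} (σ : Equiv.Perm (Fin L)) : (starRingEnd ℂ) (sgn σ) = sgn σ := by
  simp [sgn]

/-- permutation of the slots, as a linear map -/
def permL {L : ℕ} (σ : Equiv.Perm (Fin L)) : Ten I L →ₗ[ℂ] Ten I L where
  toFun := permT σ
  map_add' _ _ := rfl
  map_smul' _ _ := rfl

theorem permL_apply {L : ℕ} (σ : Equiv.Perm (Fin L)) (u : Ten I L) : permL σ u = permT σ u := rfl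

theorem permT_permT {L : ℕ} (σ τ : Equiv.Perm (Fin L)) (u : Ten I L) :
    permT σ (permT τ u) = permT (σ * τ) u := rfl

/-- the antisymmetrizer -/
def altT (L : ℕ) : Ten I L →ₗ[ℂ] Ten I L :=
  ((L.factorial : ℂ)⁻¹) • ∑ σ : Equiv.Perm (Fin L), sgn σ • permL σ

theorem altT_apply {L : ℕ} (u : Ten I L) :
    altT L u = ((L.factorial : ℂ)⁻¹) • ∑ σ : Equiv.Perm (Fin L), sgn σ • permT σ u := by
  simp [altT, permL_apply]

theorem altT_apply' {L : ℕ} (u : Ten I L) (w : Fin L → I) :
    altT L u w = ((L.factorial : ℂ)⁻¹) * ∑ σ : Equiv.Perm (Fin L), sgn σ * u (w ∘ σ) := by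
  rw [altT_apply, Pi.smul_apply, Finset.sum_apply]
  rfl

theorem permT_altT {L : ℕ} (τ : Equiv.Perm (Fin L)) (u : Ten I L) :
    permT τ (altT L u) = sgn τ • altT L u := by
  have h : permT τ (altT L u)
      = ((L.factorial : ℂ)⁻¹) • ∑ σ : Equiv.Perm (Fin L), sgn σ • permT (τ * σ) u := by
    rw [altT_apply]
    funext w
    change ((L.factorial : ℂ)⁻¹) * (∑ σ : Equiv.Perm (Fin L), sgn σ • permT σ u) (w ∘ τ) = _
    rw [Pi.smul_apply, Finset.sum_apply, Finset.sum_apply]
    rfl
  rw [h, altT_apply, smul_comm]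
  congr 1
  rw [Finset.smul_sum, ← Equiv.sum_comp (Equiv.mulLeft τ) (fun σ => sgn τ • sgn σ • permT σ u)]
  refine Finset.sum_congr rfl fun σ _ => ?_
  rw [Equiv.coe_mulLeft, sgn_mul, smul_smul, ← mul_assoc, sgn_mul_self, one_mul]

theorem altT_permT {L : ℕ} (τ : Equiv.Perm (Fin L)) (u : Ten I L) :
    altT L (permT τ u) = sgn τ • altT L u := by
  rw [altT_apply, altT_apply, smul_comm]
  congr 1
  rw [Finset.smul_sum, ← Equiv.sum_comp (Equiv.mulRight τ) (fun σ => sgn τ • sgn σ • permT σ u)]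
  refine Finset.sum_congr rfl fun σ _ => ?_
  rw [Equiv.coe_mulRight, sgn_mul, smul_smul, permT_permT, mul_comm (sgn σ), ← mul_assoc,
    sgn_mul_self, one_mul]

/-- an antisymmetric tensor is fixed -/
theorem altT_eq_self {L : ℕ} {u : Ten I L} (h : ∀ σ : Equiv.Perm (Fin L), permT σ u = sgn σ • u) :
    altT L u = u := by
  rw [altT_apply]
  have h1 : ∀ σ : Equiv.Perm (Fin L), sgn σ • permT σ u = u := fun σ => by
    rw [h, smul_smul, sgn_mul_self, one_smul]
  rw [Finset.sum_congr rfl fun σ _ => h1 σ, Finset.sum_const, Finset.card_univ, Fintype.card_perm,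
    Fintype.card_fin, ← Nat.cast_smul_eq_nsmul ℂ, smul_smul,
    inv_mul_cancel₀ (Nat.cast_ne_zero.2 (Nat.factorial_ne_zero L)), one_smul]

theorem altT_altT {L : ℕ} (u : Ten I L) : altT L (altT L u) = altT L u :=
  altT_eq_self fun σ => permT_altT σ u

variable [Fintype I] [DecidableEq I] [DecidableEq Λ] (D : Dat I Λ)

/-- the projection on the words with the letters `β` -/
def letT {L : ℕ} (β : Fin L → Λ) : Ten I L →ₗ[ℂ] Ten I L where
  toFun u := fun w => if ∀ i, D.typ (w i) = β i then u w else 0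
  map_add' u v := by
    funext w
    simp only [Pi.add_apply]
    split_ifs
    · rfl
    · rw [add_zero]
  map_smul' c u := by
    funext w
    simp only [Pi.smul_apply, RingHom.id_apply]
    split_ifs
    · rfl
    · rw [smul_zero]

omit [Fintype I] [DecidableEq I] in
theorem letT_apply {L : ℕ} (β : Fin L → Λ) (u : Ten I L) (w : Fin L → I) :
    letT D β u w = if ∀ i, D.typ (w i) = β i then u w else 0 := rfl

omit [Fintype I] [DecidableEq I] in
theorem letT_letT {L : ℕ} (β : Fin L → Λ) (u : Ten I L) :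
    letT D β (letT D β u) = letT D β u := by
  funext w
  rw [letT_apply, letT_apply]
  split_ifs <;> rfl

omit [Fintype I] [DecidableEq I] in
theorem letT_eq_self {L : ℕ} {β : Fin L → Λ} {u : Ten I L}
    (h : ∀ w, u w ≠ 0 → ∀ i, D.typ (w i) = β i) : letT D β u = u := by
  funext w
  rw [letT_apply]
  split_ifs with h1
  · rfl
  · by_contra h2
    exact h1 (h w (Ne.symm h2))

omit [Fintype I] [DecidableEq I] in
/-- the letter projection for a constant word commutes with the permutations -/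
theorem letT_permT {L : ℕ} (α : Λ) (σ : Equiv.Perm (Fin L)) (u : Ten I L) :
    letT D (fun _ => α) (permT σ u) = permT σ (letT D (fun _ => α) u) := by
  funext w
  change (if ∀ i, D.typ (w i) = α then u (w ∘ σ) else 0)
    = if ∀ i, D.typ ((w ∘ σ) i) = α then u (w ∘ σ) else 0
  have h : (∀ i, D.typ (w i) = α) ↔ ∀ i, D.typ ((w ∘ σ) i) = α :=
    ⟨fun h i => h (σ i), fun h i => by
      have := h (σ.symm i)
      rwa [Function.comp_apply, Equiv.apply_symm_apply] at this⟩
  by_cases h1 : ∀ i, D.typ (w i) = α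
  · rw [if_pos h1, if_pos (h.1 h1)]
  · rw [if_neg h1, if_neg (fun h2 => h1 (h.2 h2))]

omit [Fintype I] [DecidableEq I] in
theorem altT_letT {L : ℕ} (α : Λ) (u : Ten I L) :
    altT L (letT D (fun _ => α) u) = letT D (fun _ => α) (altT L u) := by
  rw [altT_apply, altT_apply, map_smul, map_sum]
  congr 1
  refine Finset.sum_congr rfl fun σ _ => ?_
  rw [map_smul, letT_permT]

/-! ### The group and the real structure -/

omit [DecidableEq I] in
theorem gT_sum' {L : ℕ} {β : Type*} (S : Finset β) (g : Matrix I I ℂ) (F : β → Ten I L) :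
    gT g (∑ x ∈ S, F x) = ∑ x ∈ S, gT g (F x) := by
  funext w
  rw [Finset.sum_apply]
  unfold gT
  simp only [Finset.sum_apply, Finset.mul_sum]
  rw [Finset.sum_comm]

omit [DecidableEq I] in
theorem gT_smul' {L : ℕ} (g : Matrix I I ℂ) (c : ℂ) (u : Ten I L) :
    gT g (c • u) = c • gT g u := by
  funext w
  unfold gT
  rw [Pi.smul_apply, smul_eq_mul, Finset.mul_sum]
  refine Finset.sum_congr rfl fun x _ => ?_
  rw [Pi.smul_apply, smul_eq_mul]
  ring

theorem altT_gT {L : ℕ} (g : Matrix I I ℂ) (u : Ten I L) :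
    altT L (gT g u) = gT g (altT L u) := by
  have h : gT g (∑ σ : Equiv.Perm (Fin L), sgn σ • permT σ u)
      = ∑ σ : Equiv.Perm (Fin L), sgn σ • permT σ (gT g u) := by
    rw [gT_sum' Finset.univ g (fun σ : Equiv.Perm (Fin L) => sgn σ • permT σ u)]
    refine Finset.sum_congr rfl fun σ _ => ?_
    rw [gT_smul', AL2.perm_gT]
  rw [altT_apply, altT_apply, gT_smul', h]

omit [Fintype I] [DecidableEq I] [DecidableEq Λ] in
theorem altT_jT {L : ℕ} (u : Ten I L) : altT L (jT D u) = jT D (altT L u) := by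
  funext w
  rw [altT_apply']
  change _ = sg D (D.τ ∘ w) * (starRingEnd ℂ) (altT L u (D.τ ∘ w))
  rw [altT_apply', map_mul, map_sum, map_inv₀, map_natCast, mul_left_comm]
  refine congrArg (fun x => ((L.factorial : ℂ)⁻¹) * x) ?_
  rw [Finset.mul_sum]
  refine Finset.sum_congr rfl fun σ _ => ?_
  rw [map_mul, conj_sgn]
  have h := congrFun (AL2.perm_jT D σ u) w
  change sg D (D.τ ∘ w) * (starRingEnd ℂ) (u ((D.τ ∘ w) ∘ σ)) = jT D u (w ∘ σ) at h
  rw [← h]
  ring

theorem letT_gT {L : ℕ} (β : Fin L → Λ) (g : Matrix I I ℂ) (hg : IsG D g) (u : Ten I L) :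
    letT D β (gT g u) = gT g (letT D β u) := by
  funext w
  rw [letT_apply]
  unfold gT
  have key : ∀ w' : Fin L → I, (∏ i, g (w i) (w' i)) ≠ 0 → ∀ i, D.typ (w i) = D.typ (w' i) := by
    intro w' h i
    by_contra h1
    exact h (Finset.prod_eq_zero (Finset.mem_univ i) (hg.1 _ _ h1))
  split_ifs with h
  · refine Finset.sum_congr rfl fun w' _ => ?_
    by_cases h1 : (∏ i, g (w i) (w' i)) = 0
    · rw [h1, zero_mul, zero_mul]
    · rw [letT_apply, if_pos fun i => (key w' h1 i).symm.trans (h i)]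
  · symm
    refine Finset.sum_eq_zero fun w' _ => ?_
    by_cases h1 : (∏ i, g (w i) (w' i)) = 0
    · rw [h1, zero_mul]
    · rw [letT_apply, if_neg fun h2 => h fun i => (key w' h1 i).trans (h2 i), mul_zero]

omit [Fintype I] [DecidableEq I] in
theorem letT_jT {L : ℕ} (β : Fin L → Λ) (u : Ten I L) :
    letT D β (jT D u) = jT D (letT D β u) := by
  funext w
  rw [letT_apply]
  change _ = sg D (D.τ ∘ w) * (starRingEnd ℂ) (letT D β u (D.τ ∘ w))
  rw [letT_apply]
  have h : (∀ i, D.typ ((D.τ ∘ w) i) = β i) ↔ ∀ i, D.typ (w i) = β i :=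
    forall_congr' fun i => by rw [Function.comp_apply, D.typ_τ]
  by_cases h1 : ∀ i, D.typ (w i) = β i
  · rw [if_pos h1, if_pos (h.2 h1)]
    rfl
  · rw [if_neg h1, if_neg (fun h2 => h1 (h.1 h2)), map_zero, mul_zero]

/-! ### The form -/

omit [DecidableEq I] [DecidableEq Λ] in
theorem psiT_permT {L : ℕ} (σ : Equiv.Perm (Fin L)) (u v : Ten I L) :
    psiT D (permT σ u) v = psiT D u (permT σ⁻¹ v) := by
  unfold psiT
  rw [← (Equiv.arrowCongr σ (Equiv.refl I)).sum_comp]
  refine Finset.sum_congr rfl fun w _ => ?_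
  have e1 : (Equiv.arrowCongr σ (Equiv.refl I)) w = w ∘ (σ⁻¹ : Equiv.Perm (Fin L)) := rfl
  have e2 : (w ∘ (σ⁻¹ : Equiv.Perm (Fin L))) ∘ σ = w := by
    funext i
    simp
  have e3 : sg D (w ∘ (σ⁻¹ : Equiv.Perm (Fin L))) = sg D w := by
    rw [sg, sg, ← Equiv.prod_comp σ⁻¹ (fun i => D.s (w i))]
    rfl
  rw [e1, e3]
  change sg D w * (u ((w ∘ (σ⁻¹ : Equiv.Perm (Fin L))) ∘ σ) * _) = _
  rw [e2]
  rfl

omit [DecidableEq I] [DecidableEq Λ] in
theorem psiT_sum_l {L : ℕ} {β : Type*} (S : Finset β) (c : β → ℂ) (F : β → Ten I L)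
    (v : Ten I L) : psiT D (∑ x ∈ S, c x • F x) v = ∑ x ∈ S, c x * psiT D (F x) v := by
  unfold psiT
  simp only [Finset.sum_apply, Pi.smul_apply, smul_eq_mul, Finset.sum_mul, Finset.mul_sum]
  rw [Finset.sum_comm]
  refine Finset.sum_congr rfl fun x _ => Finset.sum_congr rfl fun w _ => ?_
  ring

omit [DecidableEq I] [DecidableEq Λ] in
theorem psiT_sum_r {L : ℕ} {β : Type*} (S : Finset β) (c : β → ℂ) (F : β → Ten I L)
    (v : Ten I L) : psiT D v (∑ x ∈ S, c x • F x) = ∑ x ∈ S, c x * psiT D v (F x) := by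
  unfold psiT
  simp only [Finset.sum_apply, Pi.smul_apply, smul_eq_mul, Finset.mul_sum]
  rw [Finset.sum_comm]
  refine Finset.sum_congr rfl fun x _ => Finset.sum_congr rfl fun w _ => ?_
  ring

omit [DecidableEq I] [DecidableEq Λ] in
theorem psiT_altT {L : ℕ} (u v : Ten I L) : psiT D (altT L u) v = psiT D u (altT L v) := by
  have h1 : psiT D (altT L u) v
      = ∑ σ : Equiv.Perm (Fin L), ((L.factorial : ℂ)⁻¹ * sgn σ) * psiT D (permT σ u) v := by
    rw [← psiT_sum_l]
    congr 1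
    rw [altT_apply, Finset.smul_sum]
    refine Finset.sum_congr rfl fun σ _ => ?_
    rw [smul_smul]
  have h2 : psiT D u (altT L v)
      = ∑ σ : Equiv.Perm (Fin L), ((L.factorial : ℂ)⁻¹ * sgn σ) * psiT D u (permT σ v) := by
    rw [← psiT_sum_r]
    congr 1
    rw [altT_apply, Finset.smul_sum]
    refine Finset.sum_congr rfl fun σ _ => ?_
    rw [smul_smul]
  rw [h1, h2, ← Equiv.sum_comp (Equiv.inv (Equiv.Perm (Fin L)))]
  refine Finset.sum_congr rfl fun σ _ => ?_
  rw [Equiv.inv_apply, sgn_inv, psiT_permT, inv_inv]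

omit [DecidableEq I] in
theorem psiT_letT {L : ℕ} (β : Fin L → Λ) (u v : Ten I L) :
    psiT D (letT D β u) v = psiT D u (letT D β v) := by
  unfold psiT
  refine Finset.sum_congr rfl fun w _ => ?_
  rw [letT_apply, letT_apply]
  have h : (∀ i, D.typ ((D.τ ∘ w) i) = β i) ↔ ∀ i, D.typ (w i) = β i :=
    forall_congr' fun i => by rw [Function.comp_apply, D.typ_τ]
  by_cases h1 : ∀ i, D.typ (w i) = β i
  · rw [if_pos h1, if_pos (h.2 h1)]
  · rw [if_neg h1, if_neg (fun h2 => h1 (h.1 h2)), zero_mul, mul_zero, mul_zero,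
      mul_zero]

/-! ### Contractions and matchings -/

/-- a permutation of the last slots -/
def lastPerm (p : ℕ) {c : ℕ} (σ : Equiv.Perm (Fin c)) : Equiv.Perm (Fin (p + c)) :=
  (finSumFinEquiv.permCongr) (Equiv.sumCongr (Equiv.refl (Fin p)) σ)

omit [Fintype I] [DecidableEq I] in
theorem append_lastPerm {p c : ℕ} (σ : Equiv.Perm (Fin c)) (a : Fin p → I) (b : Fin c → I) :
    Fin.append a b ∘ lastPerm p σ = Fin.append a (b ∘ σ) := by
  funext i
  refine Fin.addCases (fun j => ?_) (fun j => ?_) i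
  · have h : lastPerm p σ (Fin.castAdd c j) = Fin.castAdd c j := by
      simp [lastPerm, Equiv.permCongr_apply]
    rw [Function.comp_apply, h, Fin.append_left, Fin.append_left]
  · have h : lastPerm p σ (Fin.natAdd p j) = Fin.natAdd p (σ j) := by
      simp [lastPerm, Equiv.permCongr_apply]
    rw [Function.comp_apply, h, Fin.append_right, Fin.append_right]
    rfl

omit [DecidableEq I] [DecidableEq Λ] in
theorem permT_cont {p c : ℕ} (σ : Equiv.Perm (Fin c)) (u : Ten I p) (m : Ten I (p + c)) :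
    permT σ (cont D u m) = cont D u (permT (lastPerm p σ) m) := by
  funext w
  refine Finset.sum_congr rfl fun a _ => ?_
  change _ = sg D a * (u a * m (Fin.append (D.τ ∘ a) w ∘ lastPerm p σ))
  rw [append_lastPerm]

omit [Fintype I] in
/-- a matching is supported on one word of letters -/
theorem IsMatch.letters {L : ℕ} {m : Ten I L} (hm : IsMatch D L m) :
    ∃ γ : Fin L → Λ, ∀ w, m w ≠ 0 → ∀ i, D.typ (w i) = γ i := by
  induction hm with
  | nil => exact ⟨fun i => i.elim0, fun w _ i => i.elim0⟩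
  | step L m α _ ih =>
    obtain ⟨γ, h⟩ := ih
    refine ⟨Fin.append γ (fun _ => α), fun w hw i => ?_⟩
    have h1 : m (fun i => w (Fin.castAdd 2 i)) ≠ 0 := fun h0 => hw (by
      change m _ * om D α _ = 0
      rw [h0, zero_mul])
    have h2 : om D α (fun i => w (Fin.natAdd L i)) ≠ 0 := fun h0 => hw (by
      change m _ * om D α _ = 0
      rw [h0, mul_zero])
    have h3 : D.typ (w (Fin.natAdd L 0)) = α ∧ w (Fin.natAdd L 1) = D.τ (w (Fin.natAdd L 0)) := by
      by_contra h4
      exact h2 (if_neg h4)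
    refine Fin.addCases (m := L) (n := 2) (fun j => ?_) (fun j => ?_) i
    · rw [Fin.append_left]
      exact h _ h1 j
    · rw [Fin.append_right]
      fin_cases j
      · exact h3.1
      · change D.typ (w (Fin.natAdd L 1)) = α
        rw [h3.2, D.typ_τ]
        exact h3.1
  | perm L m σ _ ih =>
    obtain ⟨γ, h⟩ := ih
    refine ⟨γ ∘ σ.symm, fun w hw i => ?_⟩
    have h1 := h (w ∘ σ) hw (σ.symm i)
    rwa [Function.comp_apply, Equiv.apply_symm_apply] at h1

variable {ι : Type} [Fintype ι] {len : ι → ℕ}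

/-- the letter projection of the value of a diagram map is the value or `0` -/
theorem letT_dm {c : ℕ} (β : Fin c → Λ) (l : List ι) {m : Ten I ((l.map len).sum + c)}
    (hm : IsMatch D _ m) :
    (∀ s : Tup I len, letT D β (dm D c l m s) = dm D c l m s) ∨
      ∀ s : Tup I len, letT D β (dm D c l m s) = 0 := by
  obtain ⟨γ, hγ⟩ := hm.letters
  have key : ∀ (s : Tup I len) (w : Fin c → I), dm D c l m s w ≠ 0 →
      ∀ i, D.typ (w i) = γ (Fin.natAdd _ i) := by
    intro s w hw i
    obtain ⟨a, -, ha⟩ := Finset.exists_ne_zero_of_sum_ne_zero hw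
    have h1 : m (Fin.append (D.τ ∘ a) w) ≠ 0 := fun h0 => ha (by rw [h0, mul_zero, mul_zero])
    have h2 := hγ _ h1 (Fin.natAdd _ i)
    rwa [Fin.append_right] at h2
  by_cases hβ : ∀ i, β i = γ (Fin.natAdd _ i)
  · exact Or.inl fun s => letT_eq_self D fun w hw i => (key s w hw i).trans (hβ i).symm
  · refine Or.inr fun s => ?_
    funext w
    rw [letT_apply]
    split_ifs with h
    · by_contra h1
      exact hβ fun i => (h i).symm.trans (key s w h1 i)
    · rfl

theorem permT_dm {c : ℕ} (σ : Equiv.Perm (Fin c)) (l : List ι)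
    (m : Ten I ((l.map len).sum + c)) (s : Tup I len) :
    permT σ (dm D c l m s) = dm D c l (permT (lastPerm _ σ) m) s :=
  permT_cont D σ _ m

omit [Fintype I] [DecidableEq I] [DecidableEq Λ] [Fintype ι] in
theorem real_smul_ten {L : ℕ} (r : ℝ) (u : Ten I L) : r • u = (r : ℂ) • u := by
  funext w
  exact Complex.real_smul

theorem sgn_eq_real {L : ℕ} (σ : Equiv.Perm (Fin L)) :
    sgn σ = (((Equiv.Perm.sign σ : ℤ) : ℝ) : ℂ) := by
  simp [sgn]

/-- the antisymmetrizer as a real combination -/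
theorem altT_real {L : ℕ} (u : Ten I L) : altT L u
    = ((L.factorial : ℝ)⁻¹) • ∑ σ : Equiv.Perm (Fin L), ((Equiv.Perm.sign σ : ℤ) : ℝ) • permT σ u := by
  rw [altT_apply, real_smul_ten]
  push_cast
  congr 1

theorem permT_mem_RT {c : ℕ} (σ : Equiv.Perm (Fin c)) {s : Tup I len} {u : Ten I c}
    (hu : u ∈ RT D s c) : permT σ u ∈ RT D s c := by
  have h : RT D s c ≤ (RT D s c).comap ((permL (I := I) σ).restrictScalars ℝ) := by
    refine Submodule.span_le.2 ?_
    rintro _ ⟨l, m, hm, rfl⟩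
    exact Submodule.subset_span ⟨l, _, IsMatch.perm _ m (lastPerm _ σ) hm, permT_dm D σ l m s⟩
  exact h hu

theorem permT_mem_MT {c : ℕ} (σ : Equiv.Perm (Fin c)) {s : Tup I len} {u : Ten I c}
    (hu : u ∈ MT D s c) : permT σ u ∈ MT D s c := by
  have h : MT D s c ≤ (MT D s c).comap (permL (I := I) σ) := by
    refine Submodule.span_le.2 ?_
    rintro _ ⟨l, m, hm, rfl⟩
    exact Submodule.subset_span ⟨l, _, IsMatch.perm _ m (lastPerm _ σ) hm, permT_dm D σ l m s⟩
  exact h hu

theorem altT_mem_RT {c : ℕ} {s : Tup I len} {u : Ten I c} (hu : u ∈ RT D s c) :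
    altT c u ∈ RT D s c := by
  rw [altT_real]
  exact Submodule.smul_mem _ _ (Submodule.sum_mem _ fun σ _ =>
    Submodule.smul_mem _ _ (permT_mem_RT D σ hu))

theorem altT_mem_MT {c : ℕ} {s : Tup I len} {u : Ten I c} (hu : u ∈ MT D s c) :
    altT c u ∈ MT D s c := by
  rw [altT_apply]
  exact Submodule.smul_mem _ _ (Submodule.sum_mem _ fun σ _ =>
    Submodule.smul_mem _ _ (permT_mem_MT D σ hu))

theorem letT_mem_RT {c : ℕ} (β : Fin c → Λ) {s : Tup I len} {u : Ten I c} (hu : u ∈ RT D s c) :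
    letT D β u ∈ RT D s c := by
  have h : RT D s c ≤ (RT D s c).comap ((letT D β).restrictScalars ℝ) := by
    refine Submodule.span_le.2 ?_
    rintro _ ⟨l, m, hm, rfl⟩
    rcases letT_dm D β l hm with h1 | h1
    · exact Submodule.subset_span ⟨l, m, hm, h1 s⟩
    · change letT D β (dm D c l m s) ∈ RT D s c
      rw [h1 s]
      exact Submodule.zero_mem _
  exact h hu

theorem letT_mem_MT {c : ℕ} (β : Fin c → Λ) {s : Tup I len} {u : Ten I c} (hu : u ∈ MT D s c) :
    letT D β u ∈ MT D s c := by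
  have h : MT D s c ≤ (MT D s c).comap (letT D β) := by
    refine Submodule.span_le.2 ?_
    rintro _ ⟨l, m, hm, rfl⟩
    rcases letT_dm D β l hm with h1 | h1
    · exact Submodule.subset_span ⟨l, m, hm, h1 s⟩
    · change letT D β (dm D c l m s) ∈ MT D s c
      rw [h1 s]
      exact Submodule.zero_mem _
  exact h hu

end

end Pool.Agent.Lib.MP_361a6f_ag.FL
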