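import Pool.Agent.Lib.MP_361a6f_ag.FL.A.CloPi

/-!
# Theorem Y with projectors

`π i` is a linear map on the tensors of length `len i` that commutes with the group and with `J₀`
and fixes `t i`; the form is positive on the nonzero projections `π i u` of the real diagrams `u`.
-/

open Filter Topology MeasureTheory

set_option autoImplicit false
set_option linter.unusedSectionVars false

namespace Pool.Agent.Lib.MP_361a6f_ag.FL

/-- `ψ` is positive on the nonzero projections of the elements of the real span -/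
def PosPi {I Λ ι : Type} [Fintype I] [DecidableEq I] [DecidableEq Λ] [Fintype ι] {len : ι → ℕ}
    (D : Dat I Λ) (t : Tup I len) {c : ℕ} (π : Ten I c →ₗ[ℂ] Ten I c) : Prop :=
  ∀ u ∈ RT D t c, π u ≠ 0 → ∃ r : ℝ, 0 < r ∧ psiT D (π u) (π u) = (r : ℂ)

namespace YPi

open L12 CloT

variable {I Λ ι : Type} [Fintype I] [DecidableEq I] [DecidableEq Λ] [Fintype ι] {len : ι → ℕ}
  {D : Dat I Λ}

theorem real_smul {c : ℕ} (x : ℝ) (u : Ten I c) : x • u = (x : ℂ) • u := by
  funext w
  simp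

/-- the complex span is `R + i R` -/
theorem MT_split {s : Tup I len} {c : ℕ} {v : Ten I c} (hv : v ∈ MT D s c) :
    ∃ u₁ ∈ RT D s c, ∃ u₂ ∈ RT D s c, v = u₁ + Complex.I • u₂ := by
  unfold MT at hv
  induction hv using Submodule.span_induction with
  | mem x hx =>
    exact ⟨x, Submodule.subset_span hx, 0, Submodule.zero_mem _, by rw [smul_zero, add_zero]⟩
  | zero => exact ⟨0, Submodule.zero_mem _, 0, Submodule.zero_mem _, by rw [smul_zero, add_zero]⟩
  | add x y _ _ hx hy =>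
    obtain ⟨u₁, h1, u₂, h2, rfl⟩ := hx
    obtain ⟨v₁, h3, v₂, h4, rfl⟩ := hy
    refine ⟨u₁ + v₁, Submodule.add_mem _ h1 h3, u₂ + v₂, Submodule.add_mem _ h2 h4, ?_⟩
    rw [smul_add]
    abel
  | smul a x _ hx =>
    obtain ⟨u₁, h1, u₂, h2, rfl⟩ := hx
    refine ⟨a.re • u₁ + (-a.im) • u₂, Submodule.add_mem _ (Submodule.smul_mem _ _ h1)
      (Submodule.smul_mem _ _ h2), a.im • u₁ + a.re • u₂,
      Submodule.add_mem _ (Submodule.smul_mem _ _ h1) (Submodule.smul_mem _ _ h2), ?_⟩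
    funext w
    simp only [Pi.add_apply, Pi.smul_apply, smul_eq_mul, Complex.real_smul]
    apply Complex.ext
    · simp
      ring
    · simp
      ring

theorem RT_le_MT {s : Tup I len} {c : ℕ} {u : Ten I c} (hu : u ∈ RT D s c) : u ∈ MT D s c := by
  unfold RT at hu
  induction hu using Submodule.span_induction with
  | mem x hx => exact Submodule.subset_span hx
  | zero => exact Submodule.zero_mem _
  | add x y _ _ hx hy => exact Submodule.add_mem _ hx hy
  | smul a x _ hx =>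
    rw [real_smul]
    exact Submodule.smul_mem _ _ hx

variable (a1 : Alg1) (a2 : Alg2) (H : HM D)

include a1 a2 in
/-- the tensors in `MT` are fixed by the stabiliser -/
theorem MT_fix {s : Tup I len} {c : ℕ} {v : Ten I c} (hv : v ∈ MT D s c) {g : Matrix I I ℂ}
    (hg : IsG D g) (hgs : gS g s = s) : gT g v = v := by
  obtain ⟨f, hf, rfl⟩ := exists_DM hv
  rw [← DM_gS a2 a1 hf g s hg, hgs]

include a1 a2 in
/-- on the real span `J₀` is `k` -/
theorem RT_jT {s : Tup I len} {k : H.K} (hk : gS (H.mat k) s = jS D s) {c : ℕ} {u : Ten I c}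
    (hu : u ∈ RT D s c) : jT D u = gT (H.mat k) u := by
  unfold RT at hu
  induction hu using Submodule.span_induction with
  | mem x hx =>
    obtain ⟨l, m, hm, rfl⟩ := hx
    rw [← a2.dm_jS D c l m s hm, ← hk, a2.dm_gS D c l m _ s hm (H.mem k).1]
  | zero =>
    have h1 := a1.jT_smul D 0 (0 : Ten I c)
    have h2 := a1.gT_smul (H.mat k) 0 (0 : Ten I c)
    rw [zero_smul] at h1 h2
    rw [h1, h2, map_zero, zero_smul, zero_smul]
  | add x y _ _ hx hy => rw [a1.jT_add, a1.gT_add, hx, hy]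
  | smul a x _ hx =>
    rw [real_smul, a1.jT_smul, a1.gT_smul, hx, Complex.conj_ofReal]

include a1 a2 in
/-- `k` preserves the complex span -/
theorem MT_gT (l2 : L2Statement) {s : Tup I len} (hmin : Minimal D s) (hs : hS s s ≠ 0)
    {k : H.K} (hk : gS (H.mat k) s = jS D s) {c : ℕ} {v : Ten I c} (hv : v ∈ MT D s c) :
    gT (H.mat k) v ∈ MT D s c := by
  refine l2 H s hmin hs c _ fun x hx => ?_
  have h1 : gS (H.mat (k⁻¹ * x * k)) s = s := by
    rw [map_mul, map_mul, L12.gS_mul a1, L12.gS_mul a1, hk]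
    have h2 : gS (H.mat x) (jS D s) = jS D s := by
      funext i
      show gT (H.mat x) (jT D (s i)) = jT D (s i)
      rw [← a1.jT_gT D _ _ (H.mem x)]
      exact congrArg (jT D) (congrFun hx i)
    rw [h2, ← hk, inv_gS H a1]
  have h2 := MT_fix a1 a2 hv (H.mem (k⁻¹ * x * k)).1 h1
  calc gT (H.mat x) (gT (H.mat k) v) = gT (H.mat (k * (k⁻¹ * x * k))) v := by
        rw [← a1.gT_mul, ← map_mul]
        congr 2
        group
    _ = gT (H.mat k) (gT (H.mat (k⁻¹ * x * k)) v) := by rw [map_mul, a1.gT_mul]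
    _ = gT (H.mat k) v := by rw [h2]

include a1 a2 in
/-- the real span consists of the `v` with `J₀ v = k v` -/
theorem RT_of {s : Tup I len} {k : H.K} (hk : gS (H.mat k) s = jS D s) {c : ℕ} {v : Ten I c}
    (hv : v ∈ MT D s c) (h : jT D v = gT (H.mat k) v) : v ∈ RT D s c := by
  obtain ⟨u₁, h1, u₂, h2, rfl⟩ := MT_split hv
  rw [a1.jT_add, a1.jT_smul, a1.gT_add, a1.gT_smul, RT_jT a1 a2 H hk h1,
    RT_jT a1 a2 H hk h2, Complex.conj_I] at h
  have h3 : gT (H.mat k) u₂ = 0 := by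
    have h4 := add_left_cancel h
    funext w
    have h5 := congrFun h4 w
    simp only [Pi.smul_apply, smul_eq_mul, neg_mul] at h5
    have h6 : Complex.I * gT (H.mat k) u₂ w = 0 := by
      linear_combination (-1 / 2 : ℂ) * h5
    exact (mul_eq_zero.1 h6).resolve_left Complex.I_ne_zero
  have h4 : u₂ = 0 := by
    have h5 : gT (H.mat k⁻¹) (gT (H.mat k) u₂) = u₂ := by
      rw [← a1.gT_mul, ← map_mul, inv_mul_cancel, map_one, a1.gT_one]
    rw [← h5, h3]
    have h := a1.gT_smul (H.mat k⁻¹) 0 (0 : Ten I c)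
    rw [zero_smul, zero_smul] at h
    exact h
  rw [h4, smul_zero, add_zero]
  exact h1

theorem psiT_neg {c : ℕ} (u v : Ten I c) : psiT D u (-v) = -psiT D u v := by
  unfold psiT
  rw [← Finset.sum_neg_distrib]
  refine Finset.sum_congr rfl fun w _ => ?_
  simp

/-- in length `0` the real span consists of real numbers -/
theorem real_of_pos {s : Tup I len} (hpos : PosAt D s 0) {u : Ten I 0} (hu : u ∈ RT D s 0) :
    jT D u = u := by
  have h0 : ∀ w : Fin 0 → I, D.τ ∘ w = w := fun w => Subsingleton.elim _ _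
  have hsg : ∀ w : Fin 0 → I, sg D w = 1 := fun w => by
    unfold sg
    simp
  by_cases hne : u = 0
  · rw [hne]
    funext w
    unfold jT
    simp
  obtain ⟨r, hr, h1⟩ := hpos u hu hne
  funext w
  show sg D (D.τ ∘ w) * (starRingEnd ℂ) (u (D.τ ∘ w)) = u w
  rw [h0, hsg, one_mul]
  have h2 : psiT D u u = u w * u w := by
    unfold psiT
    rw [Fintype.sum_eq_single w (fun w' hw' => absurd (Subsingleton.elim w' w) hw'), h0, hsg,
      one_mul]
  rw [h2] at h1
  have hre := congrArg Complex.re h1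
  have him := congrArg Complex.im h1
  rw [Complex.mul_re, Complex.ofReal_re] at hre
  rw [Complex.mul_im, Complex.ofReal_im] at him
  have h3 : (u w).re * (u w).im = 0 := by linarith
  have h4 : (u w).im = 0 := by
    rcases mul_eq_zero.1 h3 with h5 | h5
    · rw [h5] at hre
      nlinarith [mul_self_nonneg (u w).im]
    · exact h5
  exact Complex.conj_eq_iff_im.2 h4

include a1 a2 in
/-- Step (a) of row REAL. -/
theorem stepA (l1 : L1Statement) {s : Tup I len}
    (hmin : Minimal D s) (hs : hS s s ≠ 0) (hpos : PosAt D s 0) :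
    ∃ k : H.K, gS (H.mat k) s = jS D s := by
  refine l1 H s (jS D s) hmin hs ?_ ?_
  · unfold hS
    exact Finset.sum_congr rfl fun i _ => a1.hT_jT_jT D (s i) (s i)
  · intro l m hm
    rw [a2.dm_jS D 0 l m s hm]
    exact real_of_pos hpos (Submodule.subset_span ⟨l, m, hm, rfl⟩)

include a1 a2 H in
/-- a minimal point at which the form is positive on the projected real diagrams is fixed by
`J₀` -/
theorem realPi (l1 : L1Statement) (l2 : L2Statement) {s : Tup I len} (hmin : Minimal D s)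
    (hs : hS s s ≠ 0) (π : ∀ i, Ten I (len i) →ₗ[ℂ] Ten I (len i))
    (hπj : ∀ i u, π i (jT D u) = jT D (π i u)) (hπs : ∀ i, π i (s i) = s i)
    (hpos : ∀ i, PosPi D s (π i)) (hpos0 : PosAt D s 0) (hjj : jS D (jS D s) = s) :
    jS D s = s := by
  obtain ⟨k, hk⟩ := stepA a1 a2 H l1 hmin hs hpos0
  have hkk : gS (H.mat (k * k)) s = s := by
    rw [map_mul, L12.gS_mul a1, hk]
    conv_rhs => rw [← hjj]
    funext i
    show gT (H.mat k) (jT D (s i)) = jT D (jT D (s i))
    rw [← a1.jT_gT D _ _ (H.mem k)]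
    exact congrArg (jT D) (congrFun hk i)
  funext i
  have hki : gT (H.mat k) (s i) = jT D (s i) := congrFun hk i
  have h1 : s i ∈ MT D s (len i) := l2 H s hmin hs _ _ fun x hx => congrFun hx i
  have h2 : s i ∈ RT D s (len i) := RT_of a1 a2 H hk h1 hki.symm
  have h3 : gT (H.mat k) (s i) ∈ RT D s (len i) := by
    refine RT_of a1 a2 H hk (MT_gT a1 a2 H l2 hmin hs hk h1) ?_
    rw [a1.jT_gT D _ _ (H.mem k), ← hki]
  have h4 : gT (H.mat k) (gT (H.mat k) (s i)) = s i := by
    rw [← a1.gT_mul, ← map_mul]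
    exact congrFun hkk i
  by_contra hne
  set w : Ten I (len i) := gT (H.mat k) (s i) - s i with hw
  have hwR : w ∈ RT D s (len i) := Submodule.sub_mem _ h3 h2
  have hπw : π i w = w := by
    rw [hw, map_sub, hki, hπj, hπs]
  have hw0 : w ≠ 0 := by
    intro h0
    apply hne
    show jT D (s i) = s i
    rw [← hki]
    exact sub_eq_zero.1 h0
  obtain ⟨r, hr, h5⟩ := hpos i w hwR (by rw [hπw]; exact hw0)
  rw [hπw] at h5
  have h6 : jT D w = -w := by
    rw [RT_jT a1 a2 H hk hwR, hw, gT_sub a1, h4]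
    abel
  have h7 := a1.psiT_jT D w w
  have h8 : psiT D w (-w) = -psiT D w w := by
    unfold psiT
    rw [← Finset.sum_neg_distrib]
    refine Finset.sum_congr rfl fun x _ => ?_
    simp
  rw [h6, h8, h5, a1.hT_self] at h7
  have h9 : -r = ∑ x, ‖w x‖ ^ 2 := by exact_mod_cast h7
  have h10 : 0 ≤ ∑ x, ‖w x‖ ^ 2 := Finset.sum_nonneg fun x _ => by positivity
  linarith

theorem gT_zero (a1 : Alg1) (g : Matrix I I ℂ) {c : ℕ} : gT g (0 : Ten I c) = 0 := by
  have h := a1.gT_smul g 0 (0 : Ten I c)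
  rwa [zero_smul, zero_smul] at h

include a1 a2 in
/-- positivity is transported -/
theorem posPi_gS {g : Matrix I I ℂ} (hg : IsG D g) {s t : Tup I len} (h : gS g s = t) {c : ℕ}
    {π : Ten I c →ₗ[ℂ] Ten I c} (hπ : ∀ g u, IsG D g → π (gT g u) = gT g (π u))
    (hp : PosPi D t π) : PosPi D s π := by
  intro u hu hne
  have h1 : gT g u ∈ RT D t c := XY.gT_RT a1 a2 hg h hu
  have h2 : π (gT g u) ≠ 0 := by
    intro h3
    apply hne
    rw [hπ _ _ hg] at h3
    rw [← XY.inv_gT a1 hg (π u), h3, gT_zero a1]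
  obtain ⟨r, hr, hr'⟩ := hp _ h1 h2
  exact ⟨r, hr, by rw [← hr', hπ _ _ hg, a1.psiT_gT D g _ _ hg]⟩

include a1 a2 in
/-- positivity implies nondegeneracy -/
theorem ndPi_of_posPi {t : Tup I len} (ht : jS D (jS D t) = t) {c : ℕ}
    {π : Ten I c →ₗ[ℂ] Ten I c} (hπj : ∀ u, π (jT D u) = jT D (π u)) (hp : PosPi D t π) :
    CloPi.NdPi D t π := by
  intro u hu hne
  obtain ⟨a, ha, b, hb, rfl⟩ := XY.MT_split hu
  refine ⟨a + (-Complex.I) • b, add_mem (XY.RT_le_MT ha) (Submodule.smul_mem _ _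
    (XY.RT_le_MT hb)), ?_⟩
  have hj : ∀ x ∈ RT D t c, jT D (jT D (π x)) = π x := by
    intro x hx
    rw [← hπj, ← hπj, XY.jj_MT a1 a2 ht (XY.RT_le_MT hx)]
  rw [map_add, map_add, map_smul, map_smul, XY.psiT_expand, XY.psiT_symm a1 (hj b hb) (hj a ha)]
  have h0 : psiT D (0 : Ten I c) 0 = 0 := by simp [psiT]
  have hq : ∀ x ∈ RT D t c, ∃ r : ℝ, 0 ≤ r ∧ psiT D (π x) (π x) = (r : ℂ) ∧
      (π x ≠ 0 → 0 < r) := by
    intro x hx
    by_cases h : π x = 0
    · exact ⟨0, le_rfl, by rw [h, h0]; simp, fun h' => absurd h h'⟩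
    · obtain ⟨r, hr, hr'⟩ := hp x hx h
      exact ⟨r, hr.le, hr', fun _ => hr⟩
  obtain ⟨r, hr, hr', hr''⟩ := hq a ha
  obtain ⟨q, hq0, hq', hq''⟩ := hq b hb
  rw [hr', hq']
  have h1 : (r : ℂ) + -Complex.I * psiT D (π a) (π b) + Complex.I * psiT D (π a) (π b)
      + Complex.I * -Complex.I * (q : ℂ) = ((r + q : ℝ) : ℂ) := by
    push_cast
    linear_combination (-(q : ℂ)) * Complex.I_mul_I
  rw [h1]
  have h2 : 0 < r + q := by
    by_cases h : π a = 0
    · have hb0 : π b ≠ 0 := by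
        intro hb0
        exact hne (by rw [map_add, map_smul, h, hb0]; simp)
      have := hq'' hb0
      linarith
    · have := hr'' h
      linarith
  exact_mod_cast h2.ne'

end YPi

open XY in
/-- Theorem Y with projectors. -/
theorem yPi (a1 : Alg1) (a2 : Alg2) (cpt : CptStatement) (mn : MinStatement)
    (hvol : VolStatement) (hpha : PhaStatement) (havg : AvgStatement) (l1 : L1Statement)
    (l2 : L2Statement) {I Λ ι : Type} [Fintype I] [DecidableEq I] [DecidableEq Λ] [Fintype ι]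
    {len : ι → ℕ} (D : Dat I Λ) (π : ∀ i, Ten I (len i) →ₗ[ℂ] Ten I (len i))
    (hπ : ∀ i g u, IsG D g → π i (gT g u) = gT g (π i u))
    (hπj : ∀ i u, π i (jT D u) = jT D (π i u)) (t : Tup I len) (ht : ∀ i, π i (t i) = t i)
    (hpos : ∀ i, PosPi D t (π i)) (hpos0 : PosAt D t 0) (hunit : ∃ i, len i = 0 ∧ ∀ w, t i w = 1)
    (hjj : jS D (jS D t) = t) :
    ∃ g, IsG D g ∧ (∀ i, gT g (jT D (gT g⁻¹ (t i))) = t i) ∧
      ∀ (c : ℕ) (v : Ten I c), (∀ x, IsG D x → gS x t = t → gT x v = v) → v ∈ MT D t c := by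
  obtain ⟨i₀, h0, h1⟩ := hunit
  obtain ⟨s, g₀, hg₀, hlim, hmin⟩ := mn D t
  have hne := hS_ne a1 i₀ h0 h1 g₀ hlim
  obtain ⟨H⟩ := cpt D
  obtain ⟨g, hg, hgs⟩ := cloPi a1 a2 hvol hpha havg H π hπ t s ht
    (fun i => YPi.ndPi_of_posPi a1 a2 hjj (hπj i) (hpos i)) hne hmin g₀ hg₀ hlim
  have hinv : IsG D g⁻¹ := (a1.G_inv D g hg).1
  have hs := inv_gS a1 hg hgs
  have hjs : jS D (jS D s) = s := by
    rw [← hs]
    funext i
    change jT D (jT D (gT g⁻¹ (t i))) = gT g⁻¹ (t i)
    rw [jT_jT_gT D _ hinv]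
    have : jT D (jT D (t i)) = t i := congrFun hjj i
    rw [this]
  have hπs : ∀ i, π i (s i) = s i := by
    intro i
    rw [← hs]
    show π i (gT g⁻¹ (t i)) = gT g⁻¹ (t i)
    rw [hπ i _ _ hinv, ht]
  have hreal : jS D s = s := YPi.realPi a1 a2 H l1 l2 hmin hne π hπj hπs
    (fun i => YPi.posPi_gS a1 a2 hg hgs (hπ i) (hpos i)) (posAt_gS a1 a2 hg hgs hpos0) hjs
  refine ⟨g, hg, fun i => ?_, fun c v hv => ?_⟩
  · have h1 : gT g⁻¹ (t i) = s i := congrFun hs i
    have h2 : jT D (s i) = s i := congrFun hreal i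
    rw [h1, h2]
    exact congrFun hgs i
  · have h1 := l2 H s hmin hne c (gT g⁻¹ v)
      (fun k hk => inv_stab a1 hg hgs hv (H.mem k).1 hk)
    have h2 := gT_MT a1 a2 hg hgs h1
    rwa [gT_inv a1 hg] at h2

end Pool.Agent.Lib.MP_361a6f_ag.FL
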