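import Pool.Agent.Lib.MP_361a6f_ag.FL.Qps
import Pool.Agent.Lib.MP_361a6f_ag.FL.A.YPi

/-!
# Rational systems of tensors and projectors

A system of rational tensors, closed under the diagram operations, and finitely many projectors
such that `ψ` is positive on the members of the system in the images of the projectors. Then these
members are fixed by one real structure `g J₀ g⁻¹`.
-/

open Filter Topology MeasureTheory

set_option linter.unusedSectionVars false
set_option linter.unusedVariables false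

namespace Pool.Agent.Lib.MP_361a6f_ag.FL

variable {I Λ : Type} [Fintype I] [DecidableEq I] [DecidableEq Λ]

open Qps

/-- a rational space of tensors of one length -/
structure QSp (D : Dat I Λ) {L : ℕ} (P : Ten I L → Prop) : Prop where
  zero : P 0
  add : ∀ u v, P u → P v → P (u + v)
  qsmul : ∀ (q : ℚ) u, P u → P ((q : ℂ) • u)
  rat : ∀ u v, P u → P v → ∃ q : ℚ, psiT D u v = (q : ℂ)
  even : ∀ u, P u → jT D (jT D u) = u

namespace Qpi

variable {D : Dat I Λ} {L : ℕ} {P : Ten I L → Prop}

/-- a finite set of nonzero orthogonal vectors of the space -/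
structure Orth (D : Dat I Λ) {L : ℕ} (P : Ten I L → Prop) (T : Finset (Ten I L)) : Prop where
  mem : ∀ x ∈ T, P x
  ne : ∀ x ∈ T, x ≠ 0
  orth : ∀ x ∈ T, ∀ y ∈ T, x ≠ y → psiT D x y = 0

theorem orth_ext (S : QSp D P) (a1 : Alg1)
    (hpos : ∀ u, P u → u ≠ 0 → ∃ q : ℚ, 0 < q ∧ psiT D u u = (q : ℂ))
    {T : Finset (Ten I L)} (hT : Orth D P T) {v : Ten I L} (hv : P v) :
    ∃ T' : Finset (Ten I L), T ⊆ T' ∧ Orth D P T' ∧
      v ∈ Submodule.span ℝ (T' : Set (Ten I L)) := by
  classical
  -- the coefficients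
  have hc : ∀ w : Ten I L, ∃ q : ℚ, w ∈ T → psiT D v w = (q : ℂ) * psiT D w w := by
    intro w
    by_cases hw : w ∈ T
    · obtain ⟨q, hq⟩ := S.rat _ _ hv (hT.mem w hw)
      obtain ⟨r, hr, hr'⟩ := hpos w (hT.mem w hw) (hT.ne w hw)
      refine ⟨q / r, fun _ => ?_⟩
      rw [hq, hr']
      have : (r : ℂ) ≠ 0 := by exact_mod_cast hr.ne'
      push_cast
      field_simp
    · exact ⟨0, fun h => absurd h hw⟩
  choose c hc using hc
  have hsum : ∀ T₁ : Finset (Ten I L), T₁ ⊆ T → P (∑ w ∈ T₁, (c w : ℂ) • w) := by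
    intro T₁
    induction T₁ using Finset.induction_on with
    | empty => intro _; simpa using S.zero
    | insert a s ha ih =>
      intro h
      rw [Finset.sum_insert ha]
      exact S.add _ _ (S.qsmul _ _ (hT.mem a (h (Finset.mem_insert_self a s))))
        (ih (fun x hx => h (Finset.mem_insert_of_mem hx)))
  set p : Ten I L := ∑ w ∈ T, (c w : ℂ) • w with hp
  have hpAt : P p := hsum T (Finset.Subset.refl _)
  have hpspan : p ∈ Submodule.span ℝ (T : Set (Ten I L)) := by
    refine Submodule.sum_mem _ (fun w hw => ?_)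
    have : (c w : ℂ) • w = (c w : ℝ) • w := by rw [real_smul]; push_cast; rfl
    rw [this]
    exact Submodule.smul_mem _ _ (Submodule.subset_span hw)
  have hv' : P (v - p) := by
    have h1 : v - p = v + ((-1 : ℚ) : ℂ) • p := by push_cast; rw [neg_one_smul, sub_eq_add_neg]
    rw [h1]
    exact S.add _ _ hv (S.qsmul _ _ hpAt)
  have hperp : ∀ w ∈ T, psiT D (v - p) w = 0 := by
    intro w hw
    rw [← psiL_apply, map_sub, LinearMap.sub_apply, hp, map_sum, LinearMap.sum_apply]
    rw [Finset.sum_eq_single w]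
    · rw [map_smul, LinearMap.smul_apply, psiL_apply, psiL_apply, hc w hw, smul_eq_mul, sub_self]
    · intro b hb hbw
      rw [map_smul, LinearMap.smul_apply, psiL_apply, hT.orth b hb w hw hbw, smul_zero]
    · intro h
      exact absurd hw h
  by_cases h0 : v - p = 0
  · refine ⟨T, Finset.Subset.refl _, hT, ?_⟩
    rw [sub_eq_zero.1 h0]
    exact hpspan
  · refine ⟨insert (v - p) T, Finset.subset_insert _ _, ⟨?_, ?_, ?_⟩, ?_⟩
    · intro x hx
      rcases Finset.mem_insert.1 hx with rfl | hx
      · exact hv'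
      · exact hT.mem x hx
    · intro x hx
      rcases Finset.mem_insert.1 hx with rfl | hx
      · exact h0
      · exact hT.ne x hx
    · intro x hx y hy hxy
      rcases Finset.mem_insert.1 hx with rfl | hx
      · rcases Finset.mem_insert.1 hy with rfl | hy
        · exact absurd rfl hxy
        · exact hperp y hy
      · rcases Finset.mem_insert.1 hy with rfl | hy
        · rw [psi_symm a1 (S.even _ (hT.mem x hx)) (S.even _ hv')]
          exact hperp x hx
        · exact hT.orth x hx y hy hxy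
    · have hle : Submodule.span ℝ (T : Set (Ten I L))
          ≤ Submodule.span ℝ ((insert (v - p) T : Finset (Ten I L)) : Set (Ten I L)) :=
        Submodule.span_mono (by simp)
      have h1 : (v - p) + p ∈ Submodule.span ℝ
          ((insert (v - p) T : Finset (Ten I L)) : Set (Ten I L)) :=
        Submodule.add_mem _ (Submodule.subset_span (by simp)) (hle hpspan)
      rwa [sub_add_cancel] at h1

theorem orth_ext_fin (S : QSp D P) (a1 : Alg1)
    (hpos : ∀ u, P u → u ≠ 0 → ∃ q : ℚ, 0 < q ∧ psiT D u u = (q : ℂ))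
    (V : Finset (Ten I L)) : ∀ {T : Finset (Ten I L)} (_ : Orth D P T) (_ : ∀ v ∈ V, P v),
    ∃ T' : Finset (Ten I L), T ⊆ T' ∧ Orth D P T' ∧
      ∀ v ∈ V, v ∈ Submodule.span ℝ (T' : Set (Ten I L)) := by
  classical
  induction V using Finset.induction_on with
  | empty => intro T hT _; exact ⟨T, Finset.Subset.refl _, hT, by simp⟩
  | insert a s ha ih =>
    intro T hT hV
    obtain ⟨T₁, h1, h2, h3⟩ := ih hT (fun v hv => hV v (Finset.mem_insert_of_mem hv))
    obtain ⟨T₂, h4, h5, h6⟩ := orth_ext S a1 hpos h2 (hV a (Finset.mem_insert_self a s))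
    refine ⟨T₂, h1.trans h4, h5, fun v hv => ?_⟩
    rcases Finset.mem_insert.1 hv with rfl | hv
    · exact h6
    · exact Submodule.span_mono (by exact_mod_cast h4) (h3 v hv)

/-- every vector of the real span of the space is in the real span of an orthogonal set -/
theorem exists_orth (S : QSp D P) (a1 : Alg1)
    (hpos : ∀ u, P u → u ≠ 0 → ∃ q : ℚ, 0 < q ∧ psiT D u u = (q : ℂ))
    {u : Ten I L} (hu : u ∈ Submodule.span ℝ {v : Ten I L | P v}) :
    ∃ T : Finset (Ten I L), Orth D P T ∧ u ∈ Submodule.span ℝ (T : Set (Ten I L)) := by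
  obtain ⟨V, hV, huV⟩ := Submodule.mem_span_finite_of_mem_span hu
  obtain ⟨T, -, h1, h2⟩ := orth_ext_fin S a1 hpos V (T := ∅)
    ⟨by simp, by simp, by simp⟩ (fun v hv => hV hv)
  exact ⟨T, h1, (Submodule.span_le.2 (fun v hv => h2 v hv)) huV⟩

theorem pos_span (S : QSp D P) (a1 : Alg1)
    (hpos : ∀ u, P u → u ≠ 0 → ∃ q : ℚ, 0 < q ∧ psiT D u u = (q : ℂ))
    {u : Ten I L} (hu : u ∈ Submodule.span ℝ {v : Ten I L | P v}) (h0 : u ≠ 0) :
    ∃ r : ℝ, 0 < r ∧ psiT D u u = (r : ℂ) := by
  classical
  obtain ⟨T, hT, huT⟩ := exists_orth S a1 hpos hu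
  obtain ⟨f, -, hf⟩ := Submodule.mem_span_finset.1 huT
  -- the values on the diagonal
  have hd : ∀ w : Ten I L, ∃ r : ℝ, w ∈ T → 0 < r ∧ psiT D w w = (r : ℂ) := by
    intro w
    by_cases hw : w ∈ T
    · obtain ⟨q, hq, hq'⟩ := hpos w (hT.mem w hw) (hT.ne w hw)
      exact ⟨(q : ℝ), fun _ => ⟨by exact_mod_cast hq, by rw [hq']; push_cast; rfl⟩⟩
    · exact ⟨0, fun h => absurd h hw⟩
  choose d hd using hd
  have hval : psiT D u u = ((∑ w ∈ T, f w ^ 2 * d w : ℝ) : ℂ) := by
    rw [← hf, ← psiL_apply]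
    simp only [real_smul, map_sum, map_smul, LinearMap.sum_apply, LinearMap.smul_apply]
    push_cast
    refine Finset.sum_congr rfl (fun w hw => ?_)
    rw [Finset.sum_eq_single w]
    · rw [psiL_apply, (hd w hw).2, smul_eq_mul, smul_eq_mul]
      ring
    · intro b hb hbw
      rw [psiL_apply, hT.orth b hb w hw hbw, smul_zero]
      try simp
    · intro h
      exact absurd hw h
  refine ⟨∑ w ∈ T, f w ^ 2 * d w, ?_, hval⟩
  have hnn : ∀ w ∈ T, 0 ≤ f w ^ 2 * d w := fun w hw => mul_nonneg (sq_nonneg _) (hd w hw).1.le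
  rcases (Finset.sum_nonneg hnn).lt_or_eq with h | h
  · exact h
  · exfalso
    apply h0
    rw [← hf]
    refine Finset.sum_eq_zero (fun w hw => ?_)
    have h1 := (Finset.sum_eq_zero_iff_of_nonneg hnn).1 h.symm w hw
    have h2 : f w = 0 := by
      rcases mul_eq_zero.1 h1 with h2 | h2
      · exact pow_eq_zero_iff (two_ne_zero) |>.1 h2
      · exact absurd h2 (hd w hw).1.ne'
    rw [h2, zero_smul]

/-- the values of `ψ` on the real span of the space are real -/
theorem psi_real (S : QSp D P) {v : Ten I L} (hv : P v) {x : Ten I L}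
    (hx : x ∈ Submodule.span ℝ {u : Ten I L | P u}) : (psiT D x v).im = 0 := by
  induction hx using Submodule.span_induction with
  | mem u hu =>
    obtain ⟨q, hq⟩ := S.rat _ _ hu hv
    rw [hq]
    exact_mod_cast Complex.ofReal_im (q : ℝ)
  | zero => rw [← psiL_apply, map_zero]; rfl
  | add a b _ _ ha hb =>
    rw [← psiL_apply, map_add, LinearMap.add_apply, psiL_apply, psiL_apply, Complex.add_im, ha, hb,
      add_zero]
  | smul c a _ ha =>
    rw [real_smul, ← psiL_apply, map_smul, LinearMap.smul_apply, psiL_apply, smul_eq_mul,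
      Complex.im_ofReal_mul, ha, mul_zero]

/-- members of the space in the complex span of fixed members are fixed -/
theorem fixed_of_span (S : QSp D P) (a1 : Alg1)
    (hpos : ∀ u, P u → u ≠ 0 → ∃ q : ℚ, 0 < q ∧ psiT D u u = (q : ℂ))
    (g : Matrix I I ℂ) {B : Set (Ten I L)} (hBAt : ∀ b ∈ B, P b) (hB : ∀ b ∈ B, jG D g b = b)
    {z : Ten I L} (hz : P z) (hzB : z ∈ Submodule.span ℂ B) : jG D g z = z := by
  obtain ⟨x, hx, y, hy, hxy⟩ := re_im B hzB
  have hle : Submodule.span ℝ B ≤ Submodule.span ℝ {u : Ten I L | P u} :=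
    Submodule.span_mono (fun b hb => hBAt b hb)
  -- `y` is orthogonal to the members of `B`
  have h1 : ∀ b ∈ B, psiT D y b = 0 := by
    intro b hb
    have e1 := psi_real S (hBAt b hb) (hle hx)
    have e2 := psi_real S (hBAt b hb) (hle hy)
    have e3 := psi_real S (hBAt b hb)
      (Submodule.subset_span (R := ℝ) (show z ∈ {u : Ten I L | P u} from hz))
    rw [hxy, ← psiL_apply, map_add, LinearMap.add_apply, map_smul, LinearMap.smul_apply,
      psiL_apply, psiL_apply, Complex.add_im, e1, zero_add, smul_eq_mul, Complex.I_mul_im] at e3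
    exact Complex.ext e3 e2
  have h2 : ∀ v ∈ Submodule.span ℝ B, psiT D y v = 0 := by
    intro v hv
    induction hv using Submodule.span_induction with
    | mem u hu => exact h1 u hu
    | zero => rw [← psiL_apply, map_zero]
    | add a b _ _ ha hb => rw [← psiL_apply, map_add, psiL_apply, psiL_apply, ha, hb, add_zero]
    | smul c a _ ha => rw [real_smul, ← psiL_apply, map_smul, psiL_apply, ha, smul_zero]
  have h3 : y = 0 := by
    by_contra h
    obtain ⟨r, hr, hr'⟩ := pos_span S a1 hpos (hle hy) h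
    rw [h2 y hy] at hr'
    have : r = 0 := by exact_mod_cast hr'.symm
    exact hr.ne' this
  rw [hxy, h3, smul_zero, add_zero]
  exact jG_real a1 g hB hx

end Qpi

/-- The theorem `Theorem Y with projectors', its rows being given. -/
def YPiStatement : Prop :=
  ∀ {I Λ ι : Type} [Fintype I] [DecidableEq I] [DecidableEq Λ] [Fintype ι] {len : ι → ℕ}
    (D : Dat I Λ) (π : ∀ i, Ten I (len i) →ₗ[ℂ] Ten I (len i)),
    (∀ i g u, IsG D g → π i (gT g u) = gT g (π i u)) →
    (∀ i u, π i (jT D u) = jT D (π i u)) → ∀ t : Tup I len, (∀ i, π i (t i) = t i) →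
    (∀ i, PosPi D t (π i)) → PosAt D t 0 → (∃ i, len i = 0 ∧ ∀ w, t i w = 1) →
    jS D (jS D t) = t →
    ∃ g, IsG D g ∧ (∀ i, gT g (jT D (gT g⁻¹ (t i))) = t i) ∧
      ∀ (c : ℕ) (v : Ten I c), (∀ x, IsG D x → gS x t = t → gT x v = v) → v ∈ MT D t c

/-- **The real structure**: finitely many projectors `π x` that preserve a rational system; if the
form is positive on the members of the system in the images of the `π x`, then these members are
fixed by one operator `g J₀ g⁻¹`. -/
theorem qpi (hY : YPiStatement) (a1 : Alg1) {D : Dat I Λ} {At : (L : ℕ) → Ten I L → Prop}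
    (S : ASys D At) {κ : Type} [Fintype κ] (ln : κ → ℕ)
    (π : ∀ x, Ten I (ln x) →ₗ[ℂ] Ten I (ln x))
    (hg : ∀ x g u, IsG D g → π x (gT g u) = gT g (π x u))
    (hj : ∀ x u, π x (jT D u) = jT D (π x u)) (hid : ∀ x u, π x (π x u) = π x u)
    (hAt : ∀ x u, At (ln x) u → At (ln x) (π x u))
    (hpos : ∀ x u, At (ln x) u → π x u = u → u ≠ 0 → ∃ q : ℚ, 0 < q ∧ psiT D u u = (q : ℂ)) :
    ∃ g : Matrix I I ℂ, IsG D g ∧ ∀ x u, At (ln x) u → π x u = u →
      gT g (jT D (gT g⁻¹ u)) = u := by
  classical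
  have hQ : ∀ x, QSp D (fun u => At (ln x) u ∧ π x u = u) := fun x =>
    { zero := ⟨S.zero _, map_zero _⟩
      add := fun u v hu hv => ⟨S.add _ _ _ hu.1 hv.1, by rw [map_add, hu.2, hv.2]⟩
      qsmul := fun q u hu => ⟨S.qsmul _ _ _ hu.1, by rw [map_smul, hu.2]⟩
      rat := fun u v hu hv => psi_rat S hu.1 hv.1
      even := fun u hu => S.even _ _ hu.1 }
  have hP : ∀ x u, (At (ln x) u ∧ π x u = u) → u ≠ 0 → ∃ q : ℚ, 0 < q ∧ psiT D u u = (q : ℂ) :=
    fun x u hu h0 => hpos x u hu.1 hu.2 h0
  -- finite sets that span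
  have hb : ∀ x : κ, ∃ B : Set (Ten I (ln x)), B.Finite ∧
      (∀ b ∈ B, At (ln x) b ∧ π x b = b) ∧
      ∀ u, (At (ln x) u ∧ π x u = u) → u ∈ Submodule.span ℂ B := by
    intro x
    obtain ⟨B, hB1, hB2, hB3⟩ := exists_linearIndependent ℂ
      {u : Ten I (ln x) | At (ln x) u ∧ π x u = u}
    exact ⟨B, hB3.setFinite, fun b hb => hB1 hb, fun u hu => by
      rw [hB2]; exact Submodule.subset_span hu⟩
  choose B hB1 hB2 hB3 using hb
  have : ∀ x, Fintype (B x) := fun x => (hB1 x).fintype
  let ι : Type := Option (Σ x : κ, B x)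
  let len : ι → ℕ := fun i => i.elim 0 (fun x => ln x.1)
  let t : Tup I len := fun i => match i with
    | none => fun _ => 1
    | some x => x.2.1
  let p : ∀ i : ι, Ten I (len i) →ₗ[ℂ] Ten I (len i) := fun i => match i with
    | none => LinearMap.id
    | some x => π x.1
  have ht : ∀ i, At (len i) (t i) := by
    intro i
    match i with
    | none => exact S.one
    | some x => exact (hB2 _ _ x.2.2).1
  have hRT : ∀ c, RT D t c ≤ Submodule.span ℝ {v : Ten I c | At c v} := by
    intro c
    refine Submodule.span_mono ?_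
    rintro v ⟨l, m, hm, rfl⟩
    exact dm_mem S ht c l hm
  have hpos0 : PosAt D t 0 := by
    refine posAt S a1 ?_ ht
    intro u hu h0
    obtain ⟨q, hq⟩ := S.rat u hu
    have hq0 : q ≠ 0 := by
      rintro rfl
      apply h0
      funext w
      rw [hq w]
      simp
    refine ⟨q * q, mul_self_pos.2 hq0, ?_⟩
    unfold psiT
    rw [Fintype.sum_eq_single (Fin.elim0 : Fin 0 → I)
      (fun w' hw' => absurd (Subsingleton.elim w' _) hw'), hq, hq]
    simp [sg]
  obtain ⟨g, hgG, hgt, -⟩ := hY D p (by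
      intro i g u hg'
      match i with
      | none => rfl
      | some x => exact hg x.1 g u hg')
    (by
      intro i u
      match i with
      | none => rfl
      | some x => exact hj x.1 u) t
    (by
      intro i
      match i with
      | none => rfl
      | some x => exact (hB2 _ _ x.2.2).2)
    (by
      intro i
      match i with
      | none =>
        intro u hu h0
        exact hpos0 u hu h0
      | some x =>
        intro u hu h0
        refine Qpi.pos_span (hQ x.1) a1 (hP x.1) ?_ h0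
        have h1 := hRT _ hu
        have h2 : ∀ v ∈ Submodule.span ℝ {v : Ten I (ln x.1) | At (ln x.1) v},
            π x.1 v ∈ Submodule.span ℝ {v : Ten I (ln x.1) | At (ln x.1) v ∧ π x.1 v = v} := by
          intro v hv
          induction hv using Submodule.span_induction with
          | mem v hv => exact Submodule.subset_span ⟨hAt x.1 v hv, hid x.1 v⟩
          | zero => rw [map_zero]; exact Submodule.zero_mem _
          | add a b _ _ ha hb => rw [map_add]; exact Submodule.add_mem _ ha hb
          | smul c a _ ha =>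
            rw [real_smul, map_smul, ← real_smul]
            exact Submodule.smul_mem _ c ha
        exact h2 u h1)
    hpos0 ⟨none, rfl, fun _ => rfl⟩ (by
      funext i
      exact S.even _ _ (ht i))
  refine ⟨g, hgG, fun x u hu hπu => ?_⟩
  refine Qpi.fixed_of_span (hQ x) a1 (hP x) g (hB2 x) ?_ ⟨hu, hπu⟩ (hB3 x u ⟨hu, hπu⟩)
  intro b hb
  exact hgt (some ⟨x, ⟨b, hb⟩⟩)

end Pool.Agent.Lib.MP_361a6f_ag.FL
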