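import Mathlib

/-!
# Comparison of signatures: the square root of a positive operator
-/

set_option autoImplicit false

namespace Pool.Agent.Lib.MP_361a6f_ag.FL.CMP

/-- An operator `N` that is positive for an inner product `g` and symmetric for a second form `C`
has a square root `T` with `C(T x, T y) = C(N x, y)`. -/
theorem exists_sqrt {V : Type*} [AddCommGroup V] [Module ℝ V] [FiniteDimensional ℝ V]
    (g : V →ₗ[ℝ] V →ₗ[ℝ] ℝ) (C : V →ₗ[ℝ] V →ₗ[ℝ] ℂ) (N : V →ₗ[ℝ] V)
    (hg : ∀ x y, g x y = g y x) (hpos : ∀ x, x ≠ 0 → 0 < g x x)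
    (hN : ∀ x y, g (N x) y = g x (N y)) (hNp : ∀ x, x ≠ 0 → 0 < g (N x) x)
    (hC : ∀ x y, C (N x) y = C x (N y)) :
    ∃ T : V ≃ₗ[ℝ] V, ∀ x y, C (T x) (T y) = C (N x) y := by
  let core : InnerProductSpace.Core ℝ V :=
    { inner := fun x y => g x y
      conj_inner_symm := fun x y => by
        change (starRingEnd ℝ) (g y x) = g x y
        rw [starRingEnd_apply, star_trivial]
        exact hg y x
      re_inner_nonneg := fun x => by
        change 0 ≤ g x x
        by_cases h : x = 0
        · rw [h]; simp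
        · exact (hpos x h).le
      add_left := fun x y z => by
        change g (x + y) z = g x z + g y z
        rw [map_add, LinearMap.add_apply]
      smul_left := fun x y r => by
        change g (r • x) y = (starRingEnd ℝ) r * g x y
        rw [map_smul, LinearMap.smul_apply, starRingEnd_apply, star_trivial, smul_eq_mul]
      definite := fun x h => by
        by_contra h0
        have h1 := hpos x h0
        change g x x = 0 at h
        rw [h] at h1
        exact lt_irrefl _ h1 }
  let _ : NormedAddCommGroup V := core.toNormedAddCommGroup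
  let _ : InnerProductSpace ℝ V := InnerProductSpace.ofCore core.toCore
  have hin : ∀ x y : V, inner ℝ x y = g x y := fun x y => rfl
  have hT : N.IsSymmetric := fun x y => by
    rw [hin, hin]
    exact hN x y
  obtain ⟨n, hn⟩ : ∃ n, Module.finrank ℝ V = n := ⟨_, rfl⟩
  let b := hT.eigenvectorBasis hn
  let μ := hT.eigenvalues hn
  have hb : ∀ i, N (b i) = μ i • b i := fun i => hT.apply_eigenvectorBasis hn i
  have hb0 : ∀ i, b i ≠ 0 := fun i => b.orthonormal.ne_zero i
  have hμ : ∀ i, 0 < μ i := by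
    intro i
    have h1 := hNp (b i) (hb0 i)
    rw [hb, map_smul, LinearMap.smul_apply, smul_eq_mul] at h1
    exact (pos_iff_pos_of_mul_pos h1).2 (hpos _ (hb0 i))
  have hs : ∀ i, Real.sqrt (μ i) ≠ 0 := fun i => (Real.sqrt_pos.2 (hμ i)).ne'
  let β : Module.Basis (Fin n) ℝ V := b.toBasis
  have hβ : ∀ i, β i = b i := fun i => b.coe_toBasis ▸ rfl
  let T : V →ₗ[ℝ] V := β.constr ℝ fun i => Real.sqrt (μ i) • b i
  let T' : V →ₗ[ℝ] V := β.constr ℝ fun i => (Real.sqrt (μ i))⁻¹ • b i
  have hTb : ∀ i, T (b i) = Real.sqrt (μ i) • b i := fun i => by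
    have := β.constr_basis ℝ (fun i => Real.sqrt (μ i) • b i) i
    rwa [hβ] at this
  have hTb' : ∀ i, T' (b i) = (Real.sqrt (μ i))⁻¹ • b i := fun i => by
    have := β.constr_basis ℝ (fun i => (Real.sqrt (μ i))⁻¹ • b i) i
    rwa [hβ] at this
  refine ⟨LinearEquiv.ofLinearMap T T' ?_ ?_, ?_⟩
  · refine β.ext fun i => ?_
    rw [hβ, LinearMap.comp_apply, hTb', map_smul, hTb, smul_smul, inv_mul_cancel₀ (hs i),
      one_smul]
    rfl
  · refine β.ext fun i => ?_
    rw [hβ, LinearMap.comp_apply, hTb, map_smul, hTb', smul_smul, mul_inv_cancel₀ (hs i),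
      one_smul]
    rfl
  · intro x y
    change C (T x) (T y) = C (N x) y
    have key : C.compl₁₂ T T = C ∘ₗ N := by
      refine β.ext fun i => β.ext fun j => ?_
      have e1 : ∀ (c : ℝ) (z z' : V), C (c • z) z' = c • C z z' := fun c z z' => by
        rw [map_smul, LinearMap.smul_apply]
      rw [hβ, hβ, LinearMap.compl₁₂_apply, LinearMap.comp_apply, hTb, hTb, hb, map_smul, e1, e1,
        smul_smul]
      have h1 := hC (b i) (b j)
      rw [hb, hb, e1, map_smul] at h1
      by_cases h : μ i = μ j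
      · rw [← h, Real.mul_self_sqrt (hμ i).le]
      · have h2 : (μ i - μ j) • C (b i) (b j) = 0 := by rw [sub_smul, h1, sub_self]
        have h3 : C (b i) (b j) = 0 := (smul_eq_zero.1 h2).resolve_left (sub_ne_zero.2 h)
        rw [h3, smul_zero, smul_zero]
    have h4 := congrArg (fun F : V →ₗ[ℝ] V →ₗ[ℝ] ℂ => F x y) key
    exact h4

end Pool.Agent.Lib.MP_361a6f_ag.FL.CMP
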