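import Pool.Agent.Lib.MP_361a6f_ag.FL.A.Cmp
import Pool.Agent.Lib.MP_361a6f_ag.FL.A.SqrAbs

/-!
# The antisymmetric algebraic tensors and the algebraic classes of one variety are isometric
-/

open CategoryTheory AlgebraicGeometry MonoidalCategory CartesianMonoidalCategory

universe u v w

set_option autoImplicit false
set_option linter.unusedSectionVars false

namespace Pool.Agent.Lib.MP_361a6f_ag.FL

open Pool.Agent.Lib.MP_361a6f_ag.H3 Pool.Agent.Lib.MP_361a6f_ag.SQ
  Pool.Agent.Lib.MP_361a6f_ag.PP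

namespace CMP

/-- The isometry deduced from a bijection `M` with `B(M u, M v) = C(N u, v)`. -/
theorem exists_isometry {V V' : Type*} [AddCommGroup V] [Module ℝ V] [FiniteDimensional ℝ V]
    [AddCommGroup V'] [Module ℝ V']
    (g : V →ₗ[ℝ] V →ₗ[ℝ] ℝ) (C : V →ₗ[ℝ] V →ₗ[ℝ] ℂ) (N : V →ₗ[ℝ] V)
    (hg : ∀ x y, g x y = g y x) (hpos : ∀ x, x ≠ 0 → 0 < g x x)
    (hN : ∀ x y, g (N x) y = g x (N y)) (hNp : ∀ x, x ≠ 0 → 0 < g (N x) x)
    (hC : ∀ x y, C (N x) y = C x (N y)) (M : V ≃ₗ[ℝ] V') (B : V' → V' → ℂ)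
    (hM : ∀ x y, B (M x) (M y) = C (N x) y) :
    ∃ Φ : V ≃ₗ[ℝ] V', ∀ x y, B (Φ x) (Φ y) = C x y := by
  obtain ⟨T, hT⟩ := exists_sqrt g C N hg hpos hN hNp hC
  refine ⟨T.symm.trans M, fun x y => ?_⟩
  rw [LinearEquiv.trans_apply, LinearEquiv.trans_apply, hM, ← hT, LinearEquiv.apply_symm_apply,
    LinearEquiv.apply_symm_apply]

noncomputable section

variable {k : Type u} [Field k] {m : ℕ} {W : CohomologyData.{u, 0, w} k ℂ} {𝒱 : VarietyClass k}
  {H : Host W 𝒱 m} {a : Fin m}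

variable (H a) in
/-- the real span of the algebraic classes of codimension `l` on `X_a` -/
def RC (l : ℕ) : Submodule ℝ (W.coh (H.X a)) :=
  Submodule.span ℝ {z : W.coh (H.X a) | z ∈ W.alg (H.X a) l}

instance (l : ℕ) : FiniteDimensional ℝ (RC H a l) := by
  have h1 : Module.Finite ℂ (W.coh (H.X a)) := H.hW.finite (H.mem a)
  have h2 : Module.Finite ℝ (W.coh (H.X a)) := Module.Finite.trans ℂ (W.coh (H.X a))
  infer_instance

/-- the real part of the hermitian form on tensors -/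
def reH (H : Host W 𝒱 m) (a1 : Alg1) (a : Fin m) (L : ℕ) :
    SR H a L →ₗ[ℝ] SR H a L →ₗ[ℝ] ℝ :=
  LinearMap.mk₂ ℝ (fun x y => (psiT H.D (x : Ten H.I L) (jT H.D (y : Ten H.I L))).re)
    (fun x x' y => by
      rw [Submodule.coe_add, ← Qps.psiL_apply, map_add, LinearMap.add_apply, Complex.add_re]
      rfl)
    (fun c x y => by
      rw [Submodule.coe_smul, Qps.real_smul, ← Qps.psiL_apply, map_smul, LinearMap.smul_apply,
        smul_eq_mul, Complex.re_ofReal_mul]
      rfl)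
    (fun x y y' => by
      rw [Submodule.coe_add, a1.jT_add, ← Qps.psiL_apply, map_add, Complex.add_re]
      rfl)
    (fun c x y => by
      rw [Submodule.coe_smul, Qps.real_smul, a1.jT_smul, Complex.conj_ofReal, ← Qps.psiL_apply,
        map_smul, smul_eq_mul, Complex.re_ofReal_mul]
      rfl)

theorem reH_apply (a1 : Alg1) {L : ℕ} (x y : SR H a L) :
    reH H a1 a L x y = (psiT H.D (x : Ten H.I L) (jT H.D (y : Ten H.I L))).re := rfl

theorem reH_symm (a1 : Alg1) {L : ℕ} (x y : SR H a L) :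
    reH H a1 a L x y = reH H a1 a L y x := by
  rw [reH_apply, reH_apply, a1.psiT_jT, a1.psiT_jT, ← a1.hT_conj, Complex.conj_re]

theorem reH_pos (a1 : Alg1) {L : ℕ} (x : SR H a L) (hx : x ≠ 0) : 0 < reH H a1 a L x x := by
  rw [reH_apply, a1.psiT_jT, a1.hT_self, Complex.ofReal_re]
  have h0 : (x : Ten H.I L) ≠ 0 := fun h => hx (Subtype.ext h)
  obtain ⟨w, hw⟩ := Function.ne_iff.1 h0
  exact Finset.sum_pos' (fun w _ => by positivity)
    ⟨w, Finset.mem_univ w, pow_pos (norm_pos_iff.2 hw) 2⟩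

/-- the form `ψ` on tensors, with real scalars -/
def psR (H : Host W 𝒱 m) (a : Fin m) (L : ℕ) : SR H a L →ₗ[ℝ] SR H a L →ₗ[ℝ] ℂ :=
  LinearMap.mk₂ ℝ (fun x y => psiT H.D (x : Ten H.I L) (y : Ten H.I L))
    (fun x x' y => by
      rw [Submodule.coe_add, ← Qps.psiL_apply, map_add, LinearMap.add_apply]
      rfl)
    (fun c x y => by
      rw [Submodule.coe_smul, Qps.real_smul, ← Qps.psiL_apply, map_smul, LinearMap.smul_apply,
        smul_eq_mul, Complex.real_smul]
      rfl)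
    (fun x y y' => by
      rw [Submodule.coe_add, ← Qps.psiL_apply, map_add]
      rfl)
    (fun c x y => by
      rw [Submodule.coe_smul, Qps.real_smul, ← Qps.psiL_apply, map_smul, smul_eq_mul,
        Complex.real_smul]
      rfl)

theorem psR_apply {L : ℕ} (x y : SR H a L) :
    psR H a L x y = psiT H.D (x : Ten H.I L) (y : Ten H.I L) := rfl

section main

variable (a1 : Alg1) (ge : H.GeFacts) (hA : H.AtFacts) (mf : H.MulFacts)
  (ext : ExtFacts W (H.X a))
  {J : W.coh (H.X a) →ₛₗ[starRingEnd ℂ] W.coh (H.X a)} (hJ : JX H a1 a J)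

include a1 ge in
/-- `ψ` is symmetric in even degrees -/
theorem symE {l : ℕ} {x y : W.coh (H.X a)} (hx : x ∈ W.gr (H.X a) (2 * l))
    (hy : y ∈ W.gr (H.X a) (2 * l)) : H.psiL a x y = H.psiL a y x := by
  have key : ∀ z ∈ W.gr (H.X a) (2 * l), jT H.D (jT H.D (tcA H a z)) = tcA H a z := by
    intro z hz
    funext w
    rw [GO.jT_jT_apply]
    by_cases hw : ∑ i, (H.D.typ (w i)).2 = 2 * l
    · rw [hw, pow_mul, neg_one_sq, one_pow, one_mul]
    · rw [tcA_gr H ge hz w hw, mul_zero]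
  rw [← tcA_psi H ge, ← tcA_psi H ge]
  exact Qps.psi_symm a1 (key x hx) (key y hy)

theorem gr_of_mem {l : ℕ} {z : W.coh (H.X a)} (hz : z ∈ RC H a l) :
    z ∈ W.gr (H.X a) (2 * l) := by
  unfold RC at hz
  induction hz using Submodule.span_induction with
  | mem z hz => exact H.hW.alg_gr (H.mem a) hz
  | zero => exact zero_mem _
  | add x y _ _ hx hy => exact add_mem hx hy
  | smul c x _ hx =>
    rw [← algebraMap_smul ℂ c x]
    exact Submodule.smul_mem _ _ hx

include mf in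
/-- the multiplication map on antisymmetric algebraic tensors -/
theorem mul_RC {l : ℕ} {u : Ten H.I (2 * l)} (hu : u ∈ SR H a (2 * l)) :
    H.mul a u ∈ RC H a l := by
  unfold SR at hu
  induction hu using Submodule.span_induction with
  | mem u hu =>
    exact Submodule.subset_span (tot_alg H.hW (H.mem a) (mf.mul_mem a _ u hu.mem)
      (mul_gr hu.on))
  | zero =>
    have h : H.mul a (0 : Ten H.I (2 * l)) = 0 := map_zero (mulL H a (2 * l))
    rw [h]
    exact zero_mem _
  | add u v _ _ hu hv =>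
    have h : H.mul a (u + v) = H.mul a u + H.mul a v := map_add (mulL H a (2 * l)) u v
    rw [h]
    exact add_mem hu hv
  | smul r u _ hu =>
    have h : H.mul a ((r : ℂ) • u) = (r : ℂ) • H.mul a u := map_smul (mulL H a (2 * l)) _ u
    rw [Qps.real_smul, h, ← Complex.coe_algebraMap, algebraMap_smul]
    exact Submodule.smul_mem _ r hu

include mf ext in
/-- its adjoint on algebraic classes -/
theorem adj_SR {l : ℕ} (hl : 0 < l) {z : W.coh (H.X a)} (hz : z ∈ RC H a l) :
    H.prj a (H.mul' a (2 * l) z) ∈ SR H a (2 * l) := by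
  have h0 : ∀ z, H.prj a (H.mul' a (2 * l) z)
      = (prjL H a (2 * l) ∘ₗ mulL' H a (2 * l)) z := fun _ => rfl
  rw [h0]
  unfold RC at hz
  induction hz using Submodule.span_induction with
  | mem z hz =>
    exact Submodule.subset_span (antiAt_prj ext mf (by omega) (alg_le_tot H.hW _ l hz))
  | zero => rw [map_zero]; exact zero_mem _
  | add x y _ _ hx hy => rw [map_add]; exact add_mem hx hy
  | smul c x _ hx =>
    rw [← algebraMap_smul ℂ c x, map_smul, Complex.coe_algebraMap, ← Qps.real_smul]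
    exact Submodule.smul_mem _ c hx

/-- the multiplication map as a real linear map -/
def mulR (mf : H.MulFacts) (l : ℕ) : SR H a (2 * l) →ₗ[ℝ] RC H a l where
  toFun u := ⟨H.mul a (u : Ten H.I (2 * l)), mul_RC mf u.2⟩
  map_add' u v := Subtype.ext (map_add (mulL H a (2 * l)) (u : Ten H.I (2 * l)) v)
  map_smul' r u := Subtype.ext (by
    change H.mul a ((r • u : SR H a (2 * l)) : Ten H.I (2 * l)) = r • H.mul a (u : Ten H.I (2 * l))
    have h : H.mul a ((r : ℂ) • (u : Ten H.I (2 * l))) = (r : ℂ) • H.mul a (u : Ten H.I (2 * l)) :=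
      map_smul (mulL H a (2 * l)) _ _
    rw [Submodule.coe_smul, Qps.real_smul, h, ← Complex.coe_algebraMap, algebraMap_smul])

theorem mulR_apply {l : ℕ} (u : SR H a (2 * l)) :
    (mulR mf l u : W.coh (H.X a)) = H.mul a (u : Ten H.I (2 * l)) := rfl

include a1 hA ext in
theorem mulR_inj {l : ℕ} : Function.Injective (mulR (a := a) mf l) := by
  rw [← LinearMap.ker_eq_bot, LinearMap.ker_eq_bot']
  intro u hu
  by_contra h0
  have h0' : (u : Ten H.I (2 * l)) ≠ 0 := fun h => h0 (Subtype.ext h)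
  have hg := good_of_mem a1 hA mf u.2
  exact mul_ne ext hg.sup hg.anti h0' (congrArg Subtype.val hu)

/-- the adjoint as a real linear map -/
def adjR (mf : H.MulFacts) (ext : ExtFacts W (H.X a)) {l : ℕ} (hl : 0 < l) :
    RC H a l →ₗ[ℝ] SR H a (2 * l) where
  toFun z := ⟨H.prj a (H.mul' a (2 * l) z), adj_SR mf ext hl z.2⟩
  map_add' x y := Subtype.ext
    (map_add (prjL H a (2 * l) ∘ₗ mulL' H a (2 * l)) (x : W.coh (H.X a)) y)
  map_smul' r x := Subtype.ext (by
    change (prjL H a (2 * l) ∘ₗ mulL' H a (2 * l)) (r • (x : W.coh (H.X a)))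
      = r • (prjL H a (2 * l) ∘ₗ mulL' H a (2 * l)) (x : W.coh (H.X a))
    rw [← algebraMap_smul ℂ r (x : W.coh (H.X a)), map_smul, Complex.coe_algebraMap,
      ← Qps.real_smul])

include a1 ge in
theorem adjR_inj {l : ℕ} (hl : 0 < l) : Function.Injective (adjR (a := a) mf ext hl) := by
  rw [← LinearMap.ker_eq_bot, LinearMap.ker_eq_bot']
  intro z hz
  refine Subtype.ext (eq_zero_of_prj a1 ge mf ext (gr_of_mem z.2) ?_)
  exact congrArg Subtype.val hz

include a1 ge hA ext in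
theorem mulR_bij {l : ℕ} (hl : 0 < l) :
    ∃ M : SR H a (2 * l) ≃ₗ[ℝ] RC H a l, ∀ u, M u = mulR mf l u := by
  have h1 := LinearMap.finrank_le_finrank_of_injective (mulR_inj (a := a) a1 hA mf ext (l := l))
  have h2 := LinearMap.finrank_le_finrank_of_injective (adjR_inj (a := a) a1 ge mf ext hl)
  exact ⟨LinearEquiv.ofInjectiveOfFinrankEq (mulR mf l) (mulR_inj a1 hA mf ext) (le_antisymm h1 h2),
    fun u => rfl⟩

/-- the operator `N` -/
def NR (mf : H.MulFacts) (ext : ExtFacts W (H.X a)) {L : ℕ} (hL : 0 < L) :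
    SR H a L →ₗ[ℝ] SR H a L where
  toFun := fun x => ⟨NL H a L x, NL_mem ext mf hL x.2⟩
  map_add' := fun x y => Subtype.ext (map_add (NL H a L) (x : Ten H.I L) y)
  map_smul' := fun c x => Subtype.ext (by
    change NL H a L ((c • x : SR H a L) : Ten H.I L) = c • NL H a L x
    rw [Submodule.coe_smul, Qps.real_smul, map_smul, ← Qps.real_smul])

theorem NR_apply {L : ℕ} (hL : 0 < L) (x : SR H a L) :
    ((NR mf ext hL x : SR H a L) : Ten H.I L) = NL H a L x := rfl

include a1 ge hA hJ in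
/-- `N` and the hermitian form -/
theorem reH_NR {l : ℕ} (hL : 0 < 2 * l) (x y : SR H a (2 * l)) :
    reH H a1 a (2 * l) (NR mf ext hL x) y
      = (psi W (H.X a) (H.ξ a) (H.Lam a) hJ.rs.slm.internal (H.mul a (x : Ten H.I (2 * l)))
        (J (H.mul a (y : Ten H.I (2 * l))))).re := by
  have gx := good_of_mem a1 hA mf x.2
  have gy := good_of_mem a1 hA mf y.2
  have gN := good_of_mem a1 hA mf (NR mf ext hL x).2
  have hys : Sup H a (jT H.D (y : Ten H.I (2 * l))) := sup_jT H gy.sup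
  have hJy : J (H.mul a (y : Ten H.I (2 * l))) = H.mul a (jT H.D (y : Ten H.I (2 * l))) :=
    J_mul H a1 hJ ge gy.sup
  have h1 : jT H.D (jT H.D (jT H.D (y : Ten H.I (2 * l)))) = jT H.D (y : Ten H.I (2 * l)) :=
    congrArg (jT H.D) gy.jj
  rw [reH_apply, Qps.psi_symm a1 gN.jj h1, NR_apply, psiT_NL mf hys,
    symE a1 ge (mul_gr hys) (mul_gr gx.sup), hJy]
  rfl

include a1 ge hA mf ext hJ in
/-- **The isometry.** For `l > 0`. -/
theorem isometry_pos {l : ℕ} (hl : 0 < l) :
    ∃ Φ : SR H a (2 * l) ≃ₗ[ℝ] RC H a l, ∀ x y : SR H a (2 * l),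
      H.psiL a (Φ x : W.coh (H.X a)) (Φ y) = psiT H.D (x : Ten H.I (2 * l)) y := by
  have hL : 0 < 2 * l := by omega
  obtain ⟨M, hM⟩ := mulR_bij a1 ge hA mf ext (a := a) hl
  have hP := hJ.rs.posHerm
  have hsymm : ∀ x y : SR H a (2 * l), reH H a1 a (2 * l) (NR mf ext hL x) y
      = reH H a1 a (2 * l) (NR mf ext hL y) x := by
    intro x y
    rw [reH_NR a1 ge hA mf ext hJ hL, reH_NR a1 ge hA mf ext hJ hL]
    have := hP.conj (H.mul a (x : Ten H.I (2 * l))) (H.mul a (y : Ten H.I (2 * l)))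
    rw [← this, Complex.conj_re]
  have hps : ∀ x y : SR H a (2 * l), psR H a (2 * l) (NR mf ext hL x) y
      = H.psiL a (H.mul a (x : Ten H.I (2 * l))) (H.mul a (y : Ten H.I (2 * l))) := by
    intro x y
    have gx := good_of_mem a1 hA mf x.2
    have gy := good_of_mem a1 hA mf y.2
    have gN := good_of_mem a1 hA mf (NR mf ext hL x).2
    rw [psR_apply, Qps.psi_symm a1 gN.jj gy.jj, NR_apply, psiT_NL mf gy.sup, symX a1 ge gy gx]
  refine exists_isometry (reH H a1 a (2 * l)) (psR H a (2 * l)) (NR mf ext hL)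
    (reH_symm a1) (reH_pos a1) (fun x y => ?_) (fun x hx => ?_) (fun x y => ?_) M
    (fun x y => H.psiL a (x : W.coh (H.X a)) y) (fun x y => ?_)
  · rw [hsymm, reH_symm]
  · rw [reH_NR a1 ge hA mf ext hJ hL]
    have gx := good_of_mem a1 hA mf x.2
    have hx0 : (x : Ten H.I (2 * l)) ≠ 0 := fun h => hx (Subtype.ext h)
    obtain ⟨r, hr, hr'⟩ := hJ.rs.pos _ (mul_ne ext gx.sup gx.anti hx0)
    rw [hr', Complex.ofReal_re]
    exact hr
  · have gx := good_of_mem a1 hA mf x.2
    have gy := good_of_mem a1 hA mf y.2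
    rw [hps, psR_apply, NR_apply, psiT_NL mf gx.sup]
  · change H.psiL a (M x : W.coh (H.X a)) (M y) = _
    rw [hM, hM, hps]
    rfl

include a1 ge hA mf ext in
/-- in codimension `0` the multiplication map is onto -/
theorem mulR_surj_zero (hp1 : RatPos (H.psiL a 1 1)) (z : W.coh (H.X a))
    (hz : z ∈ W.alg (H.X a) 0) : ∃ u : Ten H.I 0, H.AntiAt a u ∧ H.mul a u = z := by
  obtain ⟨c, hc⟩ := ext.zero z (H.hW.alg_gr (H.mem a) hz)
  obtain ⟨q, hq⟩ := Qps.psi_rat (aSys_at hA) (tcA_mem H (alg_le_tot H.hW _ 0 hz))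
    (tcA_mem H (a := a) (one_tot H.hW (H.mem a)))
  rw [tcA_psi H ge, hc, psiL_smul_left] at hq
  obtain ⟨q0, hq0, hq0'⟩ := hp1
  rw [hq0'] at hq
  have hne : (q0 : ℂ) ≠ 0 := by exact_mod_cast hq0.ne'
  have hc' : c = ((q / q0 : ℚ) : ℂ) := by
    push_cast
    rw [← hq]
    field_simp
  refine ⟨fun _ => c, ⟨?_, fun w hw => ?_, fun σ w => ?_⟩, ?_⟩
  · exact (hA.zero _).2 ⟨q / q0, by rw [hc']⟩
  · exact absurd (fun i : Fin 0 => i.elim0) hw
  · have h1 : σ = 1 := Subsingleton.elim (α := Equiv.Perm (Fin 0)) σ 1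
    rw [h1]
    simp
  · have h1 : H.mul a (L := 0) (fun _ => c) = ∑ _ : Fin 0 → H.I, c • (1 : W.coh (H.X a)) :=
      rfl
    rw [h1, Fintype.sum_unique, hc]

theorem mul_zero_len (u : Ten H.I 0) : H.mul a u = u default • (1 : W.coh (H.X a)) := by
  unfold Host.mul
  rw [Fintype.sum_unique]
  rfl

theorem psiT_zero_len (u v : Ten H.I 0) : psiT H.D u v = u default * v default := by
  unfold psiT
  rw [Fintype.sum_unique]
  have e' : H.D.τ ∘ (default : Fin 0 → H.I) = default := Subsingleton.elim _ _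
  have h1 : sg H.D (default : Fin 0 → H.I) = 1 := by
    unfold sg
    exact Fintype.prod_empty _
  rw [e', h1, one_mul]

include a1 ge hA mf ext in
/-- **The isometry** for `l = 0`. -/
theorem isometry_zero (hp1 : RatPos (H.psiL a 1 1)) :
    ∃ Φ : SR H a (2 * 0) ≃ₗ[ℝ] RC H a 0, ∀ x y : SR H a (2 * 0),
      H.psiL a (Φ x : W.coh (H.X a)) (Φ y) = psiT H.D (x : Ten H.I (2 * 0)) y := by
  have hs : Function.Surjective (mulR (a := a) mf 0) := by
    have key : ∀ z, z ∈ RC H a 0 → ∃ u : SR H a (2 * 0), H.mul a (u : Ten H.I (2 * 0)) = z := by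
      intro z hz
      unfold RC at hz
      induction hz using Submodule.span_induction with
      | mem z hz =>
        obtain ⟨u, hu, hu'⟩ := mulR_surj_zero a1 ge hA mf ext hp1 z hz
        exact ⟨⟨u, Submodule.subset_span hu⟩, hu'⟩
      | zero =>
        refine ⟨0, ?_⟩
        change mulL H a (2 * 0) (0 : Ten H.I (2 * 0)) = 0
        exact map_zero (mulL H a (2 * 0))
      | add x y _ _ hx hy =>
        obtain ⟨u, hu⟩ := hx
        obtain ⟨v, hv⟩ := hy
        refine ⟨u + v, ?_⟩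
        rw [← hu, ← hv]
        exact map_add (mulL H a (2 * 0)) _ _
      | smul c x _ hx =>
        obtain ⟨u, hu⟩ := hx
        refine ⟨c • u, ?_⟩
        rw [← hu]
        exact congrArg Subtype.val ((mulR (a := a) mf 0).map_smul c u)
    intro z
    obtain ⟨u, hu⟩ := key z z.2
    exact ⟨u, Subtype.ext hu⟩
  obtain ⟨q, hq, hq'⟩ := hp1
  have hqr : (0 : ℝ) < q := by exact_mod_cast hq
  let M := LinearEquiv.ofBijective (mulR (a := a) mf 0) ⟨mulR_inj a1 hA mf ext, hs⟩
  have hM : ∀ u, (M u : W.coh (H.X a)) = H.mul a (u : Ten H.I (2 * 0)) := fun _ => rfl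
  refine exists_isometry (reH H a1 a (2 * 0)) (psR H a (2 * 0)) ((q : ℝ) • LinearMap.id)
    (reH_symm a1) (reH_pos a1) (fun x y => ?_) (fun x hx => ?_) (fun x y => ?_) M
    (fun x y => H.psiL a (x : W.coh (H.X a)) y) (fun x y => ?_)
  · rw [LinearMap.smul_apply, LinearMap.smul_apply, map_smul, LinearMap.smul_apply, map_smul]
    rfl
  · rw [LinearMap.smul_apply, map_smul, LinearMap.smul_apply, smul_eq_mul]
    exact mul_pos hqr (reH_pos a1 x hx)
  · rw [LinearMap.smul_apply, LinearMap.smul_apply, map_smul, LinearMap.smul_apply, map_smul]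
    rfl
  · change H.psiL a (M x : W.coh (H.X a)) (M y) = _
    obtain ⟨x0, hx0⟩ : ∃ x0 : Ten H.I 0, x0 = (x : Ten H.I (2 * 0)) := ⟨_, rfl⟩
    obtain ⟨y0, hy0⟩ : ∃ y0 : Ten H.I 0, y0 = (y : Ten H.I (2 * 0)) := ⟨_, rfl⟩
    have e1 : H.mul a (x : Ten H.I (2 * 0)) = x0 default • (1 : W.coh (H.X a)) :=
      (congrArg (fun t : Ten H.I 0 => H.mul a t) hx0.symm).trans (mul_zero_len x0)
    have e2 : H.mul a (y : Ten H.I (2 * 0)) = y0 default • (1 : W.coh (H.X a)) :=
      (congrArg (fun t : Ten H.I 0 => H.mul a t) hy0.symm).trans (mul_zero_len y0)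
    have e3 : psiT H.D (x : Ten H.I (2 * 0)) (y : Ten H.I (2 * 0))
        = x0 default * y0 default :=
      (congrArg₂ (fun t t' : Ten H.I 0 => psiT H.D t t') hx0.symm hy0.symm).trans
        (psiT_zero_len x0 y0)
    rw [hM, hM, e1, e2, psiL_smul_left, psiL_smul_right, hq', LinearMap.smul_apply, map_smul,
      LinearMap.smul_apply, LinearMap.id_apply, psR_apply, e3, Complex.real_smul]
    push_cast
    ring

include a1 ge hA mf ext hJ in
/-- **The isometry** between the real span of the antisymmetric algebraic tensors of length `2 l`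
over `H^1(X_a)` and the real span of the algebraic classes of codimension `l` on `X_a`. -/
theorem isometry (hp1 : RatPos (H.psiL a 1 1)) (l : ℕ) :
    ∃ Φ : SR H a (2 * l) ≃ₗ[ℝ] RC H a l, ∀ x y : SR H a (2 * l),
      H.psiL a (Φ x : W.coh (H.X a)) (Φ y) = psiT H.D (x : Ten H.I (2 * l)) y := by
  rcases Nat.eq_zero_or_pos l with rfl | hl
  · exact isometry_zero a1 ge hA mf ext hp1
  · exact isometry_pos a1 ge hA mf ext hJ hl

include a1 hA mf ext in
/-- there are no antisymmetric algebraic tensors of odd length -/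
theorem SR_odd {L : ℕ} (hL : ¬ 2 ∣ L) (u : Ten H.I L) (hu : u ∈ SR H a L) : u = 0 := by
  unfold SR at hu
  induction hu using Submodule.span_induction with
  | mem u hu =>
    by_contra h0
    exact mul_ne ext hu.on hu.anti h0 (tot_odd H.hW (H.mem a) (mf.mul_mem a L u hu.mem) hL
      (mul_gr hu.on))
  | zero => rfl
  | add u v _ _ hu hv => rw [hu, hv, add_zero]
  | smul r u _ hu => rw [hu, smul_zero]

end main

end

end CMP

/-- **Row R5.** On an abelian variety `X_a` the form `ψ` on the real span of the antisymmetric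
algebraic tensors of length `2 l` over `H^1(X_a)` is isometric to the form `ψ` on the real span of
the algebraic classes of codimension `l`. -/
theorem anti_isometry (hr : HrStatement.{u, w}) (hm : MulStatement.{u, w})
    (hAt : AtStatement.{u, w}) (a1 : Alg1) {k : Type u} [Field k] {m : ℕ}
    {W : CohomologyData.{u, 0, w} k ℂ} {𝒱 : VarietyClass k} (H : Host W 𝒱 m) (a : Fin m)
    (hab : AbelianType W (H.X a) (H.n a)) (ext : ExtFacts W (H.X a))
    (hpd : PositiveDivisor W (H.X a) (H.n a) (H.ξ a)) :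
    (∀ l : ℕ, ∃ Φ : CMP.SR H a (2 * l) ≃ₗ[ℝ] CMP.RC H a l, ∀ x y : CMP.SR H a (2 * l),
      H.psiL a (Φ x : W.coh (H.X a)) (Φ y) = psiT H.D (x : Ten H.I (2 * l)) y) ∧
    ∀ L : ℕ, ¬ 2 ∣ L → ∀ u ∈ CMP.SR H a L, u = 0 := by
  obtain ⟨J, hJ⟩ := CMP.exists_JX H a1 hr (ge H) hab ext hpd
  exact ⟨CMP.isometry a1 (ge H) (hAt H) (hm H) ext hJ (GPOS.psi_one H a hpd),
    fun L hL u hu => CMP.SR_odd a1 (hAt H) (hm H) ext hL u hu⟩

end Pool.Agent.Lib.MP_361a6f_ag.FL
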