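import Pool.Agent.Lib.MP_361a6f_ag.FL.Stat

/-!
# Products of varieties with the cohomology of an abelian variety: the definitions used in the
statement
-/

open CategoryTheory AlgebraicGeometry MonoidalCategory CartesianMonoidalCategory

universe u v w

namespace Pool.Agent.Lib.MP_361a6f_ag.FL

open Pool.Agent.Lib.MP_361a6f_ag.H3 Pool.Agent.Lib.MP_361a6f_ag.SQ
  Pool.Agent.Lib.MP_361a6f_ag.PP

noncomputable section

variable {k : Type u} [Field k] {K : Type v} [Field K] {m : ℕ}

/-- The cohomology of `X` is that of an abelian variety of dimension `g`: the algebra `H^*(X)` is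
generated by `H^1(X)`, and `dim H^1(X) = 2 g`. -/
structure AbelianType (W : CohomologyData.{u, v, w} k K) (X : Sch k) (g : ℕ) : Prop where
  gen : ∀ x : W.coh X, x ∈ Algebra.adjoin K {y : W.coh X | W.Deg X 1 y}
  rank : Module.finrank K (W.gr X 1) = 2 * g

/-- The classes on the products of the `X_a` generated by the algebraic classes on the single
`X_a` and the algebraic classes of codimension `1` on the products `X_a × X_b` of two factors,
under cup products, exterior products, and pull-backs and push-forwards along the morphisms that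
are composed of projections, permutations of the factors and diagonals. -/
inductive GenA (W : CohomologyData.{u, v, w} k K) (X : Fin m → Sch k) :
    (P : Prd m) → W.coh (P.obj X) → Prop
  | leaf (a : Fin m) (l : ℕ) (z : W.coh (X a)) : W.IsAlg (X a) l z → GenA W X (.leaf a) z
  | pair (a b : Fin m) (z : W.coh ((X a).prod (X b))) : W.IsAlg ((X a).prod (X b)) 1 z →
      GenA W X (.prod (.leaf a) (.leaf b)) z
  | ext (P Q : Prd m) (z : W.coh (P.obj X)) (z' : W.coh (Q.obj X)) : GenA W X P z →
      GenA W X Q z' → GenA W X (.prod P Q) (W.ext z z')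
  | cup (P : Prd m) (z z' : W.coh (P.obj X)) : GenA W X P z → GenA W X P z' →
      GenA W X P (W.cup z z')
  | pb (P Q : Prd m) (f : Sch.Mor (P.obj X) (Q.obj X)) (z : W.coh (Q.obj X)) :
      CoordMor X 3 P Q f → GenA W X Q z → GenA W X P (W.pb f z)
  | pf (P Q : Prd m) (f : Sch.Mor (P.obj X) (Q.obj X)) (z : W.coh (P.obj X)) :
      CoordMor X 3 P Q f → GenA W X P z → GenA W X Q (W.pf f z)

/-- The `K`-span of these classes. -/
def spanA (W : CohomologyData.{u, v, w} k K) (X : Fin m → Sch k) (P : Prd m) :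
    Submodule K (W.coh (P.obj X)) :=
  Submodule.span K {z | GenA W X P z}

end

/-- Theorem A. -/
def ThmAStatement : Prop :=
  ∀ {k : Type u} [Field k] {K : Type v} [Field K] [CharZero K] (_ : K →+* ℂ)
    (W : CohomologyData.{u, v, w} k K) (𝒱 : VarietyClass k) (_ : IsWeilCohomology W 𝒱)
    {m : ℕ} {X : Fin m → Sch k} {n : Fin m → ℕ} (_ : ∀ a, 𝒱.mem (X a) (n a))
    (_ : ∀ a, AbelianType W (X a) (n a))
    {ξ : ∀ a, W.coh (X a)} (_ : ∀ a, PositiveDivisor W (X a) (n a) (ξ a))
    (_ : ∀ a, HardLefschetz W (X a) (n a) (ξ a))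
    (_ : ∀ a, AlgebraicLambda W (X a) (n a) (ξ a))
    (_ : ∀ a, HodgeType W (X a) (n a) (ξ a))
    (_ : ∀ a b, HodgeCodim W ((X a).prod (X b)) (n a + n b)
      ((Prd.prod (.leaf a) (.leaf b)).pol W ξ) 1)
    (P : Prd m) (η : W.coh (P.obj X)) (_ : IsPol W ξ P η),
    HodgeOn W (P.obj X) (P.dim n) η (spanA W X P)

end Pool.Agent.Lib.MP_361a6f_ag.FL
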